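import Mathlib

namespace Pool.Agent.Lib.MP_81f3cc_co

open SimpleGraph Finset

universe u

/-- A walk all of whose edges lie in F gives a distance bound in the graph with edge set F. -/
lemma edist_le_of_edges {V : Type u} {G : SimpleGraph V} {F : Set (Sym2 V)} {x y : V}
    (p : G.Walk x y) (h : ∀ e ∈ p.edges, e ∈ F) :
    (fromEdgeSet F).edist x y ≤ p.length := by
  have h' : ∀ e ∈ p.edges, e ∈ (fromEdgeSet F).edgeSet := by
    intro e he
    rw [edgeSet_fromEdgeSet]
    refine ⟨h e he, ?_⟩
    intro hd
    exact G.not_isDiag_of_mem_edgeSet (p.edges_subset_edgeSet he) hd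
  have := edist_le (p.transfer (fromEdgeSet F) h')
  simpa using this

lemma exists_parent {V : Type u} (G : SimpleGraph V) (s v : V) (hr : G.Reachable s v)
    (hne : v ≠ s) : ∃ w, G.Adj v w ∧ G.Reachable s w ∧ G.dist s w + 1 = G.dist s v := by
  obtain ⟨p, hp⟩ := hr.symm.exists_walk_length_eq_dist
  cases p with
  | nil => exact absurd rfl hne
  | cons h q =>
    rename_i w
    refine ⟨w, h, q.reachable.symm, ?_⟩
    have h1 : G.dist w s ≤ q.length := dist_le q
    have h2 : G.dist v s ≤ G.dist w s + 1 := by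
      obtain ⟨r, hr'⟩ := q.reachable.exists_walk_length_eq_dist
      have := dist_le (Walk.cons h r)
      simp only [Walk.length_cons] at this
      omega
    simp only [Walk.length_cons] at hp
    rw [dist_comm (v := w), dist_comm (v := v)]
    omega

/-- Shortest path tree rooted at s. -/
lemma bfs_tree {V : Type u} [Fintype V] (G : SimpleGraph V) (s : V) :
    ∃ T : Finset (Sym2 V), (∀ e ∈ T, e ∈ G.edgeSet) ∧ T.card ≤ Fintype.card V ∧
      ∀ F : Set (Sym2 V), (∀ e ∈ T, e ∈ F) → ∀ v,
        (fromEdgeSet F).edist s v ≤ G.edist s v := by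
  classical
  have hch : ∀ v, ∃ w, (G.Reachable s v ∧ v ≠ s) →
      G.Adj v w ∧ G.Reachable s w ∧ G.dist s w + 1 = G.dist s v := by
    intro v
    by_cases h : G.Reachable s v ∧ v ≠ s
    · obtain ⟨w, hw⟩ := exists_parent G s v h.1 h.2
      exact ⟨w, fun _ => hw⟩
    · exact ⟨v, fun h' => absurd h' h⟩
  choose par hpar using hch
  refine ⟨(univ.filter (fun v => G.Reachable s v ∧ v ≠ s)).image (fun v => s(v, par v)), ?_, ?_, ?_⟩
  · intro e he
    simp only [mem_image, mem_filter, mem_univ, true_and] at he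
    obtain ⟨v, hv, rfl⟩ := he
    exact (hpar v hv).1
  · refine card_image_le.trans ?_
    exact (card_filter_le _ _).trans (by simp)
  · intro F hF
    have key : ∀ k : ℕ, ∀ v, G.Reachable s v → G.dist s v = k →
        (fromEdgeSet F).edist s v ≤ k := by
      intro k
      induction k with
      | zero =>
        intro v hv h0
        have : s = v := (hv.dist_eq_zero_iff).1 h0
        subst this
        simp
      | succ k ih =>
        intro v hv hk
        have hne : v ≠ s := by
          rintro rfl
          simp at hk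
        obtain ⟨ha, hrw, hd⟩ := hpar v ⟨hv, hne⟩
        have h1 := ih (par v) hrw (by omega)
        have h2 : (fromEdgeSet F).edist (par v) v ≤ 1 := by
          rw [edist_le_one_iff_adj_or_eq]
          left
          rw [fromEdgeSet_adj]
          refine ⟨?_, ha.ne.symm⟩
          rw [Sym2.eq_swap]
          apply hF
          simp only [mem_image, mem_filter, mem_univ, true_and]
          exact ⟨v, ⟨hv, hne⟩, rfl⟩
        calc (fromEdgeSet F).edist s v ≤ (fromEdgeSet F).edist s (par v) + (fromEdgeSet F).edist (par v) v :=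
              SimpleGraph.edist_triangle
          _ ≤ (k : ℕ∞) + 1 := add_le_add h1 h2
          _ = ((k + 1 : ℕ) : ℕ∞) := by push_cast; rfl
    intro v
    by_cases hv : G.Reachable s v
    · rw [← hv.coe_dist_eq_edist]
      exact key _ v hv rfl
    · rw [edist_eq_top_of_not_reachable hv]
      exact le_top

/-- neighbours of x in U -/
noncomputable def nb {V : Type u} (G : SimpleGraph V) (U : Finset V) (x : V) : Finset V :=
  open Classical in U.filter (fun z => G.Adj x z)

/-- vertices of U different from x joined to x by a path of length 2 inside U -/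
noncomputable def bb {V : Type u} (G : SimpleGraph V) (U : Finset V) (x : V) : Finset V :=
  open Classical in U.filter (fun y => y ≠ x ∧ ∃ z ∈ U, G.Adj x z ∧ G.Adj z y)

lemma mem_nb {V : Type u} {G : SimpleGraph V} {U : Finset V} {x z : V} :
    z ∈ nb G U x ↔ z ∈ U ∧ G.Adj x z := by
  simp [nb]

lemma mem_bb {V : Type u} {G : SimpleGraph V} {U : Finset V} {x y : V} :
    y ∈ bb G U x ↔ y ∈ U ∧ y ≠ x ∧ ∃ z ∈ U, G.Adj x z ∧ G.Adj z y := by
  simp [bb]

lemma two_ball {V : Type u} (G : SimpleGraph V) (s t D : ℕ) (hs : 1 ≤ s)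
    (hc : ∀ S Z : Finset V, S.card = s → (∀ z ∈ Z, ∀ x ∈ S, G.Adj x z) → Z.card ≤ t)
    (U : Finset V) (hU : ∀ x ∈ U, D ≤ (nb G U x).card) (x : V) (hx : x ∈ U) :
    D * (D - 1).choose (s - 1) ≤ t * (bb G U x).card.choose (s - 1) := by
  classical
  set Z := nb G U x with hZ
  set B := bb G U x with hB
  have hsub : ∀ z ∈ Z, (nb G U z).erase x ⊆ B := by
    intro z hz y hy
    rw [mem_erase, mem_nb] at hy
    rw [hZ, mem_nb] at hz
    rw [hB, mem_bb]
    exact ⟨hy.2.1, hy.1, z, hz.1, hz.2, hy.2.2⟩
  let r : V → Finset V → Prop := fun z T => T ⊆ (nb G U z).erase x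
  have h1 : ∀ z ∈ Z, (D - 1).choose (s - 1) ≤
      ((powersetCard (s - 1) B).bipartiteAbove r z).card := by
    intro z hz
    have hzU : z ∈ U := (mem_nb.1 hz).1
    have : powersetCard (s - 1) ((nb G U z).erase x) ⊆
        (powersetCard (s - 1) B).bipartiteAbove r z := by
      intro T hT
      rw [mem_powersetCard] at hT
      rw [mem_bipartiteAbove, mem_powersetCard]
      exact ⟨⟨hT.1.trans (hsub z hz), hT.2⟩, hT.1⟩
    refine le_trans ?_ (card_le_card this)
    rw [card_powersetCard]
    apply Nat.choose_le_choose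
    have h2 := hU z hzU
    have h3 := pred_card_le_card_erase (s := nb G U z) (a := x)
    omega
  have h2 : ∀ T ∈ powersetCard (s - 1) B, (Z.bipartiteBelow r T).card ≤ t := by
    intro T hT
    rw [mem_powersetCard] at hT
    have hxT : x ∉ T := by
      intro h
      have := hT.1 h
      rw [hB, mem_bb] at this
      exact this.2.1 rfl
    apply hc (insert x T) _ (by rw [card_insert_of_notMem hxT, hT.2]; omega)
    intro z hz y hy
    rw [mem_bipartiteBelow] at hz
    rw [mem_insert] at hy
    rcases hy with rfl | hy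
    · exact (mem_nb.1 hz.1).2
    · have := hz.2 hy
      rw [mem_erase, mem_nb] at this
      exact this.2.2.symm
  have h3 := sum_card_bipartiteAbove_eq_sum_card_bipartiteBelow (s := Z)
    (t := powersetCard (s - 1) B) r
  calc D * (D - 1).choose (s - 1) ≤ Z.card * (D - 1).choose (s - 1) :=
        Nat.mul_le_mul_right _ (hU x hx)
    _ = ∑ _z ∈ Z, (D - 1).choose (s - 1) := by rw [sum_const, smul_eq_mul]
    _ ≤ ∑ z ∈ Z, ((powersetCard (s - 1) B).bipartiteAbove r z).card := sum_le_sum h1
    _ = ∑ T ∈ powersetCard (s - 1) B, (Z.bipartiteBelow r T).card := h3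
    _ ≤ ∑ _T ∈ powersetCard (s - 1) B, t := sum_le_sum h2
    _ = t * B.card.choose (s - 1) := by rw [sum_const, smul_eq_mul, card_powersetCard, mul_comm]

lemma edist_le_two_of_bb {V : Type u} {G : SimpleGraph V} {U : Finset V} {x y : V}
    (h : y ∈ bb G U x) : G.edist x y ≤ 2 := by
  rw [mem_bb] at h
  obtain ⟨_, _, z, _, h1, h2⟩ := h
  have := edist_le (Walk.cons h1 (Walk.cons h2 Walk.nil))
  simpa using this

lemma peel {V : Type u} [DecidableEq V] (G : SimpleGraph V) (D M t : ℕ)
    (hM : ∀ (U : Finset V) (x : V), x ∈ U → (∀ y ∈ U, D ≤ (nb G U y).card) →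
      M ≤ t * (bb G U x).card) :
    ∀ (k : ℕ) (U : Finset V), U.card = k → ∃ (F : Finset (Sym2 V)) (S : Finset V),
      (∀ e ∈ F, e ∈ G.edgeSet) ∧ F.card ≤ D * U.card ∧ S.card * M ≤ t * U.card ∧
      ∀ x ∈ U, ∀ y ∈ U, G.Adj x y → s(x, y) ∈ F ∨
        ∃ z ∈ S, G.edist z x ≤ 2 ∨ G.edist z y ≤ 2 := by
  intro k
  induction k using Nat.strong_induction_on with
  | _ k ih =>
    intro U hUk
    by_cases hU0 : U = ∅
    · subst hU0
      exact ⟨∅, ∅, by simp, by simp, by simp, by simp⟩
    by_cases hlow : ∃ x ∈ U, (nb G U x).card < D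
    · obtain ⟨x, hx, hxD⟩ := hlow
      have hcard : (U.erase x).card + 1 = U.card := card_erase_add_one hx
      obtain ⟨F, S, hF, hFc, hSc, hcov⟩ := ih (U.erase x).card (by omega) (U.erase x) rfl
      refine ⟨F ∪ (nb G U x).image (fun z => s(x, z)), S, ?_, ?_, ?_, ?_⟩
      · intro e he
        rw [mem_union, mem_image] at he
        rcases he with he | ⟨z, hz, rfl⟩
        · exact hF e he
        · exact (mem_nb.1 hz).2
      · refine (card_union_le _ _).trans ?_
        have h1 : ((nb G U x).image (fun z => s(x, z))).card ≤ (nb G U x).card := card_image_le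
        have h2 : D * U.card = D * (U.erase x).card + D := by rw [← hcard]; ring
        omega
      · refine hSc.trans (Nat.mul_le_mul_left _ (by omega))
      · intro a ha b hb hab
        by_cases hax : a = x
        · left
          rw [mem_union, mem_image]
          right
          exact ⟨b, mem_nb.2 ⟨hb, hax ▸ hab⟩, by rw [hax]⟩
        by_cases hbx : b = x
        · left
          rw [mem_union, mem_image]
          right
          exact ⟨a, mem_nb.2 ⟨ha, hbx ▸ hab.symm⟩, by rw [hbx]; exact Sym2.eq_swap⟩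
        rcases hcov a (mem_erase.2 ⟨hax, ha⟩) b (mem_erase.2 ⟨hbx, hb⟩) hab with h | h
        · left; exact mem_union_left _ h
        · right; exact h
    · push Not at hlow
      obtain ⟨x, hx⟩ := nonempty_iff_ne_empty.2 hU0
      have hB : M ≤ t * (bb G U x).card := hM U x hx hlow
      have hxB : x ∉ bb G U x := by
        intro h
        exact (mem_bb.1 h).2.1 rfl
      have hsub : insert x (bb G U x) ⊆ U := by
        intro y hy
        rw [mem_insert] at hy
        rcases hy with rfl | hy
        · exact hx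
        · exact (mem_bb.1 hy).1
      have hc1 : (insert x (bb G U x)).card = (bb G U x).card + 1 := card_insert_of_notMem hxB
      have hcard := card_sdiff_add_card_eq_card hsub
      obtain ⟨F, S, hF, hFc, hSc, hcov⟩ :=
        ih (U \ insert x (bb G U x)).card (by omega) (U \ insert x (bb G U x)) rfl
      refine ⟨F, insert x S, hF, ?_, ?_, ?_⟩
      · refine hFc.trans (Nat.mul_le_mul_left _ ?_)
        omega
      · have h1 : (insert x S).card ≤ S.card + 1 := card_insert_le _ _
        calc (insert x S).card * M ≤ (S.card + 1) * M := Nat.mul_le_mul_right _ h1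
          _ = S.card * M + M := by ring
          _ ≤ t * (U \ insert x (bb G U x)).card + t * (bb G U x).card := add_le_add hSc hB
          _ = t * ((U \ insert x (bb G U x)).card + (bb G U x).card) := by ring
          _ ≤ t * U.card := Nat.mul_le_mul_left _ (by omega)
      · intro a ha b hb hab
        have hnear : ∀ y, y ∈ insert x (bb G U x) → G.edist x y ≤ 2 := by
          intro y hy
          rw [mem_insert] at hy
          rcases hy with rfl | hy
          · simp
          · exact edist_le_two_of_bb hy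
        by_cases haB : a ∈ insert x (bb G U x)
        · right
          exact ⟨x, mem_insert_self _ _, Or.inl (hnear a haB)⟩
        by_cases hbB : b ∈ insert x (bb G U x)
        · right
          exact ⟨x, mem_insert_self _ _, Or.inr (hnear b hbB)⟩
        rcases hcov a (mem_sdiff.2 ⟨ha, haB⟩) b (mem_sdiff.2 ⟨hb, hbB⟩) hab with h | ⟨z, hz, h⟩
        · left; exact h
        · right; exact ⟨z, mem_insert_of_mem hz, h⟩

/-- a hub with a shortest path tree, at distance at most 2 from a shortest walk -/
lemma hub {V : Type u} {G H : SimpleGraph V} {u v w z : V} (p : G.Walk u v)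
    (hp : (p.length : ℕ∞) = G.edist u v) (hw : w ∈ p.support)
    (hz : G.edist z w ≤ 2) (hH : ∀ y, H.edist z y ≤ G.edist z y) :
    H.edist u v ≤ G.edist u v + 4 := by
  classical
  have h1 : G.edist w u ≤ (p.takeUntil w hw).length := by
    rw [edist_comm]; exact edist_le _
  have h2 : G.edist w v ≤ (p.dropUntil w hw).length := edist_le _
  have h3 : (p.takeUntil w hw).length + (p.dropUntil w hw).length = p.length := by
    have := congrArg Walk.length (p.take_spec hw)
    rwa [Walk.length_append] at this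
  have h4 : G.edist z u ≤ 2 + (p.takeUntil w hw).length :=
    (SimpleGraph.edist_triangle (v := w)).trans (add_le_add hz h1)
  have h5 : G.edist z v ≤ 2 + (p.dropUntil w hw).length :=
    (SimpleGraph.edist_triangle (v := w)).trans (add_le_add hz h2)
  calc H.edist u v ≤ H.edist u z + H.edist z v := SimpleGraph.edist_triangle
    _ = H.edist z u + H.edist z v := by rw [SimpleGraph.edist_comm]
    _ ≤ G.edist z u + G.edist z v := add_le_add (hH u) (hH v)
    _ ≤ (2 + (p.takeUntil w hw).length) + (2 + (p.dropUntil w hw).length) := add_le_add h4 h5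
    _ = ((p.takeUntil w hw).length + (p.dropUntil w hw).length : ℕ) + 4 := by push_cast; ring
    _ = G.edist u v + 4 := by rw [h3, hp]

/-- union of the shortest path trees of a set of hubs -/
lemma trees {V : Type u} [Fintype V] [DecidableEq V] (G : SimpleGraph V) (S : Finset V) :
    ∃ T : Finset (Sym2 V), (∀ e ∈ T, e ∈ G.edgeSet) ∧ T.card ≤ S.card * Fintype.card V ∧
      ∀ F : Set (Sym2 V), (∀ e ∈ T, e ∈ F) → ∀ z ∈ S, ∀ v,
        (fromEdgeSet F).edist z v ≤ G.edist z v := by
  choose T h1 h2 h3 using fun s => bfs_tree G s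
  refine ⟨S.biUnion T, ?_, ?_, ?_⟩
  · intro e he
    rw [mem_biUnion] at he
    obtain ⟨s, _, he⟩ := he
    exact h1 s e he
  · exact card_biUnion_le_card_mul _ _ _ (fun s _ => h2 s)
  · intro F hF z hz v
    exact h3 z F (fun e he => hF e (mem_biUnion.2 ⟨z, hz, he⟩)) v

lemma peel_spanner {V : Type u} [Fintype V] (G : SimpleGraph V) (D M t : ℕ)
    (hM : ∀ (U : Finset V) (x : V), x ∈ U → (∀ y ∈ U, D ≤ (nb G U y).card) →
      M ≤ t * (bb G U x).card) :
    ∃ (H : SimpleGraph V) (a : ℕ), H ≤ G ∧ a * M ≤ t * Fintype.card V ∧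
      Nat.card H.edgeSet ≤ (D + a) * Fintype.card V ∧
      ∀ u v, H.edist u v ≤ G.edist u v + 4 := by
  classical
  obtain ⟨F, S, hF, hFc, hSc, hcov⟩ := peel G D M t hM _ univ rfl
  obtain ⟨T, hT, hTc, hTd⟩ := trees G S
  rw [card_univ] at hFc hSc
  refine ⟨fromEdgeSet (↑(F ∪ T) : Set (Sym2 V)), S.card, ?_, hSc, ?_, ?_⟩
  · rw [← fromEdgeSet_edgeSet G]
    apply fromEdgeSet_mono
    intro e he
    rw [mem_coe, mem_union] at he
    rcases he with he | he
    · exact hF e he
    · exact hT e he
  · have h1 : (fromEdgeSet (↑(F ∪ T) : Set (Sym2 V))).edgeSet ⊆ ↑(F ∪ T) := by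
      rw [edgeSet_fromEdgeSet]
      exact Set.sdiff_subset
    have h2 : Nat.card (fromEdgeSet (↑(F ∪ T) : Set (Sym2 V))).edgeSet ≤ (F ∪ T).card := by
      have := Nat.card_mono (Finset.finite_toSet (F ∪ T)) h1
      simpa using this
    refine h2.trans ((card_union_le _ _).trans ?_)
    calc F.card + T.card ≤ D * Fintype.card V + S.card * Fintype.card V := add_le_add hFc hTc
      _ = (D + S.card) * Fintype.card V := by ring
  · intro u v
    by_cases hr : G.Reachable u v
    · obtain ⟨p, hp⟩ := hr.exists_walk_length_eq_edist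
      by_cases hall : ∀ e ∈ p.edges, e ∈ F
      · have := edist_le_of_edges (F := (↑(F ∪ T) : Set (Sym2 V))) p
          (fun e he => by rw [mem_coe]; exact mem_union_left _ (hall e he))
        exact this.trans (by rw [hp]; exact le_self_add)
      · push Not at hall
        obtain ⟨e, he, heF⟩ := hall
        induction e using Sym2.ind with
        | _ x y =>
          have hadj : G.Adj x y := p.adj_of_mem_edges he
          have hx := p.fst_mem_support_of_mem_edges he
          have hy := p.snd_mem_support_of_mem_edges he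
          rcases hcov x (mem_univ _) y (mem_univ _) hadj with h | ⟨z, hz, h⟩
          · exact absurd h heF
          · have hH : ∀ y, (fromEdgeSet (↑(F ∪ T) : Set (Sym2 V))).edist z y ≤ G.edist z y :=
              hTd _ (fun e he => by rw [mem_coe]; exact mem_union_right _ he) z hz
            rcases h with h | h
            · exact hub p hp hx h hH
            · exact hub p hp hy h hH
    · rw [edist_eq_top_of_not_reachable hr]
      simp

/-- Bounded codegree: a +4 spanner with at most 4 t^(1/3) n^(4/3) edges. -/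
theorem codegree_spanner (n t : ℕ) (G : SimpleGraph (Fin n)) (ht : 1 ≤ t)
    (hc : ∀ u v : Fin n, u ≠ v → Nat.card {w : Fin n // G.Adj u w ∧ G.Adj v w} ≤ t) :
    ∃ H : SimpleGraph (Fin n), H ≤ G ∧
      (Nat.card H.edgeSet : ℝ) ≤ 4 * (t : ℝ) ^ ((1 : ℝ) / 3) * (n : ℝ) ^ ((4 : ℝ) / 3) ∧
      ∀ u v : Fin n, H.edist u v ≤ G.edist u v + 4 := by
  classical
  rcases Nat.eq_zero_or_pos n with hn | hn
  · subst hn
    exact ⟨G, le_rfl, by simp, fun u => u.elim0⟩
  have hc' : ∀ S Z : Finset (Fin n), S.card = 2 → (∀ z ∈ Z, ∀ x ∈ S, G.Adj x z) → Z.card ≤ t := by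
    intro S Z hS hZ
    obtain ⟨x, y, hxy, rfl⟩ := card_eq_two.1 hS
    refine le_trans ?_ (hc x y hxy)
    rw [Nat.card_eq_fintype_card, Fintype.card_subtype]
    apply card_le_card
    intro z hz
    rw [mem_filter]
    exact ⟨mem_univ _, hZ z hz x (by simp), hZ z hz y (by simp)⟩
  set a : ℝ := ((t : ℝ) * n) ^ ((1 : ℝ) / 3) with ha
  have ht' : (1 : ℝ) ≤ t := by exact_mod_cast ht
  have hn' : (1 : ℝ) ≤ n := by exact_mod_cast hn
  have htn : (1 : ℝ) ≤ (t : ℝ) * n := one_le_mul_of_one_le_of_one_le ht' hn'
  have ha1 : 1 ≤ a := Real.one_le_rpow htn (by norm_num)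
  have ha3 : a ^ 3 = (t : ℝ) * n := by
    rw [ha, ← Real.rpow_natCast, ← Real.rpow_mul (by positivity)]
    norm_num
  set D : ℕ := ⌈a⌉₊ + 1 with hD
  have hD1 : a ≤ (D : ℝ) - 1 := by
    have := Nat.le_ceil a
    rw [hD]; push_cast; linarith
  have hD2 : (D : ℝ) ≤ a + 2 := by
    have := Nat.ceil_lt_add_one (show (0 : ℝ) ≤ a by linarith)
    rw [hD]; push_cast; linarith
  obtain ⟨H, b, hHG, hb, hcard, hd⟩ := peel_spanner G D (D * (D - 1)) t (by
    intro U x hx hU
    have := two_ball G 2 t D (by norm_num) hc' U hU x hx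
    simpa using this)
  refine ⟨H, hHG, ?_, hd⟩
  rw [Fintype.card_fin] at hb hcard
  have hDcast : ((D - 1 : ℕ) : ℝ) = (D : ℝ) - 1 := by
    rw [Nat.cast_sub (by omega)]; simp
  have hb' : (b : ℝ) * ((D : ℝ) * ((D : ℝ) - 1)) ≤ t * n := by
    rw [← hDcast]; exact_mod_cast hb
  have hba : (b : ℝ) ≤ a := by
    have h1 : (b : ℝ) * (a * a) ≤ a ^ 3 := by
      rw [ha3]
      refine le_trans ?_ hb'
      apply mul_le_mul_of_nonneg_left _ (by positivity)
      apply mul_le_mul _ hD1 (by linarith) (by linarith)
      linarith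
    have h2 : 0 < a * a := by positivity
    by_contra hcon
    push Not at hcon
    have : a * (a * a) < b * (a * a) := mul_lt_mul_of_pos_right hcon h2
    nlinarith
  have hfin : (Nat.card H.edgeSet : ℝ) ≤ (D + b) * n := by exact_mod_cast hcard
  have h43 : (t : ℝ) ^ ((1 : ℝ) / 3) * (n : ℝ) ^ ((4 : ℝ) / 3) = a * n := by
    rw [ha, Real.mul_rpow (by positivity) (by positivity), mul_assoc]
    congr 1
    rw [show ((4 : ℝ) / 3) = (1 : ℝ) / 3 + 1 by norm_num, Real.rpow_add (by linarith), Real.rpow_one]
  calc (Nat.card H.edgeSet : ℝ) ≤ (D + b) * n := hfin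
    _ ≤ (4 * a) * n := by
        apply mul_le_mul_of_nonneg_right _ (by linarith)
        linarith
    _ = 4 * (t : ℝ) ^ ((1 : ℝ) / 3) * (n : ℝ) ^ ((4 : ℝ) / 3) := by
        rw [mul_assoc 4 ((t : ℝ) ^ ((1 : ℝ) / 3)), h43]; ring

end Pool.Agent.Lib.MP_81f3cc_co
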