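import Mathlib
import Pool.Agent.Lib.MP_81f3cc_co.Base

namespace Pool.Agent.Lib.MP_81f3cc_co

open SimpleGraph Finset

universe u w

lemma embed {W : Type w} {V : Type u} [Fintype W] [DecidableEq V] (F : SimpleGraph W)
    (G : SimpleGraph V) (A : Set W)
    (hbip : ∀ x y, F.Adj x y → (x ∈ A ↔ y ∉ A)) (s t : ℕ) (hst : s ≤ t)
    (hW : Fintype.card W ≤ t) (hdeg : ∀ a ∈ A, (F.neighborSet a).ncard ≤ s)
    (T : Finset V) (hT : T.card = t)
    (hcom : ∀ R ∈ powersetCard s T, ∃ Y : Finset V, 2 * t ≤ Y.card ∧
      ∀ y ∈ Y, ∀ z ∈ R, G.Adj z y) : F ⊑ G := by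
  classical
  have hf : Nonempty (W ↪ T) := by
    apply Function.Embedding.nonempty_of_card_le
    rw [Fintype.card_coe, hT]; exact hW
  obtain ⟨f⟩ := hf
  -- extended neighbourhoods
  have hR : ∀ a : {a // a ∈ A}, ∃ R ∈ powersetCard s T, ∀ b, F.Adj a b → (f b : V) ∈ R := by
    intro a
    let S : Finset V := (univ.filter (fun b => F.Adj a b)).image (fun b => (f b : V))
    have h1 : S ⊆ T := by
      intro y hy
      simp only [S, mem_image, mem_filter, mem_univ, true_and] at hy
      obtain ⟨b, _, rfl⟩ := hy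
      exact (f b).2
    have h2 : S.card ≤ s := by
      refine card_image_le.trans ?_
      have := hdeg a a.2
      rw [Set.ncard_eq_toFinset_card'] at this
      refine le_trans (card_le_card ?_) this
      intro b hb
      simpa using hb
    obtain ⟨R, hSR, hRT, hRc⟩ := exists_subsuperset_card_eq h1 h2 (by omega)
    refine ⟨R, mem_powersetCard.2 ⟨hRT, hRc⟩, ?_⟩
    intro b hb
    apply hSR
    simp only [S, mem_image, mem_filter, mem_univ, true_and]
    exact ⟨b, hb, rfl⟩
  choose R hRm hRb using hR
  choose Y hYc hYa using fun a : {a // a ∈ A} => hcom (R a) (hRm a)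
  let C : {a // a ∈ A} → Finset V := fun a => Y a \ T
  have hC : ∀ a, t ≤ (C a).card := by
    intro a
    have h1 := le_card_sdiff T (Y a)
    have h2 := hYc a
    have h3 : (C a).card = (Y a \ T).card := rfl
    omega
  have hall : ∀ S : Finset {a // a ∈ A}, S.card ≤ (S.biUnion C).card := by
    intro S
    rcases S.eq_empty_or_nonempty with rfl | ⟨a, ha⟩
    · simp
    · have h1 : S.card ≤ Fintype.card W := by
        refine (card_le_univ S).trans ?_
        exact Fintype.card_subtype_le _
      refine h1.trans (hW.trans ((hC a).trans (card_le_card ?_)))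
      exact subset_biUnion_of_mem C ha
  obtain ⟨g, hginj, hgC⟩ := (Finset.all_card_le_biUnion_card_iff_exists_injective C).1 hall
  let φ : W → V := fun x => if h : x ∈ A then g ⟨x, h⟩ else f x
  have hφ1 : ∀ x (h : x ∈ A), φ x = g ⟨x, h⟩ := fun x h => by simp [φ, h]
  have hφ2 : ∀ x, x ∉ A → φ x = f x := fun x h => by simp [φ, h]
  have hgT : ∀ a, g a ∉ T := fun a h => (mem_sdiff.1 (hgC a)).2 h
  have hinj : Function.Injective φ := by
    intro x y hxy
    by_cases hx : x ∈ A <;> by_cases hy : y ∈ A
    · rw [hφ1 x hx, hφ1 y hy] at hxy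
      have := hginj hxy
      simpa using this
    · rw [hφ1 x hx, hφ2 y hy] at hxy
      exact absurd (hxy ▸ (f y).2) (hgT _)
    · rw [hφ2 x hx, hφ1 y hy] at hxy
      exact absurd (hxy ▸ (f x).2) (hgT _)
    · rw [hφ2 x hx, hφ2 y hy] at hxy
      exact f.injective (Subtype.ext hxy)
  have hadj : ∀ x y, x ∈ A → F.Adj x y → G.Adj (φ x) (φ y) := by
    intro x y hx hxy
    have hy : y ∉ A := (hbip x y hxy).1 hx
    rw [hφ1 x hx, hφ2 y hy]
    have h1 := (mem_sdiff.1 (hgC ⟨x, hx⟩)).1
    exact (hYa ⟨x, hx⟩ _ h1 _ (hRb ⟨x, hx⟩ y hxy)).symm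
  refine ⟨Hom.toCopy ⟨φ, ?_⟩ hinj⟩
  intro x y hxy
  by_cases hx : x ∈ A
  · exact hadj x y hx hxy
  · have hy : y ∈ A := by
      by_contra hy
      exact hx ((hbip x y hxy).2 hy)
    exact (hadj y x hy hxy.symm).symm

lemma card_superset {V : Type u} [DecidableEq V] (Q R : Finset V) (s t : ℕ) (hR : R ⊆ Q)
    (hRc : R.card = s) (hst : s ≤ t) :
    ((powersetCard t Q).filter (fun T => R ⊆ T)).card ≤ (Q.card - s).choose (t - s) := by
  have h1 : ((powersetCard t Q).filter (fun T => R ⊆ T)).card ≤
      (powersetCard (t - s) (Q \ R)).card := by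
    apply card_le_card_of_injOn (fun T => T \ R)
    · intro T hT
      rw [mem_coe, mem_filter, mem_powersetCard] at hT
      rw [mem_coe, mem_powersetCard]
      refine ⟨sdiff_subset_sdiff hT.1.1 (subset_refl _), ?_⟩
      rw [card_sdiff_of_subset hT.2, hT.1.2, hRc]
    · intro T hT T' hT' hTT
      rw [mem_coe, mem_filter] at hT hT'
      have h2 : T \ R = T' \ R := hTT
      rw [← sdiff_union_of_subset hT.2, ← sdiff_union_of_subset hT'.2, h2]
  rw [card_powersetCard, card_sdiff_of_subset hR, hRc] at h1
  exact h1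

lemma supersat {V : Type u} [DecidableEq V] (Q : Finset V) (s t : ℕ) (hst : s ≤ t)
    (L : Finset (Finset V)) (hL : ∀ T ∈ powersetCard t Q, ∃ R ∈ L, R ∈ powersetCard s T) :
    Q.card.choose s ≤ t.choose s * ((L.filter (fun R => R ∈ powersetCard s Q)).card + 1) := by
  rcases Nat.lt_or_ge Q.card t with hq | hq
  · calc Q.card.choose s ≤ t.choose s := Nat.choose_le_choose s hq.le
      _ = t.choose s * 1 := (mul_one _).symm
      _ ≤ _ := Nat.mul_le_mul_left _ (by omega)
  · set LQ := L.filter (fun R => R ∈ powersetCard s Q) with hLQ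
    have h1 : powersetCard t Q ⊆ LQ.biUnion (fun R => (powersetCard t Q).filter (fun T => R ⊆ T)) := by
      intro T hT
      obtain ⟨R, hRL, hRT⟩ := hL T hT
      rw [mem_powersetCard] at hRT
      have hTQ := (mem_powersetCard.1 hT).1
      rw [mem_biUnion]
      refine ⟨R, ?_, ?_⟩
      · rw [hLQ, mem_filter, mem_powersetCard]
        exact ⟨hRL, hRT.1.trans hTQ, hRT.2⟩
      · rw [mem_filter]
        exact ⟨hT, hRT.1⟩
    have h2 : Q.card.choose t ≤ LQ.card * (Q.card - s).choose (t - s) := by
      rw [← card_powersetCard]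
      refine (card_le_card h1).trans ?_
      apply card_biUnion_le_card_mul
      intro R hR
      rw [hLQ, mem_filter, mem_powersetCard] at hR
      exact card_superset Q R s t hR.2.1 hR.2.2 hst
    have h3 : Q.card.choose t * t.choose s = Q.card.choose s * (Q.card - s).choose (t - s) :=
      Nat.choose_mul hst
    have h4 : 0 < (Q.card - s).choose (t - s) := Nat.choose_pos (by omega)
    have h5 : Q.card.choose s * (Q.card - s).choose (t - s) ≤
        (t.choose s * LQ.card) * (Q.card - s).choose (t - s) := by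
      rw [← h3]
      calc Q.card.choose t * t.choose s ≤ (LQ.card * (Q.card - s).choose (t - s)) * t.choose s :=
            Nat.mul_le_mul_right _ h2
        _ = _ := by ring
    have h6 := Nat.le_of_mul_le_mul_right h5 h4
    exact h6.trans (Nat.mul_le_mul_left _ (by omega))

lemma two_ball_free {W : Type w} {V : Type u} [Fintype W] (F : SimpleGraph W)
    (G : SimpleGraph V) (hfree : F.Free G) (A : Set W)
    (hbip : ∀ x y, F.Adj x y → (x ∈ A ↔ y ∉ A)) (s t : ℕ) (hst : s ≤ t)
    (hW : Fintype.card W ≤ t) (hdeg : ∀ a ∈ A, (F.neighborSet a).ncard ≤ s) (D : ℕ)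
    (U : Finset V) (hU : ∀ x ∈ U, D ≤ (nb G U x).card) (x : V) (hx : x ∈ U) :
    ∃ q : V → ℕ, D * (D - 1) ≤ ∑ y ∈ bb G U x, q y ∧
      ∑ y ∈ bb G U x, (q y).choose s ≤ t.choose s * (2 * t * D.choose s + (bb G U x).card) := by
  classical
  obtain ⟨Z, hZ, hZc⟩ := exists_subset_card_eq (hU x hx)
  set B := bb G U x with hB
  refine ⟨fun y => (Z.filter (fun z => G.Adj z y)).card, ?_, ?_⟩
  · have h3 := sum_card_bipartiteAbove_eq_sum_card_bipartiteBelow (s := Z) (t := B)
      (fun z y => G.Adj z y)
    calc D * (D - 1) = ∑ _z ∈ Z, (D - 1) := by rw [sum_const, smul_eq_mul, hZc]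
      _ ≤ ∑ z ∈ Z, (B.bipartiteAbove (fun z y => G.Adj z y) z).card := by
          apply sum_le_sum
          intro z hz
          have hzx := mem_nb.1 (hZ hz)
          have h4 : (nb G U z).erase x ⊆ B.bipartiteAbove (fun z y => G.Adj z y) z := by
            intro y hy
            rw [mem_erase, mem_nb] at hy
            rw [mem_bipartiteAbove, hB, mem_bb]
            exact ⟨⟨hy.2.1, hy.1, z, hzx.1, hzx.2, hy.2.2⟩, hy.2.2⟩
          refine le_trans ?_ (card_le_card h4)
          have h5 := pred_card_le_card_erase (s := nb G U z) (a := x)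
          have h6 := hU z hzx.1
          omega
      _ = ∑ y ∈ B, (Z.bipartiteBelow (fun z y => G.Adj z y) y).card := h3
      _ = ∑ y ∈ B, (Z.filter (fun z => G.Adj z y)).card := rfl
  · set L : Finset (Finset V) := (powersetCard s Z).filter
      (fun R => (B.filter (fun y => ∀ z ∈ R, G.Adj z y)).card < 2 * t) with hL
    have key : ∀ y ∈ B, ((Z.filter (fun z => G.Adj z y)).card).choose s ≤
        t.choose s * ((L.filter (fun R => R ∈ powersetCard s (Z.filter (fun z => G.Adj z y)))).card + 1) := by
      intro y hy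
      apply supersat _ s t hst
      intro T hT
      rw [mem_powersetCard] at hT
      by_contra hcon
      push Not at hcon
      apply hfree
      apply embed F G A hbip s t hst hW hdeg T hT.2
      intro R hR
      refine ⟨B.filter (fun y => ∀ z ∈ R, G.Adj z y), ?_, ?_⟩
      · by_contra hlt
        push Not at hlt
        apply hcon R _ hR
        rw [hL, mem_filter, mem_powersetCard]
        rw [mem_powersetCard] at hR
        exact ⟨⟨hR.1.trans (hT.1.trans (filter_subset _ _)), hR.2⟩, hlt⟩
      · intro y hy z hz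
        exact (mem_filter.1 hy).2 z hz
    have hsum : ∑ y ∈ B, (L.filter (fun R => R ∈ powersetCard s (Z.filter (fun z => G.Adj z y)))).card
        ≤ 2 * t * D.choose s := by
      have h3 := sum_card_bipartiteAbove_eq_sum_card_bipartiteBelow (s := B) (t := L)
        (fun y R => R ∈ powersetCard s (Z.filter (fun z => G.Adj z y)))
      have h4 : ∑ y ∈ B, (L.filter (fun R => R ∈ powersetCard s (Z.filter (fun z => G.Adj z y)))).card
          = ∑ R ∈ L, (B.filter (fun y => R ∈ powersetCard s (Z.filter (fun z => G.Adj z y)))).card := h3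
      rw [h4]
      calc ∑ R ∈ L, (B.filter (fun y => R ∈ powersetCard s (Z.filter (fun z => G.Adj z y)))).card
          ≤ ∑ _R ∈ L, 2 * t := by
            apply sum_le_sum
            intro R hR
            rw [hL, mem_filter] at hR
            refine le_trans (card_le_card ?_) hR.2.le
            intro y hy
            rw [mem_filter, mem_powersetCard] at hy
            rw [mem_filter]
            exact ⟨hy.1, fun z hz => (mem_filter.1 (hy.2.1 hz)).2⟩
        _ = L.card * (2 * t) := by rw [sum_const, smul_eq_mul]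
        _ ≤ (powersetCard s Z).card * (2 * t) := Nat.mul_le_mul_right _ (card_filter_le _ _)
        _ = 2 * t * D.choose s := by rw [card_powersetCard, hZc, mul_comm]
    calc ∑ y ∈ B, ((Z.filter (fun z => G.Adj z y)).card).choose s
        ≤ ∑ y ∈ B, t.choose s *
          ((L.filter (fun R => R ∈ powersetCard s (Z.filter (fun z => G.Adj z y)))).card + 1) :=
          sum_le_sum key
      _ = t.choose s * (∑ y ∈ B,
          (L.filter (fun R => R ∈ powersetCard s (Z.filter (fun z => G.Adj z y)))).card + B.card) := by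
          rw [← mul_sum, sum_add_distrib, sum_const, smul_eq_mul, mul_one]
      _ ≤ t.choose s * (2 * t * D.choose s + B.card) := by
          apply Nat.mul_le_mul_left
          omega

end Pool.Agent.Lib.MP_81f3cc_co
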