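import Mathlib
import Pool.Agent.Lib.MP_81f3cc_co.Free

namespace Pool.Agent.Lib.MP_81f3cc_co

open SimpleGraph Finset

universe u w

/-- the constant of the two-ball estimate -/
def cst (s t : ℕ) : ℕ := (4 * (s - 1)) ^ (s - 1) + 4 ^ s * t.choose s * (2 * t + s.factorial)

lemma growth {V : Type u} (s t D : ℕ) (hs : 2 ≤ s) (hD : 2 ≤ D) (B : Finset V) (hB : 1 ≤ B.card)
    (q : V → ℕ) (h1 : D * (D - 1) ≤ ∑ y ∈ B, q y)
    (h2 : ∑ y ∈ B, (q y).choose s ≤ t.choose s * (2 * t * D.choose s + B.card)) :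
    D ^ s ≤ cst s t * B.card ^ (s - 1) := by
  obtain ⟨r, rfl⟩ : ∃ r, s = r + 2 := ⟨s - 2, by omega⟩
  set b := B.card with hb
  have e1 : r + 2 - 1 = r + 1 := rfl
  have hDD : D * D ≤ 2 * (D * (D - 1)) := by
    obtain ⟨d, rfl⟩ : ∃ d, D = d + 2 := ⟨D - 2, by omega⟩
    have : d + 2 - 1 = d + 1 := rfl
    rw [this]; nlinarith
  by_cases hcase : D * (D - 1) ≤ 2 * (r + 1) * b
  · -- few wedges
    have h3 : D * D ≤ 4 * (r + 1) * b := by nlinarith
    have h4 : D ^ (r + 2) ≤ (D * D) ^ (r + 1) := by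
      rw [← pow_two, ← pow_mul]
      exact Nat.pow_le_pow_right (by omega) (by omega)
    calc D ^ (r + 2) ≤ (D * D) ^ (r + 1) := h4
      _ ≤ (4 * (r + 1) * b) ^ (r + 1) := Nat.pow_le_pow_left h3 _
      _ = (4 * (r + 1)) ^ (r + 1) * b ^ (r + 1) := by rw [mul_pow]
      _ ≤ cst (r + 2) t * b ^ (r + 2 - 1) := by
          rw [e1]
          apply Nat.mul_le_mul_right
          unfold cst
          rw [e1]
          exact Nat.le_add_right _ _
  · push Not at hcase
    -- b ≤ D^2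
    have hb2 : b ≤ D * D := by
      have : D * (D - 1) ≤ D * D := Nat.mul_le_mul_left _ (by omega)
      nlinarith
    have hsumge : D * D ≤ 4 * ∑ y ∈ B, (q y + 1 - (r + 2)) := by
      have h5 : ∑ y ∈ B, q y ≤ ∑ y ∈ B, (q y + 1 - (r + 2)) + (r + 1) * b := by
        rw [hb, mul_comm (r + 1), ← smul_eq_mul, ← sum_const, ← sum_add_distrib]
        apply sum_le_sum
        intro y _
        omega
      nlinarith
    have hjensen : (∑ y ∈ B, (q y + 1 - (r + 2))) ^ (r + 1 + 1) ≤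
        b ^ (r + 1) * ∑ y ∈ B, (q y + 1 - (r + 2)) ^ (r + 1 + 1) := by
      have := pow_sum_le_card_mul_sum_pow (s := B) (f := fun y => (q y + 1 - (r + 2)))
        (fun i _ => Nat.zero_le _) (r + 1)
      simpa using this
    have hchoose : ∑ y ∈ B, (q y + 1 - (r + 2)) ^ (r + 1 + 1) ≤
        (r + 2).factorial * ∑ y ∈ B, (q y).choose (r + 2) := by
      rw [mul_sum]
      apply sum_le_sum
      intro y _
      rw [← Nat.descFactorial_eq_factorial_mul_choose]
      exact Nat.pow_sub_le_descFactorial (q y) (r + 2)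
    have hDc : (r + 2).factorial * D.choose (r + 2) ≤ D ^ (r + 2) := by
      rw [← Nat.descFactorial_eq_factorial_mul_choose]
      exact Nat.descFactorial_le_pow D (r + 2)
    have hbD : (r + 2).factorial * b ≤ (r + 2).factorial * D ^ (r + 2) := by
      apply Nat.mul_le_mul_left
      refine hb2.trans ?_
      rw [← pow_two]
      exact Nat.pow_le_pow_right (by omega) (by omega)
    have hfin : (r + 2).factorial * (t.choose (r + 2) * (2 * t * D.choose (r + 2) + b)) ≤
        t.choose (r + 2) * (2 * t + (r + 2).factorial) * D ^ (r + 2) := by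
      calc (r + 2).factorial * (t.choose (r + 2) * (2 * t * D.choose (r + 2) + b))
          = t.choose (r + 2) * (2 * t * ((r + 2).factorial * D.choose (r + 2)) +
            (r + 2).factorial * b) := by ring
        _ ≤ t.choose (r + 2) * (2 * t * D ^ (r + 2) + (r + 2).factorial * D ^ (r + 2)) := by
            apply Nat.mul_le_mul_left
            exact add_le_add (Nat.mul_le_mul_left _ hDc) hbD
        _ = _ := by ring
    have hchain : (D * D) ^ (r + 2) ≤ 4 ^ (r + 2) * (b ^ (r + 1) *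
        (t.choose (r + 2) * (2 * t + (r + 2).factorial) * D ^ (r + 2))) := by
      calc (D * D) ^ (r + 2) ≤ (4 * ∑ y ∈ B, (q y + 1 - (r + 2))) ^ (r + 2) :=
            Nat.pow_le_pow_left hsumge _
        _ = 4 ^ (r + 2) * (∑ y ∈ B, (q y + 1 - (r + 2))) ^ (r + 1 + 1) := by rw [mul_pow]
        _ ≤ 4 ^ (r + 2) * (b ^ (r + 1) * ∑ y ∈ B, (q y + 1 - (r + 2)) ^ (r + 1 + 1)) :=
            Nat.mul_le_mul_left _ hjensen
        _ ≤ 4 ^ (r + 2) * (b ^ (r + 1) * ((r + 2).factorial *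
            (t.choose (r + 2) * (2 * t * D.choose (r + 2) + b)))) := by
            apply Nat.mul_le_mul_left
            apply Nat.mul_le_mul_left
            exact hchoose.trans (Nat.mul_le_mul_left _ h2)
        _ ≤ _ := by
            apply Nat.mul_le_mul_left
            exact Nat.mul_le_mul_left _ hfin
    have hchain2 : D ^ (r + 2) * D ^ (r + 2) ≤ (4 ^ (r + 2) * t.choose (r + 2) *
        (2 * t + (r + 2).factorial) * b ^ (r + 1)) * D ^ (r + 2) := by
      calc D ^ (r + 2) * D ^ (r + 2) = (D * D) ^ (r + 2) := by rw [mul_pow]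
        _ ≤ _ := hchain
        _ = _ := by ring
    have hpos : 0 < D ^ (r + 2) := Nat.pow_pos (by omega)
    have h7 := Nat.le_of_mul_le_mul_right hchain2 hpos
    refine h7.trans ?_
    rw [e1]
    apply Nat.mul_le_mul_right
    unfold cst
    exact Nat.le_add_left _ _

lemma bb_card_pos {V : Type u} (G : SimpleGraph V) (U : Finset V) (D : ℕ) (hD : 2 ≤ D)
    (hU : ∀ x ∈ U, D ≤ (nb G U x).card) (x : V) (hx : x ∈ U) : 1 ≤ (bb G U x).card := by
  classical
  have h1 := hU x hx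
  obtain ⟨z, hz⟩ : (nb G U x).Nonempty := by
    rw [← card_pos]; omega
  have h2 := hU z (mem_nb.1 hz).1
  have h3 := pred_card_le_card_erase (s := nb G U z) (a := x)
  obtain ⟨y, hy⟩ : ((nb G U z).erase x).Nonempty := by
    rw [← card_pos]; omega
  rw [mem_erase, mem_nb] at hy
  apply card_pos.2
  exact ⟨y, mem_bb.2 ⟨hy.2.1, hy.1, z, (mem_nb.1 hz).1, (mem_nb.1 hz).2, hy.2.2⟩⟩

lemma ball_free {W : Type w} {V : Type u} [Fintype W] (F : SimpleGraph W)
    (G : SimpleGraph V) (hfree : F.Free G) (A : Set W)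
    (hbip : ∀ x y, F.Adj x y → (x ∈ A ↔ y ∉ A)) (s t : ℕ) (hs : 2 ≤ s) (hst : s ≤ t)
    (hW : Fintype.card W ≤ t) (hdeg : ∀ a ∈ A, (F.neighborSet a).ncard ≤ s) (D : ℕ) (hD : 2 ≤ D)
    (U : Finset V) (x : V) (hx : x ∈ U) (hU : ∀ x ∈ U, D ≤ (nb G U x).card) :
    D ^ s ≤ cst s t * (bb G U x).card ^ (s - 1) := by
  obtain ⟨q, h1, h2⟩ := two_ball_free F G hfree A hbip s t hst hW hdeg D U hU x hx
  exact growth s t D hs hD _ (bb_card_pos G U D hD hU x hx) q h1 h2

/-- Graphs without a fixed bipartite subgraph with degrees at most two on one side. -/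
theorem free_spanner {W : Type w} [Fintype W] (F : SimpleGraph W) (A : Set W)
    (hbip : ∀ x y, F.Adj x y → (x ∈ A ↔ y ∉ A))
    (hdeg : ∀ a ∈ A, (F.neighborSet a).ncard ≤ 2) :
    ∃ C : ℝ, ∀ (n : ℕ) (G : SimpleGraph (Fin n)), F.Free G →
      ∃ H : SimpleGraph (Fin n), H ≤ G ∧
        (Nat.card H.edgeSet : ℝ) ≤ C * (n : ℝ) ^ ((4 : ℝ) / 3) ∧
        ∀ u v : Fin n, H.edist u v ≤ G.edist u v + 4 := by
  classical
  set t := Fintype.card W + 2 with ht
  set c : ℕ := cst 2 t with hc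
  refine ⟨c + 3, ?_⟩
  intro n G hfree
  rcases Nat.eq_zero_or_pos n with hn | hn
  · subst hn
    exact ⟨G, le_rfl, by simp, fun u => u.elim0⟩
  have hn' : (1 : ℝ) ≤ n := by exact_mod_cast hn
  set a : ℝ := (n : ℝ) ^ ((1 : ℝ) / 3) with ha
  have ha1 : 1 ≤ a := Real.one_le_rpow hn' (by norm_num)
  have ha3 : a ^ 3 = (n : ℝ) := by
    rw [ha, ← Real.rpow_natCast, ← Real.rpow_mul (by positivity)]
    norm_num
  set D : ℕ := ⌈a⌉₊ + 1 with hD
  have hD1 : a ≤ (D : ℝ) := by
    have := Nat.le_ceil a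
    rw [hD]; push_cast; linarith
  have hD2 : (D : ℝ) ≤ a + 2 := by
    have := Nat.ceil_lt_add_one (show (0 : ℝ) ≤ a by linarith)
    rw [hD]; push_cast; linarith
  have hD3 : 2 ≤ D := by
    have : 1 ≤ ⌈a⌉₊ := Nat.one_le_ceil_iff.2 (by linarith)
    omega
  obtain ⟨H, b, hHG, hb, hcard, hd⟩ := peel_spanner G D (D ^ 2) c (by
    intro U x hx hU
    have := ball_free F G hfree A hbip 2 t le_rfl (by omega) (by omega) hdeg D hD3 U x hx hU
    simpa using this)
  refine ⟨H, hHG, ?_, hd⟩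
  rw [Fintype.card_fin] at hb hcard
  have hb' : (b : ℝ) * (D : ℝ) ^ 2 ≤ c * n := by exact_mod_cast hb
  have hba : (b : ℝ) ≤ c * a := by
    have h1 : (b : ℝ) * (a * a) ≤ c * a ^ 3 := by
      rw [ha3]
      refine le_trans ?_ hb'
      apply mul_le_mul_of_nonneg_left _ (by positivity)
      nlinarith
    have h2 : 0 < a * a := by positivity
    by_contra hcon
    push Not at hcon
    have : (c * a) * (a * a) < b * (a * a) := mul_lt_mul_of_pos_right hcon h2
    nlinarith
  have hfin : (Nat.card H.edgeSet : ℝ) ≤ (D + b) * n := by exact_mod_cast hcard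
  have h43 : (n : ℝ) ^ ((4 : ℝ) / 3) = a * n := by
    rw [ha, show ((4 : ℝ) / 3) = (1 : ℝ) / 3 + 1 by norm_num, Real.rpow_add (by linarith),
      Real.rpow_one]
  rw [h43]
  calc (Nat.card H.edgeSet : ℝ) ≤ (D + b) * n := hfin
    _ ≤ ((c + 3) * a) * n := by
        apply mul_le_mul_of_nonneg_right _ (by linarith)
        linarith
    _ = (c + 3) * (a * n) := by ring

end Pool.Agent.Lib.MP_81f3cc_co
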