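import Mathlib
import Pool.Agent.Lib.MP_81f3cc_co.Growth

namespace Pool.Agent.Lib.MP_81f3cc_co

open SimpleGraph Finset

universe u w

/-- the D-core and the few edges outside it -/
lemma core {V : Type u} [DecidableEq V] (G : SimpleGraph V) (D : ℕ) :
    ∀ (k : ℕ) (U : Finset V), U.card = k → ∃ (U₀ : Finset V) (F : Finset (Sym2 V)), U₀ ⊆ U ∧
      (∀ x ∈ U₀, D ≤ (nb G U₀ x).card) ∧ (∀ e ∈ F, e ∈ G.edgeSet) ∧ F.card ≤ D * U.card ∧
      ∀ x ∈ U, ∀ y ∈ U, G.Adj x y → s(x, y) ∈ F ∨ (x ∈ U₀ ∧ y ∈ U₀) := by
  intro k
  induction k using Nat.strong_induction_on with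
  | _ k ih =>
    intro U hUk
    by_cases hlow : ∃ x ∈ U, (nb G U x).card < D
    · obtain ⟨x, hx, hxD⟩ := hlow
      have hcard : (U.erase x).card + 1 = U.card := card_erase_add_one hx
      obtain ⟨U₀, F, hsub, hdeg, hF, hFc, hcov⟩ := ih (U.erase x).card (by omega) (U.erase x) rfl
      refine ⟨U₀, F ∪ (nb G U x).image (fun z => s(x, z)), hsub.trans (erase_subset _ _), hdeg,
        ?_, ?_, ?_⟩
      · intro e he
        rw [mem_union, mem_image] at he
        rcases he with he | ⟨z, hz, rfl⟩
        · exact hF e he
        · exact (mem_nb.1 hz).2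
      · refine (card_union_le _ _).trans ?_
        have h1 : ((nb G U x).image (fun z => s(x, z))).card ≤ (nb G U x).card := card_image_le
        have h2 : D * U.card = D * (U.erase x).card + D := by rw [← hcard]; ring
        omega
      · intro a ha b hb hab
        by_cases hax : a = x
        · left
          rw [mem_union, mem_image]
          right
          exact ⟨b, mem_nb.2 ⟨hb, hax ▸ hab⟩, by rw [hax]⟩
        by_cases hbx : b = x
        · left
          rw [mem_union, mem_image]
          right
          exact ⟨a, mem_nb.2 ⟨ha, hbx ▸ hab.symm⟩, by rw [hbx]; exact Sym2.eq_swap⟩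
        rcases hcov a (mem_erase.2 ⟨hax, ha⟩) b (mem_erase.2 ⟨hbx, hb⟩) hab with h | h
        · left; exact mem_union_left _ h
        · right; exact h
    · push Not at hlow
      exact ⟨U, ∅, subset_refl _, hlow, by simp, by simp, fun x hx y hy _ => Or.inr ⟨hx, hy⟩⟩

/-- clustering of a set U -/
lemma clusters {V : Type u} [DecidableEq V] (G : SimpleGraph V) (D : ℕ) (U : Finset V) :
    ∀ (k : ℕ) (Q : Finset V) (ctr : V → V), Q ⊆ U → U.card - Q.card = k →
      (∀ x ∈ Q, G.Adj (ctr x) x) → D * (Q.image ctr).card ≤ Q.card →
    ∃ (Q : Finset V) (ctr : V → V), Q ⊆ U ∧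
      (∀ x ∈ Q, G.Adj (ctr x) x) ∧ D * (Q.image ctr).card ≤ Q.card ∧
      ∀ x ∈ U, (nb G (U \ Q) x).card ≤ D := by
  intro k
  induction k using Nat.strong_induction_on with
  | _ k ih =>
    intro Q ctr hQU hk hctr hD
    by_cases hdone : ∀ x ∈ U, (nb G (U \ Q) x).card ≤ D
    · exact ⟨Q, ctr, hQU, hctr, hD, hdone⟩
    · push Not at hdone
      obtain ⟨x, hx, hxD⟩ := hdone
      set N := nb G (U \ Q) x with hN
      have hNU : N ⊆ U \ Q := fun y hy => (mem_nb.1 hy).1
      have hdisj : Disjoint Q N := by
        rw [Finset.disjoint_left]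
        intro y hy hy'
        exact (mem_sdiff.1 (hNU hy')).2 hy
      have hNU' : N ⊆ U := fun y hy => (mem_sdiff.1 (hNU hy)).1
      have hcard : (Q ∪ N).card = Q.card + N.card := card_union_of_disjoint hdisj
      have hQN : Q ∪ N ⊆ U := union_subset hQU hNU'
      have hle := card_le_card hQN
      let ctr' : V → V := fun y => if y ∈ N then x else ctr y
      have hctr1 : ∀ y ∈ N, ctr' y = x := fun y hy => by simp [ctr', hy]
      have hctr2 : ∀ y, y ∉ N → ctr' y = ctr y := fun y hy => by simp [ctr', hy]
      refine ih (U.card - (Q ∪ N).card) (by omega) (Q ∪ N) ctr' hQN rfl ?_ ?_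
      · intro y hy
        by_cases hyN : y ∈ N
        · rw [hctr1 y hyN]
          exact (mem_nb.1 hyN).2
        · rw [hctr2 y hyN]
          rcases mem_union.1 hy with h | h
          · exact hctr y h
          · exact absurd h hyN
      · have himg : (Q ∪ N).image ctr' ⊆ insert x (Q.image ctr) := by
          intro c hc
          rw [mem_image] at hc
          obtain ⟨y, hy, rfl⟩ := hc
          by_cases hyN : y ∈ N
          · rw [hctr1 y hyN]; exact mem_insert_self _ _
          · rw [hctr2 y hyN]
            rcases mem_union.1 hy with h | h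
            · exact mem_insert_of_mem (mem_image_of_mem _ h)
            · exact absurd h hyN
        have h1 := (card_le_card himg).trans (card_insert_le _ _)
        calc D * ((Q ∪ N).image ctr').card ≤ D * ((Q.image ctr).card + 1) := Nat.mul_le_mul_left _ h1
          _ = D * (Q.image ctr).card + D := by ring
          _ ≤ (Q ∪ N).card := by omega

/-- walks: number of edges inside Q is at most the number of visits of Q -/
lemma countP_edges_le {V : Type u} {G : SimpleGraph V} (Q : V → Prop) [DecidablePred Q]
    (P : Sym2 V → Prop) [DecidablePred P] (hP : ∀ x y, P s(x, y) → Q x)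
    {x y : V} (p : G.Walk x y) :
    p.edges.countP (fun e => P e) ≤ p.support.countP (fun v => Q v) := by
  induction p with
  | nil => simp
  | cons h p ih =>
    rename_i a b c
    rw [Walk.edges_cons, Walk.support_cons, List.countP_cons, List.countP_cons]
    by_cases hq : P s(a, b)
    · have := hP a b hq
      simp only [hq, this, decide_true, if_true]
      omega
    · simp only [hq, decide_false]
      split_ifs <;> first | omega | (simp at *)

lemma sub_shortest {V : Type u} {G : SimpleGraph V} {u v a d : V} (q : G.Walk u a)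
    (m : G.Walk a d) (r : G.Walk d v) (h : (q.append (m.append r)).length = G.dist u v) :
    m.length = G.dist a d := by
  apply le_antisymm _ (dist_le m)
  obtain ⟨m', hm'⟩ := m.reachable.exists_walk_length_eq_dist
  have h1 := dist_le (q.append (m'.append r))
  rw [← h] at h1
  simp only [Walk.length_append] at h1
  omega

lemma sub_countP {V : Type u} {G : SimpleGraph V} (Q : V → Prop) [DecidablePred Q] {u v a d : V}
    (q : G.Walk u a) (m : G.Walk a d) (r : G.Walk d v) :
    m.support.countP (fun v => Q v) ≤ (q.append (m.append r)).support.countP (fun v => Q v) := by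
  rw [Walk.support_append_eq_support_dropLast_append, Walk.support_append, List.countP_append,
    List.countP_append]
  omega

/-- first visit of Q -/
lemma first_visit {V : Type u} {G : SimpleGraph V} (Q : V → Prop) (F : Sym2 V → Prop)
    (hF : ∀ x y, G.Adj x y → F s(x, y) ∨ (Q x ∧ Q y)) {u v : V} (p : G.Walk u v) :
    (∀ e ∈ p.edges, F e) ∨ ∃ (a : V) (q : G.Walk u a) (r : G.Walk a v), Q a ∧ p = q.append r ∧
      ∀ e ∈ q.edges, F e := by
  induction p with
  | nil => left; simp
  | cons h p ih =>
    rename_i a b c
    by_cases ha : Q a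
    · right
      exact ⟨a, Walk.nil, Walk.cons h p, ha, rfl, by simp⟩
    · have hab : F s(a, b) := by
        rcases hF a b h with h' | h'
        · exact h'
        · exact absurd h'.1 ha
      rcases ih with h' | ⟨a', q, r, hQ, rfl, hq⟩
      · left
        intro e he
        rw [Walk.edges_cons, List.mem_cons] at he
        rcases he with rfl | he
        · exact hab
        · exact h' e he
      · right
        refine ⟨a', Walk.cons h q, r, hQ, rfl, ?_⟩
        intro e he
        rw [Walk.edges_cons, List.mem_cons] at he
        rcases he with rfl | he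
        · exact hab
        · exact hq e he

/-- first and last visit of Q -/
lemma first_last {V : Type u} {G : SimpleGraph V} (Q : V → Prop) (F : Sym2 V → Prop)
    (hF : ∀ x y, G.Adj x y → F s(x, y) ∨ (Q x ∧ Q y)) {u v : V} (p : G.Walk u v) :
    (∀ e ∈ p.edges, F e) ∨ ∃ (a d : V) (q : G.Walk u a) (m : G.Walk a d) (r : G.Walk d v),
      Q a ∧ Q d ∧ p = q.append (m.append r) ∧ (∀ e ∈ q.edges, F e) ∧ ∀ e ∈ r.edges, F e := by
  rcases first_visit Q F hF p with h | ⟨a, q, r, hQa, rfl, hq⟩
  · left; exact h
  · right
    rcases first_visit Q F hF r.reverse with h | ⟨d, r', m', hQd, hr, hr'⟩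
    · refine ⟨a, a, q, Walk.nil, r, hQa, hQa, by simp, hq, ?_⟩
      intro e he
      apply h
      rw [Walk.edges_reverse, List.mem_reverse]
      exact he
    · refine ⟨a, d, q, m'.reverse, r'.reverse, hQa, hQd, ?_, hq, ?_⟩
      · congr 1
        have := congrArg Walk.reverse hr
        rw [Walk.reverse_reverse, Walk.reverse_append] at this
        exact this
      · intro e he
        rw [Walk.edges_reverse, List.mem_reverse] at he
        exact hr' e he

end Pool.Agent.Lib.MP_81f3cc_co
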