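import Mathlib
import Pool.Agent.Lib.MP_81f3cc_co.Cluster

namespace Pool.Agent.Lib.MP_81f3cc_co

open SimpleGraph Finset

universe u w

/-- Hitting sets. -/
lemma hitting {V : Type u} [Fintype V] [DecidableEq V] {ι : Type w} (I : Finset ι)
    (A : ι → Finset V) (h : ℝ) (hh : 0 < h) (hA : ∀ i ∈ I, h ≤ (A i).card)
    (hn : 0 < Fintype.card V) (hhn : h ≤ Fintype.card V) (hI : I.Nonempty) :
    ∃ S : Finset V, (∀ i ∈ I, ∃ z ∈ S, z ∈ A i) ∧
      (S.card : ℝ) ≤ (Fintype.card V : ℝ) / h * Real.log I.card + 1 := by
  classical
  set n : ℝ := (Fintype.card V : ℝ) with hndef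
  have hn0 : (0 : ℝ) < n := by rw [hndef]; exact_mod_cast hn
  have key : ∀ k : ℕ, ∃ S : Finset V, S.card ≤ k ∧
      ((I.filter (fun i => ∀ z ∈ S, z ∉ A i)).card : ℝ) ≤ I.card * (1 - h / n) ^ k := by
    intro k
    induction k with
    | zero =>
      refine ⟨∅, by simp, ?_⟩
      simp
    | succ k ih =>
      obtain ⟨S, hS, hc⟩ := ih
      set J := I.filter (fun i => ∀ z ∈ S, z ∉ A i) with hJ
      -- choose the best element
      have hdc : ∑ z : V, ((J.filter (fun i => z ∈ A i)).card : ℝ) = ∑ i ∈ J, ((A i).card : ℝ) := by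
        have h3 := sum_card_bipartiteAbove_eq_sum_card_bipartiteBelow (s := (univ : Finset V))
          (t := J) (fun z i => z ∈ A i)
        have h4 : ∑ i ∈ J, ((univ : Finset V).bipartiteBelow (fun z i => z ∈ A i) i).card =
            ∑ i ∈ J, (A i).card := by
          apply sum_congr rfl
          intro i _
          congr 1
          ext z
          simp [bipartiteBelow]
        rw [h4] at h3
        exact_mod_cast h3
      have hge : h * J.card ≤ ∑ z : V, ((J.filter (fun i => z ∈ A i)).card : ℝ) := by
        rw [hdc]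
        calc h * J.card = ∑ _i ∈ J, h := by rw [sum_const, nsmul_eq_mul, mul_comm]
          _ ≤ ∑ i ∈ J, ((A i).card : ℝ) := by
              apply sum_le_sum
              intro i hi
              exact hA i (mem_filter.1 hi).1
      have hex : ∃ z : V, h / n * J.card ≤ ((J.filter (fun i => z ∈ A i)).card : ℝ) := by
        by_contra hcon
        push Not at hcon
        have hlt : ∑ z : V, ((J.filter (fun i => z ∈ A i)).card : ℝ) < ∑ _z : V, h / n * J.card := by
          apply sum_lt_sum_of_nonempty
          · rw [← card_pos, card_univ]; exact hn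
          · intro z _; exact hcon z
        rw [sum_const, card_univ, nsmul_eq_mul, ← hndef] at hlt
        have : n * (h / n * J.card) = h * J.card := by field_simp
        linarith
      obtain ⟨z, hz⟩ := hex
      refine ⟨insert z S, (card_insert_le _ _).trans (by omega), ?_⟩
      have hsplit : (I.filter (fun i => ∀ y ∈ insert z S, y ∉ A i)) =
          J.filter (fun i => ¬ z ∈ A i) := by
        ext i
        simp only [mem_filter, mem_insert, hJ, forall_eq_or_imp]
        tauto
      rw [hsplit]
      have hpart := card_filter_add_card_filter_not (s := J) (fun i => z ∈ A i)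
      have hpart' : ((J.filter (fun i => z ∈ A i)).card : ℝ) +
          ((J.filter (fun i => ¬ z ∈ A i)).card : ℝ) = J.card := by exact_mod_cast hpart
      have h1n : 0 ≤ 1 - h / n := by
        rw [sub_nonneg, div_le_one hn0]; exact hhn
      calc ((J.filter (fun i => ¬ z ∈ A i)).card : ℝ) ≤ (1 - h / n) * J.card := by linarith
        _ ≤ (1 - h / n) * (I.card * (1 - h / n) ^ k) := mul_le_mul_of_nonneg_left hc h1n
        _ = I.card * (1 - h / n) ^ (k + 1) := by ring
  have hI0 : (1 : ℝ) ≤ I.card := by exact_mod_cast (card_pos.2 hI)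
  set k : ℕ := ⌊n / h * Real.log I.card⌋₊ + 1 with hk
  obtain ⟨S, hS, hc⟩ := key k
  have hlog : 0 ≤ Real.log I.card := Real.log_nonneg hI0
  have hk1 : n / h * Real.log I.card < k := by
    rw [hk]; push_cast
    exact Nat.lt_floor_add_one _
  have hk2 : (k : ℝ) ≤ n / h * Real.log I.card + 1 := by
    rw [hk]; push_cast
    have := Nat.floor_le (show 0 ≤ n / h * Real.log I.card by positivity)
    linarith
  refine ⟨S, ?_, ?_⟩
  · have hlt : ((I.filter (fun i => ∀ z ∈ S, z ∉ A i)).card : ℝ) < 1 := by
      have h1n : 0 ≤ 1 - h / n := by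
        rw [sub_nonneg, div_le_one hn0]; exact hhn
      have hexp : (1 - h / n) ^ k ≤ Real.exp (-(h / n) * k) := by
        have h1 : 1 - h / n ≤ Real.exp (-(h / n)) := by
          have := Real.add_one_le_exp (-(h / n))
          linarith
        calc (1 - h / n) ^ k ≤ (Real.exp (-(h / n))) ^ k := pow_le_pow_left₀ h1n h1 _
          _ = Real.exp (-(h / n) * k) := by rw [← Real.exp_nat_mul]; ring_nf
      have hlt2 : Real.log I.card < h / n * k := by
        have h5 : Real.log I.card = h / n * (n / h * Real.log I.card) := by field_simp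
        rw [h5]
        exact mul_lt_mul_of_pos_left hk1 (by positivity)
      calc ((I.filter (fun i => ∀ z ∈ S, z ∉ A i)).card : ℝ) ≤ I.card * (1 - h / n) ^ k := hc
        _ ≤ I.card * Real.exp (-(h / n) * k) := mul_le_mul_of_nonneg_left hexp (by linarith)
        _ = Real.exp (Real.log I.card - h / n * k) := by
            rw [Real.exp_sub, Real.exp_log (by linarith), neg_mul, Real.exp_neg]; rfl
        _ < 1 := by
            rw [Real.exp_lt_one_iff]; linarith
    have hzero : (I.filter (fun i => ∀ z ∈ S, z ∉ A i)).card = 0 := by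
      have : ((I.filter (fun i => ∀ z ∈ S, z ∉ A i)).card) < 1 := by exact_mod_cast hlt
      omega
    rw [card_eq_zero] at hzero
    intro i hi
    by_contra hcon
    push Not at hcon
    have : i ∈ I.filter (fun i => ∀ z ∈ S, z ∉ A i) := mem_filter.2 ⟨hi, hcon⟩
    rw [hzero] at this
    simp at this
  · have : (S.card : ℝ) ≤ k := by exact_mod_cast hS
    linarith

lemma getVert_dist {V : Type u} {G : SimpleGraph V} {u v : V} (p : G.Walk u v)
    (hp : p.length = G.dist u v) (i j : ℕ) (hij : i ≤ j) (hj : j ≤ p.length) :
    G.dist (p.getVert i) (p.getVert j) = j - i := by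
  have h1 : G.dist u (p.getVert i) ≤ i := by
    have := dist_le (p.take i)
    rw [Walk.take_length] at this
    omega
  have h2 : G.dist (p.getVert j) v ≤ p.length - j := by
    have := dist_le (p.drop j)
    rwa [Walk.drop_length] at this
  have hru : G.Reachable u (p.getVert i) := (p.take i).reachable
  have hrv : G.Reachable (p.getVert j) v := (p.drop j).reachable
  have hrij : G.Reachable (p.getVert i) (p.getVert j) :=
    hru.symm.trans (p.take j).reachable
  obtain ⟨a, ha⟩ := hru.exists_walk_length_eq_dist
  obtain ⟨b, hb⟩ := hrij.exists_walk_length_eq_dist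
  obtain ⟨c, hc⟩ := hrv.exists_walk_length_eq_dist
  have h3 := dist_le (a.append (b.append c))
  simp only [Walk.length_append] at h3
  have h4 : G.dist (p.getVert i) (p.getVert j) ≤ j - i := by
    have h5 := dist_le ((p.drop i).take (j - i))
    rw [Walk.take_length] at h5
    have h6 : (p.drop i).getVert (j - i) = p.getVert j := by
      rw [Walk.drop_getVert]
      congr 1
      omega
    rw [h6] at h5
    omega
  omega

end Pool.Agent.Lib.MP_81f3cc_co
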