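import Mathlib
import Pool.Agent.Lib.MP_81f3cc_co.Hit

namespace Pool.Agent.Lib.MP_81f3cc_co

open SimpleGraph Finset

universe u w

lemma edist_le_two_iff {V : Type u} {G : SimpleGraph V} {x y : V} (h : G.edist x y ≤ 2) :
    G.Reachable x y ∧ G.dist x y ≤ 2 := by
  have hr : G.Reachable x y := by
    apply reachable_of_edist_ne_top
    intro h'
    rw [h'] at h
    exact absurd h (by decide)
  refine ⟨hr, ?_⟩
  rw [← hr.coe_dist_eq_edist] at h
  exact_mod_cast h

lemma near_five {V : Type u} [DecidableEq V] {G : SimpleGraph V} {u v : V} (p : G.Walk u v)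
    (hp : p.length = G.dist u v) (z : V) (W : Finset V)
    (hW : ∀ w ∈ W, w ∈ p.support ∧ G.edist z w ≤ 2) : W.card ≤ 5 := by
  classical
  set I := (range (p.length + 1)).filter (fun i => G.edist z (p.getVert i) ≤ 2) with hI
  have hWI : W ⊆ I.image (fun i => p.getVert i) := by
    intro w hw
    obtain ⟨h1, h2⟩ := hW w hw
    obtain ⟨i, hi, hil⟩ := (Walk.mem_support_iff_exists_getVert).1 h1
    rw [mem_image]
    refine ⟨i, ?_, hi⟩
    rw [hI, mem_filter, mem_range]
    exact ⟨by omega, by rw [hi]; exact h2⟩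
  refine (card_le_card hWI).trans (card_image_le.trans ?_)
  rcases I.eq_empty_or_nonempty with h0 | hne
  · rw [h0]; simp
  · set i0 := I.min' hne with hi0
    have hi0m := I.min'_mem hne
    have hsub : I ⊆ Icc i0 (i0 + 4) := by
      intro i hi
      have h1 : i0 ≤ i := I.min'_le i hi
      rw [mem_Icc]
      refine ⟨h1, ?_⟩
      rw [← hi0, hI, mem_filter, mem_range] at hi0m
      rw [hI, mem_filter, mem_range] at hi
      have h2 := getVert_dist p hp i0 i h1 (by omega)
      obtain ⟨hra, ha⟩ := edist_le_two_iff hi0m.2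
      obtain ⟨hrb, hb⟩ := edist_le_two_iff hi.2
      obtain ⟨α, hα⟩ := hra.exists_walk_length_eq_dist
      obtain ⟨β, hβ⟩ := hrb.exists_walk_length_eq_dist
      have h3 := dist_le (α.reverse.append β)
      rw [Walk.length_append, Walk.length_reverse] at h3
      omega
    have := card_le_card hsub
    rw [Nat.card_Icc] at this
    omega

/-- The neighbourhood of a shortest walk is large. -/
lemma path_ball {V : Type u} [Fintype V] [DecidableEq V] {G : SimpleGraph V} {u v : V}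
    (p : G.Walk u v) (hp : p.length = G.dist u v) (Q : Finset V) (m : ℝ)
    (hm : ∀ x ∈ Q, ∃ B : Finset V, m ≤ B.card ∧ ∀ z ∈ B, G.edist z x ≤ 2)
    (A : Finset V) (hA : ∀ z w, w ∈ p.support → w ∈ Q → G.edist z w ≤ 2 → z ∈ A) :
    (p.support.countP (fun x => x ∈ Q) : ℝ) * m ≤ 5 * A.card := by
  classical
  have hnd : p.support.Nodup := (p.isPath_of_length_eq_dist hp).support_nodup
  set W : Finset V := (p.support.filter (fun x => x ∈ Q)).toFinset with hWdef
  have hWc : W.card = p.support.countP (fun x => x ∈ Q) := by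
    rw [hWdef, List.toFinset_card_of_nodup (hnd.filter _), List.countP_eq_length_filter]
  have hWm : ∀ w, w ∈ W ↔ w ∈ p.support ∧ w ∈ Q := by
    intro w
    simp [hWdef]
  choose! B hB1 hB2 using hm
  let r : V → V → Prop := fun w z => G.edist z w ≤ 2
  have h1 : ∀ w ∈ W, m ≤ ((A.bipartiteAbove r w).card : ℝ) := by
    intro w hw
    have hw' := (hWm w).1 hw
    refine (hB1 w hw'.2).trans ?_
    have : B w ⊆ A.bipartiteAbove r w := by
      intro z hz
      rw [mem_bipartiteAbove]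
      exact ⟨hA z w hw'.1 hw'.2 (hB2 w hw'.2 z hz), hB2 w hw'.2 z hz⟩
    exact_mod_cast card_le_card this
  have h2 : ∀ z ∈ A, (W.bipartiteBelow r z).card ≤ 5 := by
    intro z _
    apply near_five p hp z
    intro w hw
    rw [mem_bipartiteBelow] at hw
    exact ⟨((hWm w).1 hw.1).1, hw.2⟩
  have h3 := sum_card_bipartiteAbove_eq_sum_card_bipartiteBelow (s := W) (t := A) r
  have h4 : ∑ z ∈ A, (W.bipartiteBelow r z).card ≤ A.card * 5 := by
    calc ∑ z ∈ A, (W.bipartiteBelow r z).card ≤ ∑ _z ∈ A, 5 := sum_le_sum h2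
      _ = A.card * 5 := by rw [sum_const, smul_eq_mul]
  have h5 : (W.card : ℝ) * m ≤ ∑ w ∈ W, ((A.bipartiteAbove r w).card : ℝ) := by
    calc (W.card : ℝ) * m = ∑ _w ∈ W, m := by rw [sum_const, nsmul_eq_mul]
      _ ≤ _ := sum_le_sum h1
  have h6 : ∑ w ∈ W, ((A.bipartiteAbove r w).card : ℝ) ≤ A.card * 5 := by
    rw [← h3] at h4
    exact_mod_cast h4
  rw [← hWc]
  linarith

/-- Buying one short light walk for every pair of clusters. -/
lemma buy {V : Type u} [DecidableEq V] (G : SimpleGraph V) (Q : Finset V) (ctr : V → V) (K : ℕ)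
    (F12 : Finset (Sym2 V)) (hF : ∀ x y, G.Adj x y → s(x, y) ∈ F12 ∨ (x ∈ Q ∧ y ∈ Q)) :
    ∃ F : Finset (Sym2 V), (∀ e ∈ F, e ∈ G.edgeSet) ∧ F.card ≤ (Q.image ctr).card ^ 2 * K ∧
      ∀ a ∈ Q, ∀ d ∈ Q, ∀ p : G.Walk a d, p.support.countP (fun x => x ∈ Q) ≤ K →
        ∃ x ∈ Q, ∃ y ∈ Q, ctr x = ctr a ∧ ctr y = ctr d ∧ ∃ p' : G.Walk x y,
          p'.length ≤ p.length ∧ ∀ e ∈ p'.edges, e ∈ F12 ∨ e ∈ F := by
  classical
  let Light : V → V → ℕ → Prop := fun c c' l => ∃ x ∈ Q, ∃ y ∈ Q, ctr x = c ∧ ctr y = c' ∧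
    ∃ p' : G.Walk x y, p'.length = l ∧ p'.support.countP (fun x => x ∈ Q) ≤ K
  have hex : ∀ c c' : V, ∃ F : Finset (Sym2 V), (∀ e ∈ F, e ∈ G.edgeSet) ∧ F.card ≤ K ∧
      ∀ l, Light c c' l → ∃ x ∈ Q, ∃ y ∈ Q, ctr x = c ∧ ctr y = c' ∧ ∃ p' : G.Walk x y,
        p'.length ≤ l ∧ ∀ e ∈ p'.edges, e ∈ F12 ∨ e ∈ F := by
    intro c c'
    by_cases hL : ∃ l, Light c c' l
    · obtain ⟨x, hx, y, hy, hcx, hcy, p', hp', hK⟩ := Nat.find_spec hL
      refine ⟨(p'.edges.filter (fun e => e ∈ G.edgeSet ∧ e ∉ F12)).toFinset, ?_, ?_, ?_⟩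
      · intro e he
        rw [List.mem_toFinset, List.mem_filter] at he
        simpa using (of_decide_eq_true he.2).1
      · refine (List.toFinset_card_le _).trans ?_
        rw [← List.countP_eq_length_filter]
        refine (countP_edges_le (fun x => x ∈ Q) (fun e => e ∈ G.edgeSet ∧ e ∉ F12) ?_ p').trans hK
        intro a b hab
        rcases hF a b hab.1 with h | h
        · exact absurd h hab.2
        · exact h.1
      · intro l hl
        refine ⟨x, hx, y, hy, hcx, hcy, p', ?_, ?_⟩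
        · rw [hp']
          exact Nat.find_min' hL hl
        · intro e he
          by_cases h : e ∈ F12
          · left; exact h
          · right
            rw [List.mem_toFinset, List.mem_filter]
            exact ⟨he, decide_eq_true ⟨p'.edges_subset_edgeSet he, h⟩⟩
    · exact ⟨∅, by simp, by simp, fun l hl => absurd ⟨l, hl⟩ hL⟩
  choose F hF1 hF2 hF3 using hex
  refine ⟨((Q.image ctr) ×ˢ (Q.image ctr)).biUnion (fun c => F c.1 c.2), ?_, ?_, ?_⟩
  · intro e he
    rw [mem_biUnion] at he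
    obtain ⟨c, _, he⟩ := he
    exact hF1 _ _ e he
  · refine (card_biUnion_le_card_mul _ _ K (fun c _ => hF2 _ _)).trans ?_
    rw [card_product, pow_two]
  · intro a ha d hd p hp
    obtain ⟨x, hx, y, hy, hcx, hcy, p', hl, he⟩ := hF3 (ctr a) (ctr d) p.length
      ⟨a, ha, d, hd, rfl, rfl, p, rfl, hp⟩
    refine ⟨x, hx, y, hy, hcx, hcy, p', hl, ?_⟩
    intro e hep
    rcases he e hep with h | h
    · left; exact h
    · right
      rw [mem_biUnion]
      refine ⟨(ctr a, ctr d), ?_, h⟩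
      rw [mem_product]
      exact ⟨mem_image_of_mem _ ha, mem_image_of_mem _ hd⟩

end Pool.Agent.Lib.MP_81f3cc_co
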