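import Mathlib
import Pool.Agent.Lib.MP_81f3cc_co.Buy

namespace Pool.Agent.Lib.MP_81f3cc_co

open SimpleGraph Finset

universe u w

lemma cluster_spanner {V : Type u} [Fintype V] (G : SimpleGraph V) (D K : ℕ) (hD : 1 ≤ D)
    (hK : 1 ≤ K) (m : ℝ) (hm0 : 0 < m) (hn : 0 < Fintype.card V)
    (hM : ∀ (U : Finset V) (x : V), x ∈ U → (∀ y ∈ U, D ≤ (nb G U y).card) →
      m ≤ ((bb G U x).card : ℝ)) :
    ∃ H : SimpleGraph V, H ≤ G ∧
      (Nat.card H.edgeSet : ℝ) ≤ (2 * D + 2) * (Fintype.card V : ℝ) +
        ((Fintype.card V : ℝ) / D) ^ 2 * K +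
        10 * (Fintype.card V : ℝ) ^ 2 * Real.log (Fintype.card V) / (K * m) ∧
      ∀ u v, H.edist u v ≤ G.edist u v + 4 := by
  classical
  set n : ℝ := (Fintype.card V : ℝ) with hndef
  have hn1 : (1 : ℝ) ≤ n := by rw [hndef]; exact_mod_cast hn
  have hK0 : (0 : ℝ) < K := by exact_mod_cast hK
  have hD0 : (0 : ℝ) < D := by exact_mod_cast hD
  obtain ⟨U₀, F1, hU₀, hdeg, hF1, hF1c, hF1cov⟩ := core G D _ (univ : Finset V) rfl
  obtain ⟨Q, ctr, hQU, hctr, hctrc, hun⟩ := clusters G D U₀ _ ∅ id (empty_subset _) rfl
    (by simp) (by simp)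
  set F2 : Finset (Sym2 V) := U₀.biUnion (fun x => (nb G (U₀ \ Q) x).image (fun y => s(x, y)))
    with hF2def
  set F3 : Finset (Sym2 V) := Q.image (fun x => s(ctr x, x)) with hF3def
  have hF2 : ∀ e ∈ F2, e ∈ G.edgeSet := by
    intro e he
    rw [hF2def, mem_biUnion] at he
    obtain ⟨x, _, he⟩ := he
    rw [mem_image] at he
    obtain ⟨y, hy, rfl⟩ := he
    exact (mem_nb.1 hy).2
  have hF2c : F2.card ≤ D * Fintype.card V := by
    have h1 : F2.card ≤ U₀.card * D := by
      apply card_biUnion_le_card_mul
      intro x hx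
      exact card_image_le.trans (hun x hx)
    refine h1.trans ?_
    rw [mul_comm]
    exact Nat.mul_le_mul_left _ (card_le_univ _)
  have hF3 : ∀ e ∈ F3, e ∈ G.edgeSet := by
    intro e he
    rw [hF3def, mem_image] at he
    obtain ⟨x, hx, rfl⟩ := he
    exact hctr x hx
  have hF3c : F3.card ≤ Fintype.card V := card_image_le.trans (card_le_univ _)
  have hcov : ∀ x y, G.Adj x y → s(x, y) ∈ F1 ∪ F2 ∨ (x ∈ Q ∧ y ∈ Q) := by
    intro x y hxy
    rcases hF1cov x (mem_univ _) y (mem_univ _) hxy with h | ⟨hx, hy⟩
    · left; exact mem_union_left _ h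
    · by_cases hyQ : y ∈ Q
      · by_cases hxQ : x ∈ Q
        · right; exact ⟨hxQ, hyQ⟩
        · left
          apply mem_union_right
          rw [hF2def, mem_biUnion]
          refine ⟨y, hy, ?_⟩
          rw [mem_image]
          exact ⟨x, mem_nb.2 ⟨mem_sdiff.2 ⟨hx, hxQ⟩, hxy.symm⟩, Sym2.eq_swap⟩
      · left
        apply mem_union_right
        rw [hF2def, mem_biUnion]
        refine ⟨x, hx, ?_⟩
        rw [mem_image]
        exact ⟨y, mem_nb.2 ⟨mem_sdiff.2 ⟨hy, hyQ⟩, hxy⟩, rfl⟩
  obtain ⟨F4, hF4, hF4c, hbuy⟩ := buy G Q ctr K (F1 ∪ F2) hcov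
  -- hubs
  have hwalk : ∀ q : V × V, G.Reachable q.1 q.2 → ∃ p : G.Walk q.1 q.2,
      p.length = G.dist q.1 q.2 := fun q h => h.exists_walk_length_eq_dist
  choose P hP using hwalk
  let A : V × V → Finset V := fun q => univ.filter (fun z => ∃ (h : G.Reachable q.1 q.2) (w : V),
    w ∈ (P q h).support ∧ w ∈ Q ∧ G.edist z w ≤ 2)
  set I : Finset (V × V) := univ.filter (fun q => ∃ h : G.Reachable q.1 q.2,
    K ≤ (P q h).support.countP (fun x => x ∈ Q)) with hI
  have hQball : ∀ x ∈ Q, ∃ B : Finset V, m ≤ B.card ∧ ∀ z ∈ B, G.edist z x ≤ 2 := by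
    intro x hx
    refine ⟨bb G U₀ x, hM U₀ x (hQU hx) hdeg, ?_⟩
    intro z hz
    rw [SimpleGraph.edist_comm]
    exact edist_le_two_of_bb hz
  have hAI : ∀ q ∈ I, (K : ℝ) * m / 5 ≤ ((A q).card : ℝ) := by
    intro q hq
    rw [hI, mem_filter] at hq
    obtain ⟨_, h, hK'⟩ := hq
    have h1 := path_ball (P q h) (hP q h) Q m hQball (A q) (by
      intro z w hw hwQ hz
      simp only [A, mem_filter, mem_univ, true_and]
      exact ⟨h, w, hw, hwQ, hz⟩)
    have h2 : (K : ℝ) ≤ ((P q h).support.countP (fun x => x ∈ Q) : ℝ) := by exact_mod_cast hK'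
    have h3 : (K : ℝ) * m ≤ ((P q h).support.countP (fun x => x ∈ Q) : ℝ) * m :=
      mul_le_mul_of_nonneg_right h2 hm0.le
    linarith
  have hlogn : 0 ≤ Real.log n := Real.log_nonneg hn1
  have hS : ∃ S : Finset V, (∀ q ∈ I, ∃ z ∈ S, z ∈ A q) ∧
      (S.card : ℝ) ≤ 10 * n * Real.log n / (K * m) + 1 := by
    rcases I.eq_empty_or_nonempty with h0 | hne
    · refine ⟨∅, ?_, ?_⟩
      · rw [h0]; simp
      · rw [card_empty]
        push_cast
        positivity
    · have hh : 0 < (K : ℝ) * m / 5 := by positivity
      have hhn : (K : ℝ) * m / 5 ≤ Fintype.card V := by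
        obtain ⟨q, hq⟩ := hne
        refine (hAI q hq).trans ?_
        exact_mod_cast card_le_univ (A q)
      obtain ⟨S, hS1, hS2⟩ := hitting I A ((K : ℝ) * m / 5) hh hAI hn hhn hne
      refine ⟨S, hS1, hS2.trans ?_⟩
      have hIc : (I.card : ℝ) ≤ n ^ 2 := by
        have h1 : I.card ≤ Fintype.card (V × V) := card_le_univ I
        rw [Fintype.card_prod] at h1
        have h2 : (I.card : ℝ) ≤ (Fintype.card V : ℝ) * (Fintype.card V : ℝ) := by exact_mod_cast h1
        rw [← hndef] at h2
        rw [pow_two]; exact h2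
      have hI0 : (0 : ℝ) < I.card := by exact_mod_cast (card_pos.2 hne)
      have hlog : Real.log I.card ≤ 2 * Real.log n := by
        have := Real.log_le_log hI0 hIc
        rwa [Real.log_pow] at this
      rw [← hndef]
      have h5 : n / ((K : ℝ) * m / 5) * Real.log I.card ≤
          n / ((K : ℝ) * m / 5) * (2 * Real.log n) :=
        mul_le_mul_of_nonneg_left hlog (by positivity)
      have h6 : n / ((K : ℝ) * m / 5) * (2 * Real.log n) = 10 * n * Real.log n / (K * m) := by
        field_simp
        ring
      linarith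
  obtain ⟨S, hS1, hS2⟩ := hS
  obtain ⟨T, hT, hTc, hTd⟩ := trees G S
  set Fall : Finset (Sym2 V) := ((F1 ∪ F2) ∪ F3) ∪ (F4 ∪ T) with hFall
  have m12 : ∀ e ∈ F1 ∪ F2, e ∈ Fall := fun e he =>
    mem_union_left _ (mem_union_left _ he)
  have m3 : ∀ e ∈ F3, e ∈ Fall := fun e he => mem_union_left _ (mem_union_right _ he)
  have m4 : ∀ e ∈ F4, e ∈ Fall := fun e he => mem_union_right _ (mem_union_left _ he)
  have mT : ∀ e ∈ T, e ∈ Fall := fun e he => mem_union_right _ (mem_union_right _ he)
  set H : SimpleGraph V := fromEdgeSet (↑Fall : Set (Sym2 V)) with hH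
  refine ⟨H, ?_, ?_, ?_⟩
  · rw [hH, ← fromEdgeSet_edgeSet G]
    apply fromEdgeSet_mono
    intro e he
    rw [mem_coe, hFall, mem_union, mem_union, mem_union, mem_union] at he
    rcases he with ((he | he) | he) | (he | he)
    · exact hF1 e he
    · exact hF2 e he
    · exact hF3 e he
    · exact hF4 e he
    · exact hT e he
  · have h1 : H.edgeSet ⊆ ↑Fall := by
      rw [hH, edgeSet_fromEdgeSet]
      exact Set.sdiff_subset
    have h2 : Nat.card H.edgeSet ≤ Fall.card := by
      have := Nat.card_mono (Finset.finite_toSet Fall) h1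
      simpa using this
    have h3 : Fall.card ≤ F1.card + F2.card + F3.card + (F4.card + T.card) := by
      refine (card_union_le _ _).trans ?_
      apply add_le_add _ (card_union_le _ _)
      refine (card_union_le _ _).trans ?_
      exact Nat.add_le_add_right (card_union_le _ _) _
    rw [card_univ] at hF1c
    have h4 : (Nat.card H.edgeSet : ℝ) ≤ F1.card + F2.card + F3.card + (F4.card + T.card) := by
      exact_mod_cast h2.trans h3
    have e1 : (F1.card : ℝ) ≤ D * n := by rw [hndef]; exact_mod_cast hF1c
    have e2 : (F2.card : ℝ) ≤ D * n := by rw [hndef]; exact_mod_cast hF2c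
    have e3 : (F3.card : ℝ) ≤ n := by rw [hndef]; exact_mod_cast hF3c
    have e4 : (F4.card : ℝ) ≤ (n / D) ^ 2 * K := by
      have hN : ((Q.image ctr).card : ℝ) ≤ n / D := by
        rw [le_div_iff₀ hD0]
        have h5 : D * (Q.image ctr).card ≤ Fintype.card V := hctrc.trans (card_le_univ _)
        have h6 : (D : ℝ) * (Q.image ctr).card ≤ n := by rw [hndef]; exact_mod_cast h5
        linarith
      have h7 : (F4.card : ℝ) ≤ ((Q.image ctr).card : ℝ) ^ 2 * K := by exact_mod_cast hF4c
      refine h7.trans ?_
      apply mul_le_mul_of_nonneg_right _ hK0.le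
      exact pow_le_pow_left₀ (by positivity) hN 2
    have e5 : (T.card : ℝ) ≤ (10 * n * Real.log n / (K * m) + 1) * n := by
      have h8 : (T.card : ℝ) ≤ (S.card : ℝ) * n := by rw [hndef]; exact_mod_cast hTc
      exact h8.trans (mul_le_mul_of_nonneg_right hS2 (by linarith))
    have e6 : (10 * n * Real.log n / (K * m) + 1) * n =
        10 * n ^ 2 * Real.log n / (K * m) + n := by ring
    rw [e6] at e5
    linarith
  · intro u v
    by_cases hr : G.Reachable u v
    · set p := P (u, v) hr with hpdef
      have hp : p.length = G.dist u v := hP (u, v) hr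
      have hpe : (p.length : ℕ∞) = G.edist u v := by
        rw [hp]; exact hr.coe_dist_eq_edist
      by_cases hheavy : K ≤ p.support.countP (fun x => x ∈ Q)
      · have hqI : (u, v) ∈ I := by
          rw [hI, mem_filter]
          exact ⟨mem_univ _, hr, hheavy⟩
        obtain ⟨z, hzS, hzA⟩ := hS1 (u, v) hqI
        simp only [A, mem_filter, mem_univ, true_and] at hzA
        obtain ⟨h, w, hw, _, hzw⟩ := hzA
        exact hub (P (u, v) h) (by rw [hP (u, v) h]; exact hr.coe_dist_eq_edist) hw hzw
          (hTd _ (fun e he => by rw [mem_coe]; exact mT e he) z hzS)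
      · push Not at hheavy
        rcases first_last (fun x => x ∈ Q) (fun e => e ∈ F1 ∪ F2) hcov p with h | h
        · have := edist_le_of_edges (F := (↑Fall : Set (Sym2 V))) p
            (fun e he => by rw [mem_coe]; exact m12 e (h e he))
          exact this.trans (by rw [hpe]; exact le_self_add)
        · obtain ⟨a, d, q, m', r, ha, hd, hpq, hq, hrr⟩ := h
          have hcount : m'.support.countP (fun x => x ∈ Q) ≤ K := by
            have := sub_countP (fun x => x ∈ Q) q m' r
            rw [← hpq] at this
            omega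
          obtain ⟨x, hx, y, hy, hcx, hcy, p', hp'l, hp'e⟩ := hbuy a ha d hd m' hcount
          have hstar : ∀ b ∈ Q, H.edist (ctr b) b ≤ 1 := by
            intro b hb
            rw [edist_le_one_iff_adj_or_eq]
            left
            rw [hH, fromEdgeSet_adj]
            refine ⟨?_, (hctr b hb).ne⟩
            rw [mem_coe]
            apply m3
            rw [hF3def, mem_image]
            exact ⟨b, hb, rfl⟩
          have htwo : ∀ b ∈ Q, ∀ b' ∈ Q, ctr b = ctr b' → H.edist b b' ≤ 2 := by
            intro b hb b' hb' hbb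
            calc H.edist b b' ≤ H.edist b (ctr b) + H.edist (ctr b) b' :=
                  SimpleGraph.edist_triangle
              _ = H.edist (ctr b) b + H.edist (ctr b') b' := by
                  rw [SimpleGraph.edist_comm (u := b) (v := ctr b), hbb]
              _ ≤ 1 + 1 := add_le_add (hstar b hb) (hstar b' hb')
              _ = 2 := by norm_num
          have d1 : H.edist u a ≤ q.length := edist_le_of_edges q
            (fun e he => by rw [mem_coe]; exact m12 e (hq e he))
          have d2 : H.edist a x ≤ 2 := htwo a ha x hx hcx.symm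
          have d3 : H.edist x y ≤ (m'.length : ℕ∞) := by
            refine (edist_le_of_edges p' (fun e he => ?_)).trans (by exact_mod_cast hp'l)
            rw [mem_coe]
            rcases hp'e e he with h | h
            · exact m12 e h
            · exact m4 e h
          have d4 : H.edist y d ≤ 2 := htwo y hy d hd hcy
          have d5 : H.edist d v ≤ r.length := edist_le_of_edges r
            (fun e he => by rw [mem_coe]; exact m12 e (hrr e he))
          have hlen : p.length = q.length + (m'.length + r.length) := by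
            rw [hpq, Walk.length_append, Walk.length_append]
          calc H.edist u v ≤ H.edist u a + H.edist a v := SimpleGraph.edist_triangle
            _ ≤ H.edist u a + (H.edist a x + H.edist x v) :=
                add_le_add le_rfl SimpleGraph.edist_triangle
            _ ≤ H.edist u a + (H.edist a x + (H.edist x y + H.edist y v)) :=
                add_le_add le_rfl (add_le_add le_rfl SimpleGraph.edist_triangle)
            _ ≤ H.edist u a + (H.edist a x + (H.edist x y + (H.edist y d + H.edist d v))) :=
                add_le_add le_rfl (add_le_add le_rfl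
                  (add_le_add le_rfl SimpleGraph.edist_triangle))
            _ ≤ q.length + (2 + (m'.length + (2 + r.length))) :=
                add_le_add d1 (add_le_add d2 (add_le_add d3 (add_le_add d4 d5)))
            _ = (p.length : ℕ∞) + 4 := by
                rw [hlen]; push_cast; ring
            _ = G.edist u v + 4 := by rw [hpe]
    · rw [edist_eq_top_of_not_reachable hr]
      simp

end Pool.Agent.Lib.MP_81f3cc_co
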