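import Mathlib

set_option autoImplicit false
set_option linter.unusedSectionVars false

namespace MP81f3cc

open Finset

variable {V : Type*}

/-- A chosen neighbour of `v` one step closer to `w` (if there is one). -/
noncomputable def par (G : SimpleGraph V) (w v : V) : V := by
  classical
  exact if h : ∃ u, G.Adj v u ∧ G.edist w u + 1 ≤ G.edist w v then h.choose else v

lemma par_spec (G : SimpleGraph V) (w v : V)
    (h : ∃ u, G.Adj v u ∧ G.edist w u + 1 ≤ G.edist w v) :
    G.Adj v (par G w v) ∧ G.edist w (par G w v) + 1 ≤ G.edist w v := by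
  classical
  unfold par
  rw [dif_pos h]
  exact h.choose_spec

/-- a vertex at finite positive distance from `w` has a neighbour closer to `w` -/
lemma exists_closer (G : SimpleGraph V) (w v : V) (k : ℕ) (h : G.edist w v = (k + 1 : ℕ)) :
    ∃ u, G.Adj v u ∧ G.edist w u ≤ k := by
  obtain ⟨p, hp⟩ := SimpleGraph.exists_walk_of_edist_eq_coe h
  have hr : p.reverse.length = k + 1 := by simpa using hp
  cases hq : p.reverse with
  | nil => rw [hq] at hr; simp at hr
  | cons hadj q =>
    rename_i u
    rw [hq] at hr
    refine ⟨u, hadj, ?_⟩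
    have h1 : q.length = k := by simpa using hr
    calc G.edist w u = G.edist u w := SimpleGraph.edist_comm
      _ ≤ q.length := SimpleGraph.edist_le q
      _ = k := by rw [h1]

/-- If a graph `H` contains all parent edges of the breadth first search from `w`, then it
preserves all distances from `w`. -/
lemma edist_le_of_parents (G H : SimpleGraph V) (w : V)
    (hH : ∀ v, G.Adj v (par G w v) → H.Adj v (par G w v)) (v : V) :
    H.edist w v ≤ G.edist w v := by
  have key : ∀ k : ℕ, ∀ v, G.edist w v = k → H.edist w v ≤ k := by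
    intro k
    induction k using Nat.strong_induction_on with
    | _ k ih =>
      intro v hv
      rcases k with _ | k
      · have hwv : w = v := (SimpleGraph.edist_eq_zero_iff (G := G)).mp (by simpa using hv)
        subst hwv
        simp
      · obtain ⟨u, hu1, hu2⟩ := exists_closer G w v k hv
        have hs := par_spec G w v ⟨u, hu1, by
          rw [hv]
          push_cast
          gcongr⟩
        have hfin : G.edist w (par G w v) ≤ k := by
          have h2 := hs.2
          rw [hv] at h2
          push_cast at h2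
          exact (ENat.add_le_add_iff_right (by simp)).mp h2
        obtain ⟨m, hm⟩ : ∃ m : ℕ, G.edist w (par G w v) = m := by
          have : G.edist w (par G w v) ≠ ⊤ := ne_top_of_le_ne_top (by simp) hfin
          exact ⟨_, (ENat.natCast_toNat this).symm⟩
        have hmk : m ≤ k := by
          rw [hm] at hfin
          exact_mod_cast hfin
        have h3 := ih m (by omega) (par G w v) hm
        have h4 : H.edist (par G w v) v = 1 :=
          SimpleGraph.edist_eq_one_iff_adj.mpr (hH v hs.1).symm
        calc H.edist w v ≤ H.edist w (par G w v) + H.edist (par G w v) v :=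
              SimpleGraph.edist_triangle
          _ ≤ m + 1 := by rw [h4]; gcongr
          _ ≤ ((k + 1 : ℕ) : ℕ∞) := by
              push_cast
              gcongr
  by_cases h : G.edist w v = ⊤
  · rw [h]; exact le_top
  · have h2 : G.edist w v = ((G.edist w v).toNat : ℕ∞) := (ENat.natCast_toNat h).symm
    rw [h2]
    exact key _ v h2

/-- Distance to a vertex within `2` of the root `w`, lying on a shortest path. -/
lemma edist_via_root (G H : SimpleGraph V) (w x u v : V)
    (hw : ∀ z, H.edist w z ≤ G.edist w z) (hx : G.edist w x ≤ 2)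
    (hsp : G.edist u x + G.edist x v ≤ G.edist u v) :
    H.edist u v ≤ G.edist u v + 4 := by
  calc H.edist u v ≤ H.edist u w + H.edist w v := SimpleGraph.edist_triangle
    _ = H.edist w u + H.edist w v := by rw [SimpleGraph.edist_comm (u := u)]
    _ ≤ G.edist w u + G.edist w v := add_le_add (hw u) (hw v)
    _ ≤ (G.edist w x + G.edist x u) + (G.edist w x + G.edist x v) :=
        add_le_add SimpleGraph.edist_triangle SimpleGraph.edist_triangle
    _ ≤ (2 + G.edist x u) + (2 + G.edist x v) := by gcongr
    _ = (G.edist u x + G.edist x v) + 4 := by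
        rw [SimpleGraph.edist_comm (u := x) (v := u)]
        ring
    _ ≤ G.edist u v + 4 := by gcongr

/-- a vertex of a shortest walk lies between its ends -/
lemma edist_support (G : SimpleGraph V) {u v : V} (p : G.Walk u v)
    (hp : (p.length : ℕ∞) = G.edist u v) (x : V) (hx : x ∈ p.support) :
    G.edist u x + G.edist x v ≤ G.edist u v := by
  classical
  rw [← hp, ← SimpleGraph.Walk.take_spec p hx, SimpleGraph.Walk.length_append]
  push_cast
  exact add_le_add (SimpleGraph.edist_le _) (SimpleGraph.edist_le _)

section fin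

variable [Fintype V] [DecidableEq V] (G : SimpleGraph V) [DecidableRel G.Adj]

/-- neighbours of degree larger than `d` -/
def hi (d : ℕ) (x : V) : Finset V := (G.neighborFinset x).filter (fun y => d < G.degree y)

/-- the ball of radius 2 -/
noncomputable def ball (x : V) : Finset V := by
  classical
  exact univ.filter (fun z => G.edist z x ≤ 2)

lemma card_hi_mul_le (t d : ℕ)
    (hcod : ∀ u v, u ≠ v → (G.neighborFinset u ∩ G.neighborFinset v).card ≤ t) (x : V) :
    (hi G d x).card * d ≤ (ball G x).card * t := by
  classical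
  have := Finset.card_mul_le_card_mul (s := hi G d x) (t := (ball G x).erase x) G.Adj
    (m := d) (n := t) ?_ ?_
  · refine this.trans ?_
    gcongr
    exact Finset.erase_subset _ _
  · intro y hy
    rw [hi, mem_filter, SimpleGraph.mem_neighborFinset] at hy
    have h1 : (G.neighborFinset y).erase x ⊆
        Finset.bipartiteAbove G.Adj ((ball G x).erase x) y := by
      intro z hz
      rw [mem_erase, SimpleGraph.mem_neighborFinset] at hz
      rw [Finset.mem_bipartiteAbove]
      refine ⟨?_, hz.2⟩
      rw [mem_erase]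
      refine ⟨hz.1, ?_⟩
      simp only [ball, mem_filter, mem_univ, true_and]
      let p : G.Walk z x := SimpleGraph.Walk.cons hz.2.symm
        (SimpleGraph.Walk.cons hy.1.symm SimpleGraph.Walk.nil)
      have := SimpleGraph.edist_le p
      simpa [p] using this
    have h2 := Finset.card_le_card h1
    have h3 : d ≤ ((G.neighborFinset y).erase x).card := by
      rw [Finset.card_erase_of_mem (by
        rw [SimpleGraph.mem_neighborFinset]; exact hy.1.symm), SimpleGraph.card_neighborFinset_eq_degree]
      omega
    exact h3.trans h2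
  · intro z hz
    rw [mem_erase] at hz
    refine le_trans (Finset.card_le_card ?_) (hcod x z (Ne.symm hz.1))
    intro y hy
    rw [Finset.mem_bipartiteBelow] at hy
    rw [hi, mem_filter, SimpleGraph.mem_neighborFinset] at hy
    rw [mem_inter, SimpleGraph.mem_neighborFinset, SimpleGraph.mem_neighborFinset]
    exact ⟨hy.1.1, hy.2.symm⟩

/-- vertex `x` is covered by the roots `f` -/
def Cov {m : ℕ} (f : Fin m → V) (x : V) : Prop := ∃ i, f i ∈ ball G x

/-- the relation generating the spanner -/
def Rel (d : ℕ) {m : ℕ} (f : Fin m → V) (a b : V) : Prop :=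
  G.degree a ≤ d ∨ (∃ i, b = par G (f i) a) ∨ (¬ Cov G f a ∧ d < G.degree b)

/-- the spanner -/
def spanner (d : ℕ) {m : ℕ} (f : Fin m → V) : SimpleGraph V where
  Adj a b := G.Adj a b ∧ (Rel G d f a b ∨ Rel G d f b a)
  symm := ⟨fun _ _ h => ⟨h.1.symm, h.2.symm⟩⟩
  loopless := ⟨fun a h => G.loopless.irrefl a h.1⟩

lemma spanner_le (d : ℕ) {m : ℕ} (f : Fin m → V) : spanner G d f ≤ G := fun _ _ h => h.1

lemma spanner_edist (d : ℕ) {m : ℕ} (f : Fin m → V) (u v : V) :
    (spanner G d f).edist u v ≤ G.edist u v + 4 := by
  by_cases htop : G.edist u v = ⊤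
  · rw [htop]; simp
  obtain ⟨p, hp⟩ := SimpleGraph.exists_walk_of_edist_ne_top htop
  by_cases hc : ∃ x ∈ p.support, Cov G f x
  · obtain ⟨x, hx, i, hi⟩ := hc
    apply edist_via_root G _ (f i) x u v
    · intro z
      apply edist_le_of_parents
      intro y hy
      exact ⟨hy, Or.inl (Or.inr (Or.inl ⟨i, rfl⟩))⟩
    · simpa [ball] using hi
    · exact edist_support G p hp x hx
  · push Not at hc
    have hall : ∀ e ∈ p.edges, e ∈ (spanner G d f).edgeSet := by
      intro e
      induction e using Sym2.ind with
      | _ a b =>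
        intro he
        rw [SimpleGraph.mem_edgeSet]
        have hadj : G.Adj a b := SimpleGraph.Walk.adj_of_mem_edges p he
        refine ⟨hadj, ?_⟩
        have ha := hc a (SimpleGraph.Walk.fst_mem_support_of_mem_edges p he)
        by_cases hb : G.degree b ≤ d
        · exact Or.inr (Or.inl hb)
        · exact Or.inl (Or.inr (Or.inr ⟨ha, by omega⟩))
    have h1 := SimpleGraph.edist_le (p.transfer _ hall)
    rw [SimpleGraph.Walk.length_transfer, hp] at h1
    exact h1.trans (by simp)

/-- counting the edges of the spanner -/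
lemma spanner_card (d : ℕ) {m : ℕ} (f : Fin m → V) [DecidablePred (Cov G f)] :
    Nat.card (spanner G d f).edgeSet ≤
      ∑ a : V, (d + m + if Cov G f a then 0 else (hi G d a).card) := by
  classical
  let S : V → Finset V := fun a => (G.neighborFinset a).filter (fun b => Rel G d f a b)
  have hS : ∀ a, (S a).card ≤ d + m + if Cov G f a then 0 else (hi G d a).card := by
    intro a
    by_cases ha : G.degree a ≤ d
    · calc (S a).card ≤ (G.neighborFinset a).card := Finset.card_filter_le _ _
        _ ≤ d := by rw [SimpleGraph.card_neighborFinset_eq_degree]; exact ha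
        _ ≤ _ := by omega
    · have hsub : S a ⊆ (univ.image (fun i : Fin m => par G (f i) a)) ∪
          (if Cov G f a then ∅ else hi G d a) := by
        intro b hb
        rw [mem_filter] at hb
        rcases hb.2 with h | ⟨i, h⟩ | ⟨h1, h2⟩
        · exact absurd h ha
        · rw [mem_union]; left
          rw [mem_image]; exact ⟨i, mem_univ _, h.symm⟩
        · rw [mem_union]; right
          rw [if_neg h1, hi, mem_filter]
          exact ⟨hb.1, h2⟩
      have h1 := (Finset.card_le_card hsub).trans (Finset.card_union_le _ _)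
      have h2 : (univ.image (fun i : Fin m => par G (f i) a)).card ≤ m := by
        refine Finset.card_image_le.trans ?_
        simp
      have h3 : (if Cov G f a then (∅ : Finset V) else hi G d a).card =
          if Cov G f a then 0 else (hi G d a).card := by
        split_ifs <;> simp
      rw [h3] at h1
      omega
  let P : Finset (Σ _ : V, V) := univ.sigma S
  have hsub : (spanner G d f).edgeSet ⊆ ((P.image (fun q => s(q.1, q.2)) : Finset (Sym2 V)) : Set (Sym2 V)) := by
    intro e
    induction e using Sym2.ind with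
    | _ a b =>
      intro he
      rw [SimpleGraph.mem_edgeSet] at he
      rw [Finset.mem_coe, mem_image]
      rcases he.2 with h | h
      · refine ⟨⟨a, b⟩, ?_, rfl⟩
        simp only [P, S, mem_sigma, mem_univ, true_and, mem_filter, SimpleGraph.mem_neighborFinset]
        exact ⟨he.1, h⟩
      · refine ⟨⟨b, a⟩, ?_, Sym2.eq_swap⟩
        simp only [P, S, mem_sigma, mem_univ, true_and, mem_filter, SimpleGraph.mem_neighborFinset]
        exact ⟨he.1.symm, h⟩
  calc Nat.card (spanner G d f).edgeSet = (spanner G d f).edgeSet.ncard := rfl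
    _ ≤ ((P.image (fun q => s(q.1, q.2)) : Finset (Sym2 V)) : Set (Sym2 V)).ncard :=
        Set.ncard_le_ncard hsub (Finset.finite_toSet _)
    _ = (P.image (fun q => s(q.1, q.2))).card := Set.ncard_coe_finset _
    _ ≤ P.card := Finset.card_image_le
    _ = ∑ a : V, (S a).card := Finset.card_sigma _ _
    _ ≤ _ := Finset.sum_le_sum (fun a _ => hS a)

/-- number of root tuples which miss the ball of `x` -/
lemma card_miss (m : ℕ) (x : V) [DecidablePred (fun f : Fin m → V => Cov G f x)] :
    (univ.filter (fun f : Fin m → V => ¬ Cov G f x)).card =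
      (Fintype.card V - (ball G x).card) ^ m := by
  classical
  have : (univ.filter (fun f : Fin m → V => ¬ Cov G f x)) =
      Fintype.piFinset (fun _ : Fin m => (ball G x)ᶜ) := by
    ext f
    simp [Cov, Fintype.mem_piFinset]
  rw [this, Fintype.card_piFinset_const, Finset.card_compl]

lemma pow_bound (b n m : ℕ) (hb : b ≤ n) (hn : 0 < n) :
    (b : ℝ) * m * ((n - b : ℕ) : ℝ) ^ m ≤ (n : ℝ) * (n : ℝ) ^ m := by
  have hn' : (0 : ℝ) < n := by exact_mod_cast hn
  have h1 : ((n - b : ℕ) : ℝ) = n * (1 - (b : ℝ) / n) := by
    rw [Nat.cast_sub hb]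
    field_simp
  set y : ℝ := (b : ℝ) / n with hy
  have hy0 : 0 ≤ y := by positivity
  have hy1 : y ≤ 1 := by
    rw [hy, div_le_one hn']
    exact_mod_cast hb
  have h2 : 1 + (m : ℝ) * y ≤ (1 + y) ^ m := one_add_mul_le_pow (by linarith) m
  have h3 : (1 - y) ^ m * (1 + y) ^ m ≤ 1 := by
    rw [← mul_pow]
    apply pow_le_one₀
    · nlinarith
    · nlinarith
  have h4 : (1 - y) ^ m * (m * y) ≤ 1 := by
    have h5 : 0 ≤ (1 - y) ^ m := pow_nonneg (by linarith) m
    calc (1 - y) ^ m * (m * y) ≤ (1 - y) ^ m * (1 + m * y) := by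
          apply mul_le_mul_of_nonneg_left _ h5; linarith
      _ ≤ (1 - y) ^ m * (1 + y) ^ m := mul_le_mul_of_nonneg_left h2 h5
      _ ≤ 1 := h3
  have hbn : (b : ℝ) = y * n := by
    rw [hy]; field_simp
  rw [h1, mul_pow, hbn]
  calc y * n * m * ((n : ℝ) ^ m * (1 - y) ^ m)
      = (n : ℝ) * (n : ℝ) ^ m * ((1 - y) ^ m * (m * y)) := by ring
    _ ≤ (n : ℝ) * (n : ℝ) ^ m * 1 := by
        apply mul_le_mul_of_nonneg_left h4; positivity
    _ = _ := by ring

/-- choosing good roots -/
lemma exists_roots (t d m : ℕ) (hd : 0 < d) (hm : 0 < m) (hn : 0 < Fintype.card V)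
    (hcod : ∀ u v, u ≠ v → (G.neighborFinset u ∩ G.neighborFinset v).card ≤ t) :
    ∃ f : Fin m → V, ∃ _ : DecidablePred (Cov G f),
      ((∑ a : V, (if Cov G f a then 0 else (hi G d a).card) : ℕ) : ℝ) ≤
        (t : ℝ) * (Fintype.card V : ℝ) ^ 2 / (m * d) := by
  classical
  set n := Fintype.card V with hnn
  have hnR : (0 : ℝ) < n := by exact_mod_cast hn
  have hdR : (0 : ℝ) < d := by exact_mod_cast hd
  have hmR : (0 : ℝ) < m := by exact_mod_cast hm
  -- per-vertex average
  have hx : ∀ x : V, ((hi G d x).card : ℝ) * ((n - (ball G x).card : ℕ) : ℝ) ^ m ≤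
      (t : ℝ) * n / (m * d) * (n : ℝ) ^ m := by
    intro x
    have hb : (ball G x).card ≤ n := by
      rw [hnn]; exact Finset.card_le_univ _
    have h1 := pow_bound (ball G x).card n m hb hn
    have h2 : ((hi G d x).card : ℝ) * d ≤ (ball G x).card * t := by
      exact_mod_cast card_hi_mul_le G t d hcod x
    have h3 : (0 : ℝ) ≤ ((n - (ball G x).card : ℕ) : ℝ) ^ m := by positivity
    rw [div_mul_eq_mul_div, le_div_iff₀ (by positivity)]
    calc ((hi G d x).card : ℝ) * ((n - (ball G x).card : ℕ) : ℝ) ^ m * (m * d)
        = (((hi G d x).card : ℝ) * d) * (m * ((n - (ball G x).card : ℕ) : ℝ) ^ m) := by ring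
      _ ≤ ((ball G x).card * t) * (m * ((n - (ball G x).card : ℕ) : ℝ) ^ m) := by
          apply mul_le_mul_of_nonneg_right h2; positivity
      _ = t * ((ball G x).card * m * ((n - (ball G x).card : ℕ) : ℝ) ^ m) := by ring
      _ ≤ t * ((n : ℝ) * (n : ℝ) ^ m) := by
          apply mul_le_mul_of_nonneg_left h1; positivity
      _ = (t : ℝ) * n * (n : ℝ) ^ m := by ring
  have htot : ∑ f : Fin m → V, ((∑ a : V, (if Cov G f a then 0 else (hi G d a).card) : ℕ) : ℝ) ≤
      ∑ _f : Fin m → V, (t : ℝ) * (n : ℝ) ^ 2 / (m * d) := by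
    rw [Finset.sum_const, Finset.card_univ, nsmul_eq_mul]
    simp only [Fintype.card_pi, Finset.prod_const, Finset.card_univ, Fintype.card_fin]
    push_cast
    rw [Finset.sum_comm]
    have h1 : ∀ a : V, ∑ f : Fin m → V, (if Cov G f a then (0 : ℝ) else ((hi G d a).card : ℝ)) =
        ((hi G d a).card : ℝ) * ((n - (ball G a).card : ℕ) : ℝ) ^ m := by
      intro a
      have h2 := card_miss G m a
      have h3 : ∀ f : Fin m → V, (if Cov G f a then (0 : ℝ) else ((hi G d a).card : ℝ)) =
          if ¬ Cov G f a then ((hi G d a).card : ℝ) else 0 := by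
        intro f
        by_cases h : Cov G f a <;> simp [h]
      rw [Finset.sum_congr rfl (fun f _ => h3 f), ← Finset.sum_filter, Finset.sum_const,
        nsmul_eq_mul, h2]
      push_cast
      ring
    rw [Finset.sum_congr rfl (fun a _ => h1 a)]
    calc ∑ a : V, ((hi G d a).card : ℝ) * ((n - (ball G a).card : ℕ) : ℝ) ^ m
        ≤ ∑ _a : V, (t : ℝ) * n / (m * d) * (n : ℝ) ^ m := Finset.sum_le_sum (fun a _ => hx a)
      _ = (n : ℝ) ^ m * ((t : ℝ) * (n : ℝ) ^ 2 / (m * d)) := by
          rw [Finset.sum_const, Finset.card_univ, nsmul_eq_mul, ← hnn]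
          ring
  have : Nonempty V := Fintype.card_pos_iff.mp hn
  obtain ⟨f, _, hf⟩ := Finset.exists_le_of_sum_le (s := (univ : Finset (Fin m → V)))
    Finset.univ_nonempty htot
  exact ⟨f, inferInstance, hf⟩

end fin

end MP81f3cc
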