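import Mathlib
import Pool.Agent.Lib.MP_81f3cc_co.Span

set_option autoImplicit false
set_option linter.unusedSectionVars false

namespace MP81f3cc

open Finset

variable {V : Type*} [Fintype V] [DecidableEq V] (G : SimpleGraph V) [DecidableRel G.Adj]

/-- number of common neighbours -/
def cod (x z : V) : ℕ := (G.neighborFinset x ∩ G.neighborFinset z).card

/-- pairs of common neighbours, over all `z` sharing more than `t` neighbours with `x` -/
def en (t : ℕ) (x : V) : ℕ := ∑ z : V, if x ≠ z ∧ t < cod G x z then (cod G x z).choose 2 else 0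

lemma self_mem_ball (x : V) : x ∈ ball G x := by
  simp [ball]

lemma sq_le_four_choose (c : ℕ) (hc : 2 ≤ c) : c ^ 2 ≤ 4 * c.choose 2 := by
  rw [Nat.choose_two_right]
  have h : 2 ∣ c * (c - 1) := (Nat.even_mul_pred_self c).two_dvd
  obtain ⟨k, hk⟩ := h
  rw [hk, Nat.mul_div_cancel_left _ (by norm_num)]
  obtain ⟨e, rfl⟩ : ∃ e, c = e + 2 := ⟨c - 2, by omega⟩
  have : (e + 2) * (e + 1) = 2 * k := by simpa using hk
  nlinarith

lemma dichotomy (t d : ℕ) (ht : 1 ≤ t) (x : V) :
    ((hi G d x).card : ℝ) * d ≤ 2 * t * (ball G x).card ∨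
      (((hi G d x).card : ℝ) * d) ^ 2 ≤ 16 * (ball G x).card * (en G t x) := by
  classical
  set H := hi G d x with hH
  set B := (ball G x).erase x with hB
  have h1 : H.card * d ≤ ∑ z ∈ B, (Finset.bipartiteBelow G.Adj H z).card := by
    rw [← Finset.sum_card_bipartiteAbove_eq_sum_card_bipartiteBelow]
    rw [← smul_eq_mul]
    apply Finset.card_nsmul_le_sum
    intro y hy
    rw [hH, hi, mem_filter, SimpleGraph.mem_neighborFinset] at hy
    have h1 : (G.neighborFinset y).erase x ⊆ Finset.bipartiteAbove G.Adj B y := by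
      intro z hz
      rw [mem_erase, SimpleGraph.mem_neighborFinset] at hz
      rw [Finset.mem_bipartiteAbove]
      refine ⟨?_, hz.2⟩
      rw [hB, mem_erase]
      refine ⟨hz.1, ?_⟩
      simp only [ball, mem_filter, mem_univ, true_and]
      let p : G.Walk z x := SimpleGraph.Walk.cons hz.2.symm
        (SimpleGraph.Walk.cons hy.1.symm SimpleGraph.Walk.nil)
      have := SimpleGraph.edist_le p
      simpa [p] using this
    have h2 := Finset.card_le_card h1
    have h3 : d ≤ ((G.neighborFinset y).erase x).card := by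
      rw [Finset.card_erase_of_mem (by
        rw [SimpleGraph.mem_neighborFinset]; exact hy.1.symm), SimpleGraph.card_neighborFinset_eq_degree]
      omega
    exact h3.trans h2
  have h2 : ∀ z ∈ B, (Finset.bipartiteBelow G.Adj H z).card ≤ cod G x z := by
    intro z _
    apply Finset.card_le_card
    intro y hy
    rw [Finset.mem_bipartiteBelow] at hy
    rw [hH, hi, mem_filter, SimpleGraph.mem_neighborFinset] at hy
    rw [mem_inter, SimpleGraph.mem_neighborFinset, SimpleGraph.mem_neighborFinset]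
    exact ⟨hy.1.1, hy.2.symm⟩
  have h3 : H.card * d ≤ ∑ z ∈ B, cod G x z := h1.trans (Finset.sum_le_sum h2)
  rw [← Finset.sum_filter_add_sum_filter_not B (fun z => cod G x z ≤ t)] at h3
  set S1 := ∑ z ∈ B.filter (fun z => cod G x z ≤ t), cod G x z with hS1
  set B2 := B.filter (fun z => ¬ cod G x z ≤ t) with hB2
  set S2 := ∑ z ∈ B2, cod G x z with hS2
  have hBs : B.card ≤ (ball G x).card := Finset.card_le_card (Finset.erase_subset _ _)
  have h4 : S1 ≤ t * (ball G x).card := by
    calc S1 ≤ (B.filter (fun z => cod G x z ≤ t)).card • t := by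
          apply Finset.sum_le_card_nsmul
          intro z hz
          exact (mem_filter.mp hz).2
      _ = (B.filter (fun z => cod G x z ≤ t)).card * t := by rw [smul_eq_mul]
      _ ≤ (ball G x).card * t := by
          apply Nat.mul_le_mul_right
          exact (Finset.card_filter_le B (fun z => cod G x z ≤ t)).trans hBs
      _ = _ := by ring
  have h5 : S2 ^ 2 ≤ (ball G x).card * (4 * en G t x) := by
    calc S2 ^ 2 ≤ B2.card * ∑ z ∈ B2, cod G x z ^ 2 := sq_sum_le_card_mul_sum_sq
      _ ≤ (ball G x).card * (4 * en G t x) := by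
          apply Nat.mul_le_mul
            ((Finset.card_filter_le B (fun z => ¬ cod G x z ≤ t)).trans hBs)
          rw [en, Finset.mul_sum]
          calc ∑ z ∈ B2, cod G x z ^ 2 ≤
                ∑ z ∈ B2, 4 * (if x ≠ z ∧ t < cod G x z then (cod G x z).choose 2 else 0) := by
                apply Finset.sum_le_sum
                intro z hz
                rw [hB2, mem_filter, hB, mem_erase] at hz
                have hz2 : t < cod G x z := by omega
                rw [if_pos ⟨Ne.symm hz.1.1, hz2⟩]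
                exact sq_le_four_choose _ (by omega)
            _ ≤ ∑ z : V, 4 * (if x ≠ z ∧ t < cod G x z then (cod G x z).choose 2 else 0) :=
                Finset.sum_le_sum_of_subset (Finset.subset_univ _)
  rcases le_total S2 S1 with h | h
  · left
    have h6 : H.card * d ≤ 2 * t * (ball G x).card := by
      calc H.card * d ≤ S1 + S2 := h3
        _ ≤ 2 * S1 := by omega
        _ ≤ 2 * (t * (ball G x).card) := by omega
        _ = _ := by ring
    exact_mod_cast h6
  · right
    have h6 : (H.card * d) ^ 2 ≤ 16 * (ball G x).card * en G t x := by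
      calc (H.card * d) ^ 2 ≤ (2 * S2) ^ 2 := Nat.pow_le_pow_left (by omega) 2
        _ = 4 * S2 ^ 2 := by ring
        _ ≤ 4 * ((ball G x).card * (4 * en G t x)) := by gcongr
        _ = _ := by ring
    exact_mod_cast h6

/-- choosing good roots, second version -/
lemma exists_roots' (t d : ℕ) (hd : 0 < d) (ht : 1 ≤ t) (hn : 0 < Fintype.card V) :
    ∃ f : Fin d → V, ∃ _ : DecidablePred (Cov G f),
      ((∑ a : V, (if Cov G f a then 0 else (hi G d a).card) : ℕ) : ℝ) ≤
        2 * (t : ℝ) * (Fintype.card V : ℝ) ^ 2 / d ^ 2 +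
        4 * (Fintype.card V : ℝ) * √((∑ x : V, en G t x : ℕ) / (d : ℝ) ^ 3) := by
  classical
  set n := Fintype.card V with hnn
  have hnR : (0 : ℝ) < n := by exact_mod_cast hn
  have hdR : (0 : ℝ) < d := by exact_mod_cast hd
  have hx : ∀ x : V, ((hi G d x).card : ℝ) * ((n - (ball G x).card : ℕ) : ℝ) ^ d ≤
      (2 * (t : ℝ) * n / d ^ 2 + 4 * √(n * (en G t x) / d ^ 3)) * (n : ℝ) ^ d := by
    intro x
    have hb : (ball G x).card ≤ n := by
      rw [hnn]; exact Finset.card_le_univ _
    have hs : (0 : ℝ) < (ball G x).card := by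
      exact_mod_cast Finset.card_pos.mpr ⟨x, self_mem_ball G x⟩
    have h1 := pow_bound (ball G x).card n d hb hn
    set s : ℝ := ((ball G x).card : ℝ) with hsdef
    set h : ℝ := ((hi G d x).card : ℝ) with hhdef
    have hh0 : 0 ≤ h := by rw [hhdef]; positivity
    set q : ℝ := (en G t x : ℝ) with hq
    have hq0 : 0 ≤ q := by rw [hq]; positivity
    set P : ℝ := ((n - (ball G x).card : ℕ) : ℝ) ^ d with hP
    have hP0 : 0 ≤ P := by rw [hP]; positivity
    have hPn : P ≤ (n : ℝ) ^ d := by
      rw [hP]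
      gcongr
      exact Nat.sub_le _ _
    have hN : (0 : ℝ) < (n : ℝ) ^ d := by positivity
    have hsq : 0 ≤ √(n * q / d ^ 3) := Real.sqrt_nonneg _
    rcases dichotomy G t d ht x with hc | hc
    · have h2 : h * P ≤ (2 * (t : ℝ) * n / d ^ 2) * (n : ℝ) ^ d := by
        rw [div_mul_eq_mul_div, le_div_iff₀ (by positivity)]
        have h3 : h * d ≤ 2 * t * s := hc
        calc h * P * d ^ 2 = (h * d) * (P * d) := by ring
          _ ≤ (2 * t * s) * (P * d) := by gcongr
          _ = 2 * t * (s * d * P) := by ring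
          _ ≤ 2 * t * ((n : ℝ) * (n : ℝ) ^ d) := by gcongr
          _ = _ := by ring
      calc h * P ≤ (2 * (t : ℝ) * n / d ^ 2) * (n : ℝ) ^ d := h2
        _ ≤ _ := by
          gcongr
          linarith
    · have h3 : (h * d) ^ 2 ≤ 16 * s * q := hc
      have h4 : (h * P) ^ 2 ≤ (4 * √(n * q / d ^ 3) * (n : ℝ) ^ d) ^ 2 := by
        rw [mul_pow (4 * √(n * q / d ^ 3)), mul_pow (4 : ℝ), Real.sq_sqrt (by positivity)]
        have h5 : (h * P) ^ 2 * d ^ 3 ≤ 16 * n * q * ((n : ℝ) ^ d) ^ 2 := by
          calc (h * P) ^ 2 * d ^ 3 = (h * d) ^ 2 * (d * P) * P := by ring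
            _ ≤ (16 * s * q) * (d * P) * P := by gcongr
            _ = 16 * q * (s * d * P) * P := by ring
            _ ≤ 16 * q * ((n : ℝ) * (n : ℝ) ^ d) * (n : ℝ) ^ d := by gcongr
            _ = _ := by ring
        have h6 : (4 : ℝ) ^ 2 * (n * q / d ^ 3) * ((n : ℝ) ^ d) ^ 2 =
            (16 * n * q * ((n : ℝ) ^ d) ^ 2) / d ^ 3 := by
          ring
        rw [h6, le_div_iff₀ (by positivity)]
        exact h5
      have h5 : h * P ≤ 4 * √(n * q / d ^ 3) * (n : ℝ) ^ d :=
        le_of_sq_le_sq h4 (by positivity)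
      calc h * P ≤ 4 * √(n * q / d ^ 3) * (n : ℝ) ^ d := h5
        _ ≤ _ := by
          gcongr
          have : 0 ≤ 2 * (t : ℝ) * n / d ^ 2 := by positivity
          linarith
  have hCS : ∑ x : V, √((n : ℝ) * (en G t x) / d ^ 3) ≤
      n * √((∑ x : V, en G t x : ℕ) / (d : ℝ) ^ 3) := by
    apply le_of_sq_le_sq _ (by positivity)
    rw [mul_pow, Real.sq_sqrt (by positivity)]
    calc (∑ x : V, √((n : ℝ) * (en G t x) / d ^ 3)) ^ 2
        ≤ (univ : Finset V).card * ∑ x : V, √((n : ℝ) * (en G t x) / d ^ 3) ^ 2 :=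
          sq_sum_le_card_mul_sum_sq
      _ = n * ∑ x : V, (n : ℝ) * (en G t x) / d ^ 3 := by
          rw [Finset.card_univ, ← hnn]
          congr 1
          apply Finset.sum_congr rfl
          intro x _
          rw [Real.sq_sqrt (by positivity)]
      _ = (n : ℝ) ^ 2 * ((∑ x : V, en G t x : ℕ) / (d : ℝ) ^ 3) := by
          rw [← Finset.sum_div, ← Finset.mul_sum]
          push_cast
          ring
      _ ≤ _ := le_refl _
  have htot : ∑ f : Fin d → V, ((∑ a : V, (if Cov G f a then 0 else (hi G d a).card) : ℕ) : ℝ) ≤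
      ∑ _f : Fin d → V, (2 * (t : ℝ) * (n : ℝ) ^ 2 / d ^ 2 +
        4 * (n : ℝ) * √((∑ x : V, en G t x : ℕ) / (d : ℝ) ^ 3)) := by
    rw [Finset.sum_const, Finset.card_univ, nsmul_eq_mul]
    simp only [Fintype.card_pi, Finset.prod_const, Finset.card_univ, Fintype.card_fin]
    push_cast
    rw [Finset.sum_comm]
    have h1 : ∀ a : V, ∑ f : Fin d → V, (if Cov G f a then (0 : ℝ) else ((hi G d a).card : ℝ)) =
        ((hi G d a).card : ℝ) * ((n - (ball G a).card : ℕ) : ℝ) ^ d := by
      intro a
      have h2 := card_miss G d a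
      have h3 : ∀ f : Fin d → V, (if Cov G f a then (0 : ℝ) else ((hi G d a).card : ℝ)) =
          if ¬ Cov G f a then ((hi G d a).card : ℝ) else 0 := by
        intro f
        by_cases h : Cov G f a <;> simp [h]
      rw [Finset.sum_congr rfl (fun f _ => h3 f), ← Finset.sum_filter, Finset.sum_const,
        nsmul_eq_mul, h2]
      push_cast
      ring
    rw [Finset.sum_congr rfl (fun a _ => h1 a)]
    calc ∑ a : V, ((hi G d a).card : ℝ) * ((n - (ball G a).card : ℕ) : ℝ) ^ d
        ≤ ∑ a : V, (2 * (t : ℝ) * n / d ^ 2 + 4 * √(n * (en G t a) / d ^ 3)) * (n : ℝ) ^ d :=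
          Finset.sum_le_sum (fun a _ => hx a)
      _ = (n * (2 * (t : ℝ) * n / d ^ 2) + 4 * ∑ a : V, √((n : ℝ) * (en G t a) / d ^ 3)) *
            (n : ℝ) ^ d := by
          rw [← Finset.sum_mul, Finset.sum_add_distrib, Finset.sum_const, Finset.card_univ,
            nsmul_eq_mul, ← hnn, ← Finset.mul_sum]
      _ ≤ (n * (2 * (t : ℝ) * n / d ^ 2) + 4 * (n * √((∑ x : V, en G t x : ℕ) / (d : ℝ) ^ 3))) *
            (n : ℝ) ^ d := by gcongr
      _ = (n : ℝ) ^ d * (2 * (t : ℝ) * (n : ℝ) ^ 2 / d ^ 2 +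
            4 * (n : ℝ) * √((∑ x : V, (en G t x : ℝ)) / (d : ℝ) ^ 3)) := by
          push_cast
          ring
  have : Nonempty V := Fintype.card_pos_iff.mp hn
  obtain ⟨f, _, hf⟩ := Finset.exists_le_of_sum_le (s := (univ : Finset (Fin d → V)))
    Finset.univ_nonempty htot
  exact ⟨f, inferInstance, hf⟩

end MP81f3cc
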