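import Mathlib
import Pool.Agent.Lib.MP_81f3cc_co.Energy

set_option autoImplicit false

namespace MP81f3cc

open Finset

/-- The sum, over all ordered pairs `(u, v)` of distinct vertices with more than `t` common
neighbours, of the number of unordered pairs of common neighbours of `u` and `v`. -/
noncomputable def excess {n : ℕ} (t : ℕ) (G : SimpleGraph (Fin n)) : ℕ :=
  ∑ u : Fin n, ∑ v : Fin n,
    if u ≠ v ∧ t < (G.commonNeighbors u v).ncard then
      ((G.commonNeighbors u v).ncard).choose 2 else 0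

lemma cod_eq {n : ℕ} (G : SimpleGraph (Fin n)) [DecidableRel G.Adj] (u v : Fin n) :
    (G.commonNeighbors u v).ncard = cod G u v := by
  classical
  have h2 : (G.commonNeighbors u v) =
      ((G.neighborFinset u ∩ G.neighborFinset v : Finset (Fin n)) : Set (Fin n)) := by
    ext z
    simp [SimpleGraph.mem_commonNeighbors]
  rw [h2, Set.ncard_coe_finset, cod]

lemma excess_eq {n : ℕ} (t : ℕ) (G : SimpleGraph (Fin n)) [DecidableRel G.Adj] :
    excess t G = ∑ x : Fin n, en G t x := by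
  unfold excess en
  simp only [cod_eq]

/-- Sanity check: `2 * excess 1 G` is the number of labelled 4-cycles `a - b - c - d - a`
(so `excess 1 G` is four times the number of 4-cycles of `G`). -/
lemma two_mul_excess_one {n : ℕ} (G : SimpleGraph (Fin n)) [DecidableRel G.Adj] :
    2 * excess 1 G = Fintype.card {p : (Fin n × Fin n) × (Fin n × Fin n) //
      p.1.1 ≠ p.1.2 ∧ p.2.1 ≠ p.2.2 ∧ G.Adj p.1.1 p.2.1 ∧ G.Adj p.2.1 p.1.2 ∧
        G.Adj p.1.2 p.2.2 ∧ G.Adj p.2.2 p.1.1} := by
  classical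
  rw [excess_eq, Fintype.card_subtype, Finset.card_filter, Fintype.sum_prod_type,
    Fintype.sum_prod_type]
  unfold en
  rw [Finset.mul_sum]
  apply Finset.sum_congr rfl
  intro u _
  rw [Finset.mul_sum]
  apply Finset.sum_congr rfl
  intro v _
  by_cases huv : u = v
  · subst huv; simp
  have h1 : (∑ q : Fin n × Fin n, if u ≠ v ∧ q.1 ≠ q.2 ∧ G.Adj u q.1 ∧ G.Adj q.1 v ∧
        G.Adj v q.2 ∧ G.Adj q.2 u then 1 else 0) =
      ((G.neighborFinset u ∩ G.neighborFinset v).offDiag).card := by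
    rw [← Finset.card_filter]
    congr 1
    ext q
    simp only [mem_filter, mem_univ, true_and, mem_offDiag, mem_inter,
      SimpleGraph.mem_neighborFinset]
    constructor
    · rintro ⟨_, h2, h3, h4, h5, h6⟩
      exact ⟨⟨h3, h4.symm⟩, ⟨h6.symm, h5⟩, h2⟩
    · rintro ⟨⟨h3, h4⟩, ⟨h6, h5⟩, h2⟩
      exact ⟨huv, h2, h3, h4.symm, h5, h6.symm⟩
  have h2 : (∑ x : Fin n × Fin n, if (u, v).1 ≠ (u, v).2 ∧ x.1 ≠ x.2 ∧ G.Adj (u, v).1 x.1 ∧
      G.Adj x.1 (u, v).2 ∧ G.Adj (u, v).2 x.2 ∧ G.Adj x.2 (u, v).1 then 1 else 0) =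
      ((G.neighborFinset u ∩ G.neighborFinset v).offDiag).card := h1
  refine Eq.trans ?_ h2.symm
  rw [Finset.offDiag_card]
  change 2 * (if u ≠ v ∧ 1 < cod G u v then (cod G u v).choose 2 else 0) =
    cod G u v * cod G u v - cod G u v
  have h3 : 2 * (cod G u v).choose 2 = cod G u v * cod G u v - cod G u v := by
    rw [Nat.choose_two_right, Nat.mul_div_cancel' (Nat.even_mul_pred_self _).two_dvd,
      Nat.mul_sub, Nat.mul_one]
  by_cases hc : 1 < cod G u v
  · rw [if_pos ⟨huv, hc⟩, h3]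
  · rw [if_neg (fun h => hc h.2)]
    interval_cases hh : cod G u v <;> simp

end MP81f3cc
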