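import Mathlib

/-!
# Additive `+4` spanners with `O(n^(4/3))` edges: graphs with few four-cycles

Proof idea: sample about `n^(1/3)` vertices, put a breadth first search tree of each of them into
`H`, and keep every edge of `G` such that no sampled vertex is within distance two of one of its
endpoints.  The stretch is at most four.  An edge `e` is kept with probability at most
`exp (- |B(e)| / n^(2/3))`, where `B(e)` is the set of vertices within distance two of an endpoint.
In a graph with small codegrees (or with few four-cycles) a vertex with `h` neighbours of degree at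
least `n^(1/3)` has a ball of radius two with at least a constant times `h n^(1/3)` elements, and
`h * exp (- c h / n^(1/3))` is at most a constant times `n^(1/3)`.
-/

set_option autoImplicit false

namespace Pool.Agent.Lib.MP_81f3cc_co.FourCycles

open scoped Classical

variable {V : Type*}

/-- breadth first search tree -/
lemma bfs (G : SimpleGraph V) (s : V) :
    ∃ p : V → V, ∀ T : SimpleGraph V, (∀ v, G.Adj v (p v) → T.Adj v (p v)) →
      ∀ v, T.edist s v ≤ G.edist s v := by
  have key : ∀ v, ∃ w, G.edist s v ≠ ⊤ → v ≠ s → G.Adj v w ∧ G.edist s w + 1 = G.edist s v := by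
    intro v
    by_cases h : G.edist s v ≠ ⊤ ∧ v ≠ s
    · obtain ⟨h1, h2⟩ := h
      rw [SimpleGraph.edist_comm] at h1
      obtain ⟨q, hq⟩ := SimpleGraph.exists_walk_of_edist_ne_top h1
      cases q with
      | nil => exact absurd rfl h2
      | cons hadj q' =>
        rename_i w
        refine ⟨w, fun _ _ => ⟨hadj, ?_⟩⟩
        apply le_antisymm
        · rw [SimpleGraph.edist_comm (u := s) (v := v), ← hq, SimpleGraph.Walk.length_cons]
          push_cast
          gcongr
          rw [SimpleGraph.edist_comm]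
          exact q'.edist_le
        · calc G.edist s v ≤ G.edist s w + G.edist w v := SimpleGraph.edist_triangle
            _ = G.edist s w + 1 := by
              congr 1
              rw [SimpleGraph.edist_eq_one_iff_adj]
              exact hadj.symm
    · exact ⟨v, fun h1 h2 => absurd ⟨h1, h2⟩ h⟩
  choose p hp using key
  refine ⟨p, fun T hT => ?_⟩
  have main : ∀ k : ℕ, ∀ v, G.edist s v = k → T.edist s v ≤ k := by
    intro k
    induction k with
    | zero =>
      intro v hv
      have : s = v := by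
        rw [← SimpleGraph.edist_eq_zero_iff (G := G)]
        exact_mod_cast hv
      subst this
      simp
    | succ k ih =>
      intro v hv
      have h1 : G.edist s v ≠ ⊤ := by rw [hv]; exact ENat.natCast_ne_top _
      have h2 : v ≠ s := by
        rintro rfl
        simp at hv
        have : (0 : ℕ∞) = ((k + 1 : ℕ) : ℕ∞) := by exact_mod_cast hv
        exact absurd (by exact_mod_cast this) (Nat.succ_ne_zero k).symm
      obtain ⟨h3, h4⟩ := hp v h1 h2
      have h5 : G.edist s (p v) = k := by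
        rw [hv] at h4
        push_cast at h4
        exact (ENat.add_left_injective_of_ne_top (by decide : (1 : ℕ∞) ≠ ⊤)) h4
      calc T.edist s v ≤ T.edist s (p v) + T.edist (p v) v := SimpleGraph.edist_triangle
        _ ≤ k + 1 := by
          gcongr
          · exact ih _ h5
          · exact le_of_eq ((SimpleGraph.edist_eq_one_iff_adj).2 (hT v h3).symm)
        _ = ((k + 1 : ℕ) : ℕ∞) := by push_cast; rfl
  intro v
  by_cases h : G.edist s v = ⊤
  · rw [h]; exact le_top
  · obtain ⟨k, hk⟩ := ENat.ne_top_iff_exists.1 h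
    rw [← hk]
    exact main k v hk.symm

/-- routing through sampled vertices -/
lemma stretch (G H : SimpleGraph V) (S : Set V)
    (h1 : ∀ s ∈ S, ∀ v, H.edist s v ≤ G.edist s v)
    (h2 : ∀ x y, G.Adj x y → (∀ s ∈ S, ¬ (G.edist x s ≤ 2 ∨ G.edist y s ≤ 2)) → H.Adj x y)
    (u v : V) : H.edist u v ≤ G.edist u v + 4 := by
  by_cases h : G.edist u v = ⊤
  · rw [h]; simp
  · obtain ⟨p, hp⟩ := SimpleGraph.exists_walk_of_edist_ne_top h
    by_cases hall : ∀ e ∈ p.edges, e ∈ H.edgeSet
    · have := (p.transfer H hall).edist_le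
      rw [SimpleGraph.Walk.length_transfer, hp] at this
      exact this.trans (by simp)
    · rw [not_forall] at hall; simp only [Classical.not_imp] at hall
      obtain ⟨e, he, heH⟩ := hall
      induction e using Sym2.ind with
      | _ x y =>
      have hxy : G.Adj x y := p.adj_of_mem_edges he
      have hx : x ∈ p.support := p.fst_mem_support_of_mem_edges he
      have hy : y ∈ p.support := p.snd_mem_support_of_mem_edges he
      have : ∃ s ∈ S, G.edist x s ≤ 2 ∨ G.edist y s ≤ 2 := by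
        by_contra hc
        apply heH
        rw [SimpleGraph.mem_edgeSet]
        apply h2 x y hxy
        intro s hs hor
        exact hc ⟨s, hs, hor⟩
      have key : ∃ w ∈ p.support, ∃ s ∈ S, G.edist w s ≤ 2 := by
        obtain ⟨s, hs, hor⟩ := this
        rcases hor with hor | hor
        · exact ⟨x, hx, s, hs, hor⟩
        · exact ⟨y, hy, s, hs, hor⟩
      obtain ⟨w, hw, s, hs, hws⟩ := key
      have e1 : G.edist u w ≤ (p.takeUntil w hw).length := (p.takeUntil w hw).edist_le
      have e2 : G.edist w v ≤ (p.dropUntil w hw).length := (p.dropUntil w hw).edist_le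
      have e3 : (p.takeUntil w hw).length + (p.dropUntil w hw).length = p.length := by
        conv_rhs => rw [← p.take_spec hw, SimpleGraph.Walk.length_append]
      calc H.edist u v ≤ H.edist u s + H.edist s v := SimpleGraph.edist_triangle
        _ ≤ G.edist u s + G.edist s v := by
          apply add_le_add
          · rw [SimpleGraph.edist_comm, SimpleGraph.edist_comm (u := u)]
            exact h1 s hs u
          · exact h1 s hs v
        _ ≤ (G.edist u w + G.edist w s) + (G.edist s w + G.edist w v) := by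
          gcongr
          · exact SimpleGraph.edist_triangle
          · exact SimpleGraph.edist_triangle
        _ ≤ ((p.takeUntil w hw).length + 2) + (2 + (p.dropUntil w hw).length) := by
          gcongr
          rw [SimpleGraph.edist_comm]
          exact hws
        _ = (((p.takeUntil w hw).length + (p.dropUntil w hw).length : ℕ) : ℕ∞) + 4 := by
          push_cast
          ring
        _ = G.edist u v + 4 := by rw [e3, hp]

/-- counting: the average number of elements `e` of `E` whose set `U e` is missed by `m` samples -/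
lemma averaging [Fintype V] [Nonempty V] {ι : Type*} (E : Finset ι) (U : ι → Finset V) (m : ℕ) :
    ∃ f : Fin m → V, (Fintype.card V : ℝ) ^ m * ((E.filter (fun e => ∀ i, f i ∉ U e)).card : ℝ) ≤
      ∑ e ∈ E, ((Fintype.card V : ℝ) - (U e).card) ^ m := by
  by_contra hc
  push Not at hc
  have hsum : ∑ f : Fin m → V, ((E.filter (fun e => ∀ i, f i ∉ U e)).card : ℝ) =
      ∑ e ∈ E, ((Fintype.card V : ℝ) - (U e).card) ^ m := by
    have : ∀ f : Fin m → V, ((E.filter (fun e => ∀ i, f i ∉ U e)).card : ℝ) =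
        ∑ e ∈ E, if (∀ i, f i ∉ U e) then (1 : ℝ) else 0 := by
      intro f
      rw [Finset.sum_ite]
      simp
    simp_rw [this]
    rw [Finset.sum_comm]
    refine Finset.sum_congr rfl fun e _ => ?_
    rw [Finset.sum_ite]
    simp only [Finset.sum_const, nsmul_eq_mul, mul_one, mul_zero, add_zero]
    have h1 : (Finset.univ.filter (fun f : Fin m → V => ∀ i, f i ∉ U e)) =
        Fintype.piFinset (fun _ : Fin m => (U e)ᶜ) := by
      ext f
      simp [Fintype.mem_piFinset]
    rw [h1, Fintype.card_piFinset]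
    simp only [Finset.card_compl, Finset.prod_const, Finset.card_univ, Fintype.card_fin]
    push_cast
    rw [Nat.cast_sub (Finset.card_le_univ _)]
  have hcard : (Fintype.card (Fin m → V) : ℝ) = (Fintype.card V : ℝ) ^ m := by
    simp
  set A := ∑ e ∈ E, ((Fintype.card V : ℝ) - (U e).card) ^ m with hA
  have hlt : ∑ _f : Fin m → V, A < ∑ f : Fin m → V,
      (Fintype.card V : ℝ) ^ m * ((E.filter (fun e => ∀ i, f i ∉ U e)).card : ℝ) := by
    apply Finset.sum_lt_sum_of_nonempty Finset.univ_nonempty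
    intro f _
    exact hc f
  rw [← Finset.mul_sum, hsum, Finset.sum_const, nsmul_eq_mul, Finset.card_univ, hcard] at hlt
  exact lt_irrefl _ hlt

/-- sums over edges bounded by sums over ordered pairs -/
lemma sum_image_le {α β : Type*} [DecidableEq β] (P : Finset α) (f : α → β) (w : β → ℝ) (hw : ∀ b, 0 ≤ w b) :
    ∑ e ∈ P.image f, w e ≤ ∑ p ∈ P, w (f p) := by
  rw [← Finset.sum_fiberwise_of_maps_to (g := f) (t := P.image f)
    (fun x hx => Finset.mem_image_of_mem f hx)]
  apply Finset.sum_le_sum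
  intro e he
  obtain ⟨p, hp, rfl⟩ := Finset.mem_image.1 he
  have : w (f p) = ∑ q ∈ ({p} : Finset α), w (f q) := by simp
  rw [this]
  apply Finset.sum_le_sum_of_subset_of_nonneg
  · intro q hq
    rw [Finset.mem_singleton] at hq
    subst hq
    simp [hp]
  · intro q _ _
    exact hw _

lemma sum_biUnion_le' {ι β : Type*} [DecidableEq β] (s : Finset ι) (g : ι → Finset β)
    (w : β → ℝ) (hw : ∀ b, 0 ≤ w b) : ∑ e ∈ s.biUnion g, w e ≤ ∑ i ∈ s, ∑ e ∈ g i, w e := by
  induction s using Finset.induction_on with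
  | empty => simp
  | insert a s ha ih =>
    rw [Finset.biUnion_insert, Finset.sum_insert ha]
    have h1 := Finset.sum_union_inter (s₁ := g a) (s₂ := s.biUnion g) (f := w)
    have h2 : 0 ≤ ∑ e ∈ g a ∩ s.biUnion g, w e := Finset.sum_nonneg (fun e _ => hw e)
    linarith

/-- the set of vertices at distance at most two from `x` -/
noncomputable def ball [Fintype V] (G : SimpleGraph V) (x : V) : Finset V :=
  Finset.univ.filter (fun z => G.edist x z ≤ 2)

/-- the set of vertices at distance at most two from an endpoint of `e` -/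
noncomputable def eball [Fintype V] (G : SimpleGraph V) (e : Sym2 V) : Finset V :=
  Finset.univ.filter (fun z => ∃ x ∈ e, G.edist x z ≤ 2)

/-- degree -/
noncomputable def deg [Fintype V] (F : SimpleGraph V) (x : V) : ℕ :=
  (Finset.univ.filter (fun y => F.Adj x y)).card

/-- number of neighbours of degree larger than `D` -/
noncomputable def hdeg [Fintype V] (F : SimpleGraph V) (D : ℕ) (x : V) : ℕ :=
  (Finset.univ.filter (fun y => F.Adj x y ∧ D < deg F y)).card

/-- the general bound for one piece -/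
lemma piece [Fintype V] (G F : SimpleGraph V) [Fintype F.edgeSet] (c : ℝ) (hc : 0 ≤ c) (D : ℕ) (a : V → ℝ)
    (h0 : ∀ x, 0 ≤ a x)
    (ha : ∀ x, D < deg F x → (hdeg F D x : ℝ) * Real.exp (-((ball G x).card : ℝ) * c) ≤ a x) :
    ∑ e ∈ F.edgeFinset, Real.exp (-((eball G e).card : ℝ) * c) ≤
      (Fintype.card V : ℝ) * D + ∑ x, a x := by
  set P1 : Finset (V × V) := Finset.univ.filter (fun p => F.Adj p.1 p.2 ∧ ¬ D < deg F p.1)
  set P2 : Finset (V × V) := Finset.univ.filter
    (fun p => F.Adj p.1 p.2 ∧ D < deg F p.1 ∧ D < deg F p.2)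
  set f : V × V → Sym2 V := fun p => s(p.1, p.2)
  have hsub : F.edgeFinset ⊆ (P1 ∪ P2).image f := by
    intro e he
    rw [SimpleGraph.mem_edgeFinset] at he
    induction e using Sym2.ind with
    | _ x y =>
    rw [SimpleGraph.mem_edgeSet] at he
    rw [Finset.mem_image]
    by_cases hx : D < deg F x
    · by_cases hy : D < deg F y
      · exact ⟨(x, y), by simp [P1, P2, he, hx, hy], rfl⟩
      · exact ⟨(y, x), by simp [P1, P2, he.symm, not_lt.1 hy], Sym2.eq_swap⟩
    · exact ⟨(x, y), by simp [P1, P2, he, not_lt.1 hx], rfl⟩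
  have hw : ∀ e : Sym2 V, 0 ≤ Real.exp (-((eball G e).card : ℝ) * c) := fun e => (Real.exp_pos _).le
  calc ∑ e ∈ F.edgeFinset, Real.exp (-((eball G e).card : ℝ) * c)
      ≤ ∑ e ∈ (P1 ∪ P2).image f, Real.exp (-((eball G e).card : ℝ) * c) :=
        Finset.sum_le_sum_of_subset_of_nonneg hsub (fun e _ _ => hw e)
    _ ≤ ∑ p ∈ P1 ∪ P2, Real.exp (-((eball G (f p)).card : ℝ) * c) :=
        sum_image_le _ f _ hw
    _ ≤ ∑ p ∈ P1, Real.exp (-((eball G (f p)).card : ℝ) * c) +
        ∑ p ∈ P2, Real.exp (-((eball G (f p)).card : ℝ) * c) := by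
        rw [← Finset.sum_union_inter]
        have : 0 ≤ ∑ p ∈ P1 ∩ P2, Real.exp (-((eball G (f p)).card : ℝ) * c) :=
          Finset.sum_nonneg (fun p _ => hw _)
        linarith
    _ ≤ (Fintype.card V : ℝ) * D + ∑ x, a x := by
        apply add_le_add
        · calc ∑ p ∈ P1, Real.exp (-((eball G (f p)).card : ℝ) * c)
              ≤ ∑ p ∈ P1, (1 : ℝ) := by
                apply Finset.sum_le_sum
                intro p _
                rw [Real.exp_le_one_iff]
                have : (0 : ℝ) ≤ ((eball G (f p)).card : ℝ) := Nat.cast_nonneg _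
                nlinarith
            _ = ∑ x : V, ∑ y : V, if (F.Adj x y ∧ ¬ D < deg F x) then (1 : ℝ) else 0 := by
                rw [← Finset.sum_product', Finset.univ_product_univ, Finset.sum_ite]
                simp [P1]
            _ ≤ ∑ _x : V, (D : ℝ) := by
                apply Finset.sum_le_sum
                intro x _
                by_cases hx : D < deg F x
                · simp [hx]
                · simp only [hx, not_false_eq_true, and_true]
                  rw [Finset.sum_ite]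
                  simp only [Finset.sum_const, nsmul_eq_mul, mul_one, mul_zero, add_zero]
                  have : deg F x ≤ D := not_lt.1 hx
                  exact_mod_cast this
            _ = (Fintype.card V : ℝ) * D := by
                simp
        · calc ∑ p ∈ P2, Real.exp (-((eball G (f p)).card : ℝ) * c)
              ≤ ∑ p ∈ P2, Real.exp (-((ball G p.1).card : ℝ) * c) := by
                apply Finset.sum_le_sum
                intro p _
                apply Real.exp_le_exp.2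
                have h1 : (ball G p.1).card ≤ (eball G (f p)).card := by
                  apply Finset.card_le_card
                  intro z hz
                  simp only [ball, Finset.mem_filter, Finset.mem_univ, true_and] at hz
                  simp only [eball, Finset.mem_filter, Finset.mem_univ, true_and, f]
                  exact ⟨p.1, Sym2.mem_mk_left _ _, hz⟩
                have h2 : ((ball G p.1).card : ℝ) ≤ ((eball G (f p)).card : ℝ) := by
                  exact_mod_cast h1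
                nlinarith
            _ = ∑ x : V, ∑ y : V, if (F.Adj x y ∧ D < deg F x ∧ D < deg F y) then
                  Real.exp (-((ball G x).card : ℝ) * c) else 0 := by
                rw [← Finset.sum_product', Finset.univ_product_univ, Finset.sum_ite]
                simp [P2]
            _ ≤ ∑ x : V, a x := by
                apply Finset.sum_le_sum
                intro x _
                by_cases hx : D < deg F x
                · simp only [hx, true_and]
                  rw [Finset.sum_ite]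
                  simp only [Finset.sum_const, nsmul_eq_mul, mul_zero, add_zero]
                  exact ha x hx
                · simp [hx, h0]

/-- number of middle vertices of high degree between `x` and `z` -/
noncomputable def cnt [Fintype V] (F : SimpleGraph V) (D : ℕ) (x z : V) : ℕ :=
  (Finset.univ.filter (fun y => (F.Adj x y ∧ D < deg F y) ∧ F.Adj y z)).card

lemma W_ge [Fintype V] (F : SimpleGraph V) (D : ℕ) (x : V) :
    hdeg F D x * D ≤ ∑ z ∈ Finset.univ.erase x, cnt F D x z := by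
  have h1 : ∑ z ∈ Finset.univ.erase x, cnt F D x z =
      ∑ y ∈ Finset.univ.filter (fun y => F.Adj x y ∧ D < deg F y),
        ((Finset.univ.erase x).filter (fun z => F.Adj y z)).card := by
    simp only [cnt, Finset.card_filter, Finset.sum_filter]
    rw [Finset.sum_comm]
    refine Finset.sum_congr rfl fun y _ => ?_
    by_cases h : F.Adj x y ∧ D < deg F y
    · simp [h]
    · simp [h]
  rw [h1]
  have h2 : hdeg F D x * D = ∑ _y ∈ Finset.univ.filter (fun y => F.Adj x y ∧ D < deg F y), D := by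
    rw [Finset.sum_const, smul_eq_mul]
    rfl
  rw [h2]
  apply Finset.sum_le_sum
  intro y hy
  simp only [Finset.mem_filter, Finset.mem_univ, true_and] at hy
  rw [Finset.filter_erase, Finset.card_erase_of_mem]
  · have : D < (Finset.univ.filter (fun z => F.Adj y z)).card := hy.2
    omega
  · simp [hy.1.symm]

lemma mem_ball_of_cnt [Fintype V] (G F : SimpleGraph V) (hFG : F ≤ G) (D : ℕ) (x z : V)
    (h : 0 < cnt F D x z) : z ∈ ball G x := by
  obtain ⟨y, hy⟩ := Finset.card_pos.1 h
  simp only [Finset.mem_filter, Finset.mem_univ, true_and] at hy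
  simp only [ball, Finset.mem_filter, Finset.mem_univ, true_and]
  calc G.edist x z ≤ G.edist x y + G.edist y z := SimpleGraph.edist_triangle
    _ = 1 + 1 := by
      rw [(SimpleGraph.edist_eq_one_iff_adj).2 (hFG hy.1.1),
        (SimpleGraph.edist_eq_one_iff_adj).2 (hFG hy.2)]
    _ = 2 := by norm_num

lemma ballA [Fintype V] (G F : SimpleGraph V) (hFG : F ≤ G) (D t : ℕ)
    (ht : ∀ x z : V, x ≠ z → Nat.card {y : V // F.Adj x y ∧ F.Adj z y} ≤ t) (x : V) :
    hdeg F D x * D ≤ t * (ball G x).card := by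
  refine (W_ge F D x).trans ?_
  calc ∑ z ∈ Finset.univ.erase x, cnt F D x z
      ≤ ∑ z ∈ Finset.univ.erase x, if z ∈ ball G x then t else 0 := by
        apply Finset.sum_le_sum
        intro z hz
        rcases Nat.eq_zero_or_pos (cnt F D x z) with h0 | h0
        · rw [h0]; exact Nat.zero_le _
        · rw [if_pos (mem_ball_of_cnt G F hFG D x z h0)]
          refine le_trans ?_ (ht x z (Finset.ne_of_mem_erase hz).symm)
          rw [Nat.card_eq_fintype_card, Fintype.card_subtype]
          apply Finset.card_le_card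
          intro y hy
          simp only [Finset.mem_filter, Finset.mem_univ, true_and] at hy ⊢
          exact ⟨hy.1.1, hy.2.symm⟩
    _ ≤ ∑ z : V, if z ∈ ball G x then t else 0 :=
        Finset.sum_le_sum_of_subset (Finset.erase_subset _ _)
    _ = t * (ball G x).card := by
        rw [Finset.sum_ite_mem, Finset.univ_inter, Finset.sum_const, smul_eq_mul, mul_comm]

/-- number of (labelled) four-cycles starting at `x` -/
noncomputable def cyc [Fintype V] (F : SimpleGraph V) (x : V) : ℕ :=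
  (Finset.univ.filter (fun p : V × V × V => F.Adj x p.1 ∧ F.Adj p.1 p.2.1 ∧ F.Adj p.2.1 p.2.2 ∧
    F.Adj p.2.2 x ∧ x ≠ p.2.1 ∧ p.1 ≠ p.2.2)).card

lemma Q_le [Fintype V] (F : SimpleGraph V) (D : ℕ) (x : V) :
    ∑ z ∈ Finset.univ.erase x, cnt F D x z * (cnt F D x z - 1) ≤ cyc F x := by
  have h1 : ∀ z, cnt F D x z * (cnt F D x z - 1) =
      ((Finset.univ.filter (fun y => (F.Adj x y ∧ D < deg F y) ∧ F.Adj y z)).offDiag).card := by
    intro z
    rw [Finset.offDiag_card, Nat.mul_sub, mul_one]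
    rfl
  simp_rw [h1]
  rw [← Finset.card_sigma]
  apply Finset.card_le_card_of_injOn (fun q : (_ : V) × (V × V) => (q.2.1, q.1, q.2.2))
  · rintro ⟨z, y, y'⟩ hq
    simp only [Finset.coe_sigma, Set.mem_sigma_iff, Finset.mem_coe, Finset.mem_erase,
      Finset.mem_univ, and_true, Finset.mem_offDiag, Finset.mem_filter, true_and] at hq
    simp only [Finset.mem_coe, Finset.mem_filter, Finset.mem_univ, true_and]
    obtain ⟨h2, h3, h4, h5⟩ := hq
    exact ⟨h3.1.1, h3.2, h4.2.symm, h4.1.1.symm, h2.symm, h5⟩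
  · rintro ⟨z, y, y'⟩ _ ⟨w, u, u'⟩ _ h
    simp only [Prod.mk.injEq] at h
    obtain ⟨h2, h3, h4⟩ := h
    subst h2 h3 h4
    rfl

lemma ballB [Fintype V] (G F : SimpleGraph V) (hFG : F ≤ G) (D : ℕ) (x : V) :
    hdeg F D x * D ≤ 2 * (ball G x).card ∨ hdeg F D x * D ≤ cyc F x := by
  set W := ∑ z ∈ Finset.univ.erase x, cnt F D x z with hW
  have hWge : hdeg F D x * D ≤ W := W_ge F D x
  have hQ := Q_le F D x
  by_cases h : W ≤ cyc F x
  · exact Or.inr (hWge.trans h)
  · left
    push Not at h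
    have hcs : (W : ℝ) ^ 2 ≤ ((ball G x).card : ℝ) * ((W : ℝ) + (cyc F x : ℝ)) := by
      have e1 : (W : ℝ) = ∑ z ∈ (Finset.univ.erase x).filter (fun z => z ∈ ball G x),
          (cnt F D x z : ℝ) := by
        rw [Finset.sum_filter, hW]
        push_cast
        refine Finset.sum_congr rfl fun z _ => ?_
        by_cases hz : z ∈ ball G x
        · simp [hz]
        · simp only [hz, if_false]
          by_contra hne
          apply hz
          apply mem_ball_of_cnt G F hFG D
          rcases Nat.eq_zero_or_pos (cnt F D x z) with h0 | h0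
          · rw [h0] at hne; simp at hne
          · exact h0
      have e2 : ((∑ z ∈ (Finset.univ.erase x).filter (fun z => z ∈ ball G x),
          (cnt F D x z : ℝ)) ^ 2) ≤ (((Finset.univ.erase x).filter (fun z => z ∈ ball G x)).card : ℝ) *
          ∑ z ∈ (Finset.univ.erase x).filter (fun z => z ∈ ball G x), (cnt F D x z : ℝ) ^ 2 :=
        sq_sum_le_card_mul_sum_sq
      have e3 : (((Finset.univ.erase x).filter (fun z => z ∈ ball G x)).card : ℝ) ≤
          ((ball G x).card : ℝ) := by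
        have : ((Finset.univ.erase x).filter (fun z => z ∈ ball G x)) ⊆ ball G x := by
          intro z hz
          exact (Finset.mem_filter.1 hz).2
        exact_mod_cast Finset.card_le_card this
      have e4 : ∑ z ∈ (Finset.univ.erase x).filter (fun z => z ∈ ball G x),
          (cnt F D x z : ℝ) ^ 2 ≤ (W : ℝ) + (cyc F x : ℝ) := by
        calc ∑ z ∈ (Finset.univ.erase x).filter (fun z => z ∈ ball G x), (cnt F D x z : ℝ) ^ 2
            ≤ ∑ z ∈ Finset.univ.erase x, (cnt F D x z : ℝ) ^ 2 :=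
              Finset.sum_le_sum_of_subset_of_nonneg (Finset.filter_subset _ _)
                (fun _ _ _ => by positivity)
          _ = ((∑ z ∈ Finset.univ.erase x, (cnt F D x z + cnt F D x z * (cnt F D x z - 1)) : ℕ) : ℝ) := by
              push_cast
              refine Finset.sum_congr rfl fun z _ => ?_
              rcases Nat.eq_zero_or_pos (cnt F D x z) with h0 | h0
              · rw [h0]; simp
              · rw [Nat.cast_sub h0]; push_cast; ring
          _ ≤ ((W + cyc F x : ℕ) : ℝ) := by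
              rw [Finset.sum_add_distrib]
              exact_mod_cast Nat.add_le_add le_rfl hQ
          _ = _ := by push_cast; ring
      have e5 := mul_le_mul e3 e4 (Finset.sum_nonneg fun _ _ => by positivity)
        (Nat.cast_nonneg (α := ℝ) (ball G x).card)
      calc (W : ℝ) ^ 2 = (∑ z ∈ (Finset.univ.erase x).filter (fun z => z ∈ ball G x),
          (cnt F D x z : ℝ)) ^ 2 := by rw [← e1]
        _ ≤ _ := e2
        _ ≤ _ := e5
    have hlt : (cyc F x : ℝ) < W := by exact_mod_cast h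
    have hpos : (0 : ℝ) < W := lt_of_le_of_lt (Nat.cast_nonneg _) hlt
    have hb : (0 : ℝ) ≤ ((ball G x).card : ℝ) := Nat.cast_nonneg _
    have hfin : (W : ℝ) ≤ 2 * ((ball G x).card : ℝ) := by
      have : (W : ℝ) ^ 2 ≤ ((ball G x).card : ℝ) * (2 * W) := by nlinarith
      nlinarith
    have : W ≤ 2 * (ball G x).card := by exact_mod_cast hfin
    exact hWge.trans this

lemma real_bound (n h b D t : ℝ) (hn : 0 < n) (ht : 0 ≤ t)
    (hD : n ^ ((1 : ℝ) / 3) ≤ D) (hh : 0 ≤ h) (hb : h * D ≤ t * b) :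
    h * Real.exp (-b * n ^ (-(2 : ℝ) / 3)) ≤ t * n ^ ((1 : ℝ) / 3) := by
  have h1 : h * n ^ ((1 : ℝ) / 3) ≤ t * b := by nlinarith
  have hpos : 0 < n ^ ((1 : ℝ) / 3) := Real.rpow_pos_of_pos hn _
  have h2 : h ≤ t * n ^ ((1 : ℝ) / 3) * (b * n ^ (-(2 : ℝ) / 3)) := by
    have e : n ^ ((1 : ℝ) / 3) * n ^ (-(2 : ℝ) / 3) * n ^ ((1 : ℝ) / 3) = 1 := by
      rw [← Real.rpow_add hn, ← Real.rpow_add hn]
      norm_num
    have : h * (n ^ ((1 : ℝ) / 3) * (n ^ ((1 : ℝ) / 3) * n ^ (-(2 : ℝ) / 3))) ≤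
        t * b * (n ^ ((1 : ℝ) / 3) * n ^ (-(2 : ℝ) / 3)) := by
      rw [← mul_assoc]
      exact mul_le_mul_of_nonneg_right h1 (by positivity)
    have e' : n ^ ((1 : ℝ) / 3) * (n ^ ((1 : ℝ) / 3) * n ^ (-(2 : ℝ) / 3)) = 1 := by
      calc n ^ ((1 : ℝ) / 3) * (n ^ ((1 : ℝ) / 3) * n ^ (-(2 : ℝ) / 3)) =
          n ^ ((1 : ℝ) / 3) * n ^ (-(2 : ℝ) / 3) * n ^ ((1 : ℝ) / 3) := by ring
        _ = 1 := e
    calc h = h * (n ^ ((1 : ℝ) / 3) * (n ^ ((1 : ℝ) / 3) * n ^ (-(2 : ℝ) / 3))) := by
          rw [e', mul_one]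
      _ ≤ _ := this
      _ = _ := by ring
  set v := b * n ^ (-(2 : ℝ) / 3) with hv
  have h3 : v * Real.exp (-v) ≤ 1 := by
    have h4 : v ≤ Real.exp v := by linarith [Real.add_one_le_exp v]
    calc v * Real.exp (-v) ≤ Real.exp v * Real.exp (-v) :=
          mul_le_mul_of_nonneg_right h4 (Real.exp_pos _).le
      _ = 1 := by rw [← Real.exp_add]; simp
  have h5 : -b * n ^ (-(2 : ℝ) / 3) = -v := by rw [hv]; ring
  rw [h5]
  calc h * Real.exp (-v) ≤ (t * n ^ ((1 : ℝ) / 3) * v) * Real.exp (-v) :=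
        mul_le_mul_of_nonneg_right h2 (Real.exp_pos _).le
    _ = t * n ^ ((1 : ℝ) / 3) * (v * Real.exp (-v)) := by ring
    _ ≤ t * n ^ ((1 : ℝ) / 3) * 1 := mul_le_mul_of_nonneg_left h3 (by positivity)
    _ = _ := by ring

/-- the master bound -/
lemma master [Fintype V] [Nonempty V] (G : SimpleGraph V) (m : ℕ)
    (hm : (Fintype.card V : ℝ) ^ ((1 : ℝ) / 3) ≤ m) :
    ∃ H ≤ G, (Nat.card H.edgeSet : ℝ) ≤ m * (Fintype.card V : ℝ) +
      ∑ e ∈ G.edgeFinset, Real.exp (-((eball G e).card : ℝ) *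
        (Fintype.card V : ℝ) ^ (-(2 : ℝ) / 3)) ∧
      ∀ u v, H.edist u v ≤ G.edist u v + 4 := by
  set n : ℝ := (Fintype.card V : ℝ) with hn
  have hnpos : 0 < n := by
    rw [hn]; exact_mod_cast Fintype.card_pos
  obtain ⟨f, hf⟩ := averaging G.edgeFinset (eball G) m
  choose p hp using bfs G
  let H : SimpleGraph V := SimpleGraph.fromRel (fun x y => G.Adj x y ∧
    ((∀ i, f i ∉ eball G s(x, y)) ∨ ∃ i, p (f i) x = y))
  have hadj : ∀ x y, H.Adj x y ↔ (G.Adj x y ∧
      ((∀ i, f i ∉ eball G s(x, y)) ∨ (∃ i, p (f i) x = y) ∨ (∃ i, p (f i) y = x))) := by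
    intro x y
    rw [SimpleGraph.fromRel_adj]
    constructor
    · rintro ⟨_, (⟨h1, h2⟩ | ⟨h1, h2⟩)⟩
      · exact ⟨h1, by tauto⟩
      · rw [Sym2.eq_swap] at h2
        exact ⟨h1.symm, by tauto⟩
    · rintro ⟨h1, (h2 | h2 | h2)⟩
      · exact ⟨h1.ne, Or.inl ⟨h1, Or.inl h2⟩⟩
      · exact ⟨h1.ne, Or.inl ⟨h1, Or.inr h2⟩⟩
      · exact ⟨h1.ne, Or.inr ⟨h1.symm, Or.inr h2⟩⟩
  refine ⟨H, ?_, ?_, ?_⟩
  · intro x y h
    exact ((hadj x y).1 h).1
  · have hsub : H.edgeFinset ⊆ (G.edgeFinset.filter (fun e => ∀ i, f i ∉ eball G e)) ∪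
        (Finset.univ : Finset (Fin m × V)).image (fun q => s(q.2, p (f q.1) q.2)) := by
      intro e he
      rw [SimpleGraph.mem_edgeFinset] at he
      induction e using Sym2.ind with
      | _ x y =>
      rw [SimpleGraph.mem_edgeSet, hadj] at he
      obtain ⟨h1, (h2 | ⟨i, h2⟩ | ⟨i, h2⟩)⟩ := he
      · apply Finset.mem_union_left
        rw [Finset.mem_filter, SimpleGraph.mem_edgeFinset]
        exact ⟨h1, h2⟩
      · apply Finset.mem_union_right
        exact Finset.mem_image.2 ⟨(i, x), Finset.mem_univ _, by simp [h2]⟩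
      · apply Finset.mem_union_right
        exact Finset.mem_image.2 ⟨(i, y), Finset.mem_univ _, by simp [h2, Sym2.eq_swap]⟩
    have hc1 : H.edgeFinset.card ≤ (G.edgeFinset.filter (fun e => ∀ i, f i ∉ eball G e)).card +
        m * Fintype.card V := by
      refine (Finset.card_le_card hsub).trans ((Finset.card_union_le _ _).trans ?_)
      gcongr
      refine Finset.card_image_le.trans ?_
      simp
    have hc2 : (Nat.card H.edgeSet : ℝ) ≤
        ((G.edgeFinset.filter (fun e => ∀ i, f i ∉ eball G e)).card : ℝ) + m * n := by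
      rw [Nat.card_eq_fintype_card, ← SimpleGraph.edgeFinset_card, hn]
      exact_mod_cast hc1
    have hc3 : n ^ m * ((G.edgeFinset.filter (fun e => ∀ i, f i ∉ eball G e)).card : ℝ) ≤
        n ^ m * ∑ e ∈ G.edgeFinset, Real.exp (-((eball G e).card : ℝ) * n ^ (-(2 : ℝ) / 3)) := by
      refine hf.trans ?_
      rw [Finset.mul_sum]
      apply Finset.sum_le_sum
      intro e _
      have hu : ((eball G e).card : ℝ) ≤ n := by
        rw [hn]; exact_mod_cast Finset.card_le_univ _
      have h1 : n - ((eball G e).card : ℝ) ≤ n * Real.exp (-((eball G e).card : ℝ) / n) := by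
        have := Real.add_one_le_exp (-((eball G e).card : ℝ) / n)
        calc n - ((eball G e).card : ℝ) = n * (-((eball G e).card : ℝ) / n + 1) := by
              field_simp; ring
          _ ≤ _ := mul_le_mul_of_nonneg_left this hnpos.le
      calc (n - ((eball G e).card : ℝ)) ^ m ≤
            (n * Real.exp (-((eball G e).card : ℝ) / n)) ^ m :=
            pow_le_pow_left₀ (by linarith) h1 m
        _ = n ^ m * Real.exp (m * (-((eball G e).card : ℝ) / n)) := by
            rw [mul_pow, ← Real.exp_nat_mul]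
        _ ≤ _ := by
            apply mul_le_mul_of_nonneg_left _ (by positivity)
            apply Real.exp_le_exp.2
            have h2 : n ^ (-(2 : ℝ) / 3) ≤ m / n := by
              rw [le_div_iff₀ hnpos]
              calc n ^ (-(2 : ℝ) / 3) * n = n ^ (-(2 : ℝ) / 3) * n ^ (1 : ℝ) := by
                    rw [Real.rpow_one]
                _ = n ^ ((1 : ℝ) / 3) := by
                    rw [← Real.rpow_add hnpos]; norm_num
                _ ≤ m := hm
            have h3 : (0 : ℝ) ≤ ((eball G e).card : ℝ) := Nat.cast_nonneg _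
            have h4 : (m : ℝ) * (-((eball G e).card : ℝ) / n) =
                -((eball G e).card : ℝ) * (m / n) := by ring
            rw [h4]
            nlinarith
    have hc4 := le_of_mul_le_mul_left hc3 (by positivity)
    linarith
  · apply stretch G H (Set.range f)
    · rintro s ⟨i, rfl⟩ v
      apply hp (f i) H
      intro v hv
      rw [hadj]
      exact ⟨hv, Or.inr (Or.inl ⟨i, rfl⟩)⟩
    · intro x y hxy hno
      rw [hadj]
      refine ⟨hxy, Or.inl ?_⟩
      intro i hi
      simp only [eball, Finset.mem_filter, Finset.mem_univ, true_and, Sym2.mem_iff] at hi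
      obtain ⟨w, hw, hd⟩ := hi
      apply hno (f i) ⟨i, rfl⟩
      rcases hw with rfl | rfl
      · exact Or.inl hd
      · exact Or.inr hd

/-- The number of ordered quadruples `(a, b, c, d)` with `a ~ b ~ c ~ d ~ a` in `R`, `a ≠ c` and
`b ≠ d`, that is, eight times the number of four-cycles of `R`. -/
noncomputable def fourCycles [Fintype V] (R : SimpleGraph V) : ℕ :=
  Nat.card {p : V × V × V × V // R.Adj p.1 p.2.1 ∧ R.Adj p.2.1 p.2.2.1 ∧
    R.Adj p.2.2.1 p.2.2.2 ∧ R.Adj p.2.2.2 p.1 ∧ p.1 ≠ p.2.2.1 ∧ p.2.1 ≠ p.2.2.2}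

lemma sum_cyc [Fintype V] (R : SimpleGraph V) : ∑ x, cyc R x = fourCycles R := by
  unfold fourCycles cyc
  rw [Nat.card_eq_fintype_card, Fintype.card_subtype]
  simp_rw [Finset.card_filter]
  rw [Fintype.sum_prod_type]

lemma pieceA [Fintype V] [Nonempty V] (G F : SimpleGraph V) [Fintype F.edgeSet] (hFG : F ≤ G) (t : ℕ)
    (ht : ∀ x z : V, x ≠ z → Nat.card {y : V // F.Adj x y ∧ F.Adj z y} ≤ t) :
    ∑ e ∈ F.edgeFinset, Real.exp (-((eball G e).card : ℝ) *
        (Fintype.card V : ℝ) ^ (-(2 : ℝ) / 3)) ≤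
      (t + 2) * (Fintype.card V : ℝ) ^ ((4 : ℝ) / 3) := by
  set n : ℝ := (Fintype.card V : ℝ) with hn
  have hn1 : 1 ≤ n := by
    rw [hn]; exact_mod_cast Fintype.card_pos
  have hnpos : 0 < n := by linarith
  have hr1 : 1 ≤ n ^ ((1 : ℝ) / 3) := Real.one_le_rpow hn1 (by norm_num)
  have hD1 : n ^ ((1 : ℝ) / 3) ≤ (⌈n ^ ((1 : ℝ) / 3)⌉₊ : ℝ) := Nat.le_ceil _
  have hD2 : (⌈n ^ ((1 : ℝ) / 3)⌉₊ : ℝ) ≤ 2 * n ^ ((1 : ℝ) / 3) := by
    have := Nat.ceil_lt_add_one (show 0 ≤ n ^ ((1 : ℝ) / 3) by linarith)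
    linarith
  have hr4 : n * n ^ ((1 : ℝ) / 3) = n ^ ((4 : ℝ) / 3) := by
    nth_rewrite 1 [← Real.rpow_one n]
    rw [← Real.rpow_add hnpos]; norm_num
  have h := piece G F (n ^ (-(2 : ℝ) / 3)) (by positivity) ⌈n ^ ((1 : ℝ) / 3)⌉₊
    (fun _ => t * n ^ ((1 : ℝ) / 3)) (fun _ => by positivity)
    (fun x _ => real_bound n _ _ _ t hnpos (Nat.cast_nonneg _) hD1 (Nat.cast_nonneg _) (by
      exact_mod_cast ballA G F hFG _ t ht x))
  refine h.trans ?_
  rw [Finset.sum_const, nsmul_eq_mul, Finset.card_univ, ← hn]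
  have : n * (⌈n ^ ((1 : ℝ) / 3)⌉₊ : ℝ) ≤ n * (2 * n ^ ((1 : ℝ) / 3)) :=
    mul_le_mul_of_nonneg_left hD2 hnpos.le
  calc n * (⌈n ^ ((1 : ℝ) / 3)⌉₊ : ℝ) + n * (t * n ^ ((1 : ℝ) / 3))
      ≤ n * (2 * n ^ ((1 : ℝ) / 3)) + n * (t * n ^ ((1 : ℝ) / 3)) := by linarith
    _ = (t + 2) * (n * n ^ ((1 : ℝ) / 3)) := by ring
    _ = _ := by rw [hr4]

lemma pieceB [Fintype V] [Nonempty V] (G F : SimpleGraph V) [Fintype F.edgeSet] (hFG : F ≤ G) :
    ∑ e ∈ F.edgeFinset, Real.exp (-((eball G e).card : ℝ) *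
        (Fintype.card V : ℝ) ^ (-(2 : ℝ) / 3)) ≤
      4 * (Fintype.card V : ℝ) ^ ((4 : ℝ) / 3) +
        fourCycles F / (Fintype.card V : ℝ) ^ ((1 : ℝ) / 3) := by
  set n : ℝ := (Fintype.card V : ℝ) with hn
  have hn1 : 1 ≤ n := by
    rw [hn]; exact_mod_cast Fintype.card_pos
  have hnpos : 0 < n := by linarith
  have hr1 : 1 ≤ n ^ ((1 : ℝ) / 3) := Real.one_le_rpow hn1 (by norm_num)
  have hr0 : 0 < n ^ ((1 : ℝ) / 3) := by linarith
  have hD1 : n ^ ((1 : ℝ) / 3) ≤ (⌈n ^ ((1 : ℝ) / 3)⌉₊ : ℝ) := Nat.le_ceil _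
  have hD2 : (⌈n ^ ((1 : ℝ) / 3)⌉₊ : ℝ) ≤ 2 * n ^ ((1 : ℝ) / 3) := by
    have := Nat.ceil_lt_add_one (show 0 ≤ n ^ ((1 : ℝ) / 3) by linarith)
    linarith
  have hr4 : n * n ^ ((1 : ℝ) / 3) = n ^ ((4 : ℝ) / 3) := by
    nth_rewrite 1 [← Real.rpow_one n]
    rw [← Real.rpow_add hnpos]; norm_num
  have h := piece G F (n ^ (-(2 : ℝ) / 3)) (by positivity) ⌈n ^ ((1 : ℝ) / 3)⌉₊
    (fun x => 2 * n ^ ((1 : ℝ) / 3) + (cyc F x : ℝ) / n ^ ((1 : ℝ) / 3))
    (fun _ => by positivity)
    (fun x _ => by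
      rcases ballB G F hFG ⌈n ^ ((1 : ℝ) / 3)⌉₊ x with hb | hb
      · have h2 := real_bound n (hdeg F ⌈n ^ ((1 : ℝ) / 3)⌉₊ x) ((ball G x).card)
          (⌈n ^ ((1 : ℝ) / 3)⌉₊ : ℝ) 2 hnpos (by norm_num) hD1 (Nat.cast_nonneg _)
          (by exact_mod_cast hb)
        have h3 : 0 ≤ (cyc F x : ℝ) / n ^ ((1 : ℝ) / 3) := by positivity
        linarith
      · have h2 : (hdeg F ⌈n ^ ((1 : ℝ) / 3)⌉₊ x : ℝ) ≤ (cyc F x : ℝ) / n ^ ((1 : ℝ) / 3) := by
          rw [le_div_iff₀ hr0]
          have h4 : (hdeg F ⌈n ^ ((1 : ℝ) / 3)⌉₊ x : ℝ) * (⌈n ^ ((1 : ℝ) / 3)⌉₊ : ℝ) ≤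
            (cyc F x : ℝ) := by exact_mod_cast hb
          have h5 : (0 : ℝ) ≤ (hdeg F ⌈n ^ ((1 : ℝ) / 3)⌉₊ x : ℝ) := Nat.cast_nonneg _
          nlinarith
        have h3 : Real.exp (-((ball G x).card : ℝ) * n ^ (-(2 : ℝ) / 3)) ≤ 1 := by
          rw [Real.exp_le_one_iff]
          have : 0 ≤ ((ball G x).card : ℝ) * n ^ (-(2 : ℝ) / 3) := by positivity
          linarith
        have h5 : (0 : ℝ) ≤ (hdeg F ⌈n ^ ((1 : ℝ) / 3)⌉₊ x : ℝ) := Nat.cast_nonneg _
        calc (hdeg F ⌈n ^ ((1 : ℝ) / 3)⌉₊ x : ℝ) *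
              Real.exp (-((ball G x).card : ℝ) * n ^ (-(2 : ℝ) / 3)) ≤
              (hdeg F ⌈n ^ ((1 : ℝ) / 3)⌉₊ x : ℝ) * 1 := mul_le_mul_of_nonneg_left h3 h5
          _ ≤ 2 * n ^ ((1 : ℝ) / 3) + (cyc F x : ℝ) / n ^ ((1 : ℝ) / 3) := by linarith)
  refine h.trans ?_
  rw [Finset.sum_add_distrib, Finset.sum_const, nsmul_eq_mul, Finset.card_univ, ← hn,
    ← Finset.sum_div]
  have hs : ∑ x, (cyc F x : ℝ) = (fourCycles F : ℝ) := by exact_mod_cast sum_cyc F
  rw [hs]
  have : n * (⌈n ^ ((1 : ℝ) / 3)⌉₊ : ℝ) ≤ n * (2 * n ^ ((1 : ℝ) / 3)) :=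
    mul_le_mul_of_nonneg_left hD2 hnpos.le
  calc n * (⌈n ^ ((1 : ℝ) / 3)⌉₊ : ℝ) + (n * (2 * n ^ ((1 : ℝ) / 3)) +
        (fourCycles F : ℝ) / n ^ ((1 : ℝ) / 3))
      ≤ n * (2 * n ^ ((1 : ℝ) / 3)) + (n * (2 * n ^ ((1 : ℝ) / 3)) +
        (fourCycles F : ℝ) / n ^ ((1 : ℝ) / 3)) := by linarith
    _ = 4 * (n * n ^ ((1 : ℝ) / 3)) + (fourCycles F : ℝ) / n ^ ((1 : ℝ) / 3) := by ring
    _ = _ := by rw [hr4]

lemma fourCycles_mono [Fintype V] {F R : SimpleGraph V} (h : F ≤ R) :
    fourCycles F ≤ fourCycles R := by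
  unfold fourCycles
  apply Nat.card_le_card_of_injective
    (fun p => ⟨p.1, h p.2.1, h p.2.2.1, h p.2.2.2.1, h p.2.2.2.2.1, p.2.2.2.2.2.1, p.2.2.2.2.2.2⟩)
  intro a b hab
  simp only [Subtype.mk.injEq] at hab
  exact Subtype.ext hab

theorem main [Fintype V] (r t : ℕ) (G R : SimpleGraph V) (F : Fin r → SimpleGraph V)
    (hF : ∀ i, ∀ x z : V, x ≠ z → Nat.card {y : V // (F i).Adj x y ∧ (F i).Adj z y} ≤ t)
    (hG : G ≤ (⨆ i, F i) ⊔ R) :
    ∃ H ≤ G, (Nat.card H.edgeSet : ℝ) ≤
      (6 + r * (t + 2)) * (Fintype.card V : ℝ) ^ ((4 : ℝ) / 3) +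
        fourCycles R / (Fintype.card V : ℝ) ^ ((1 : ℝ) / 3) ∧
      ∀ u v, H.edist u v ≤ G.edist u v + 4 := by
  rcases isEmpty_or_nonempty V with hV | hV
  · refine ⟨G, le_rfl, ?_, fun u => (hV.false u).elim⟩
    have h1 : Nat.card G.edgeSet = 0 := by
      rw [Nat.card_eq_zero]
      left
      constructor
      rintro ⟨e, _⟩
      induction e using Sym2.ind with
      | _ x y => exact hV.false x
    rw [h1]
    simp only [Nat.cast_zero]
    positivity
  set n : ℝ := (Fintype.card V : ℝ) with hn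
  have hn1 : 1 ≤ n := by
    rw [hn]; exact_mod_cast Fintype.card_pos
  have hnpos : 0 < n := by linarith
  have hr1 : 1 ≤ n ^ ((1 : ℝ) / 3) := Real.one_le_rpow hn1 (by norm_num)
  have hD1 : n ^ ((1 : ℝ) / 3) ≤ (⌈n ^ ((1 : ℝ) / 3)⌉₊ : ℝ) := Nat.le_ceil _
  have hD2 : (⌈n ^ ((1 : ℝ) / 3)⌉₊ : ℝ) ≤ 2 * n ^ ((1 : ℝ) / 3) := by
    have := Nat.ceil_lt_add_one (show 0 ≤ n ^ ((1 : ℝ) / 3) by linarith)
    linarith
  have hr4 : n * n ^ ((1 : ℝ) / 3) = n ^ ((4 : ℝ) / 3) := by
    nth_rewrite 1 [← Real.rpow_one n]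
    rw [← Real.rpow_add hnpos]; norm_num
  obtain ⟨H, hHG, hcard, hstr⟩ := master G ⌈n ^ ((1 : ℝ) / 3)⌉₊ hD1
  refine ⟨H, hHG, ?_, hstr⟩
  rw [← hn] at hcard
  have hw : ∀ e : Sym2 V, 0 ≤ Real.exp (-((eball G e).card : ℝ) * n ^ (-(2 : ℝ) / 3)) :=
    fun e => (Real.exp_pos _).le
  have hsub : G.edgeFinset ⊆ (Finset.univ.biUnion (fun i => (F i ⊓ G).edgeFinset)) ∪
      (R ⊓ G).edgeFinset := by
    intro e he
    rw [SimpleGraph.mem_edgeFinset] at he
    induction e using Sym2.ind with
    | _ x y =>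
    rw [SimpleGraph.mem_edgeSet] at he
    have h1 := hG he
    rw [SimpleGraph.sup_adj, SimpleGraph.iSup_adj] at h1
    rcases h1 with ⟨i, h1⟩ | h1
    · apply Finset.mem_union_left
      rw [Finset.mem_biUnion]
      refine ⟨i, Finset.mem_univ _, ?_⟩
      rw [SimpleGraph.mem_edgeFinset, SimpleGraph.mem_edgeSet]
      exact ⟨h1, he⟩
    · apply Finset.mem_union_right
      rw [SimpleGraph.mem_edgeFinset, SimpleGraph.mem_edgeSet]
      exact ⟨h1, he⟩
  have hsum : ∑ e ∈ G.edgeFinset, Real.exp (-((eball G e).card : ℝ) * n ^ (-(2 : ℝ) / 3)) ≤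
      (∑ i : Fin r, ((t : ℝ) + 2) * n ^ ((4 : ℝ) / 3)) + (4 * n ^ ((4 : ℝ) / 3) +
        fourCycles R / n ^ ((1 : ℝ) / 3)) := by
    calc ∑ e ∈ G.edgeFinset, Real.exp (-((eball G e).card : ℝ) * n ^ (-(2 : ℝ) / 3))
        ≤ ∑ e ∈ (Finset.univ.biUnion (fun i => (F i ⊓ G).edgeFinset)) ∪ (R ⊓ G).edgeFinset,
            Real.exp (-((eball G e).card : ℝ) * n ^ (-(2 : ℝ) / 3)) :=
          Finset.sum_le_sum_of_subset_of_nonneg hsub (fun e _ _ => hw e)
      _ ≤ ∑ e ∈ Finset.univ.biUnion (fun i => (F i ⊓ G).edgeFinset),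
            Real.exp (-((eball G e).card : ℝ) * n ^ (-(2 : ℝ) / 3)) +
          ∑ e ∈ (R ⊓ G).edgeFinset,
            Real.exp (-((eball G e).card : ℝ) * n ^ (-(2 : ℝ) / 3)) := by
          rw [← Finset.sum_union_inter]
          have : 0 ≤ ∑ e ∈ (Finset.univ.biUnion (fun i => (F i ⊓ G).edgeFinset)) ∩
            (R ⊓ G).edgeFinset, Real.exp (-((eball G e).card : ℝ) * n ^ (-(2 : ℝ) / 3)) :=
            Finset.sum_nonneg (fun e _ => hw e)
          linarith
      _ ≤ _ := by
          apply add_le_add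
          · refine (sum_biUnion_le' _ _ _ hw).trans (Finset.sum_le_sum fun i _ => ?_)
            refine (pieceA G (F i ⊓ G) inf_le_right t ?_).trans (le_of_eq (by rw [← hn]))
            intro x z hxz
            refine le_trans ?_ (hF i x z hxz)
            apply Nat.card_le_card_of_injective
              (fun y => ⟨y.1, y.2.1.1, y.2.2.1⟩)
            intro a b hab
            simp only [Subtype.mk.injEq] at hab
            exact Subtype.ext hab
          · refine (pieceB G (R ⊓ G) inf_le_right).trans ?_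
            rw [← hn]
            gcongr
            exact_mod_cast fourCycles_mono inf_le_left
  rw [Finset.sum_const, nsmul_eq_mul, Finset.card_univ, Fintype.card_fin] at hsum
  have h6 : (⌈n ^ ((1 : ℝ) / 3)⌉₊ : ℝ) * n ≤ 2 * n ^ ((4 : ℝ) / 3) := by
    rw [← hr4]
    nlinarith
  calc (Nat.card H.edgeSet : ℝ) ≤ _ := hcard
    _ ≤ 2 * n ^ ((4 : ℝ) / 3) + (r * (((t : ℝ) + 2) * n ^ ((4 : ℝ) / 3)) +
        (4 * n ^ ((4 : ℝ) / 3) + fourCycles R / n ^ ((1 : ℝ) / 3))) := add_le_add h6 hsum
    _ = _ := by ring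

/-- Additive `+4` spanners for graphs covered by `r` graphs in which two distinct vertices have at
most `t` common neighbours and one graph `R` with few four-cycles. -/
theorem result (r t n : ℕ) (G R : SimpleGraph (Fin n)) (F : Fin r → SimpleGraph (Fin n))
    (hF : ∀ i, ∀ x z : Fin n, x ≠ z → Nat.card {y : Fin n // (F i).Adj x y ∧ (F i).Adj z y} ≤ t)
    (hG : G ≤ (⨆ i, F i) ⊔ R) :
    ∃ H : SimpleGraph (Fin n), H ≤ G ∧
      (Nat.card H.edgeSet : ℝ) ≤ (6 + r * (t + 2)) * (n : ℝ) ^ ((4 : ℝ) / 3) +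
        fourCycles R / (n : ℝ) ^ ((1 : ℝ) / 3) ∧
      ∀ u v : Fin n, H.edist u v ≤ G.edist u v + 4 := by
  obtain ⟨H, h1, h2, h3⟩ := main r t G R F hF hG
  rw [Fintype.card_fin] at h2
  exact ⟨H, h1, h2, h3⟩

end Pool.Agent.Lib.MP_81f3cc_co.FourCycles
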