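import Mathlib
import Pool.Agent.Lib.MP_81f3cc_co.ClusterSpan

namespace Pool.Agent.Lib.MP_81f3cc_co

open SimpleGraph Finset

universe u w

lemma two_ball_gen {V : Type u} (G : SimpleGraph V) (s t k : ℕ) (hsk : s ≤ k)
    (hc : ∀ T : Finset V, T.card = k → ∃ R ∈ powersetCard s T, ∀ Y : Finset V,
      (∀ y ∈ Y, ∀ z ∈ R, G.Adj z y) → Y.card ≤ t) (D : ℕ)
    (U : Finset V) (hU : ∀ x ∈ U, D ≤ (nb G U x).card) (x : V) (hx : x ∈ U) :
    ∃ q : V → ℕ, D * (D - 1) ≤ ∑ y ∈ bb G U x, q y ∧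
      ∑ y ∈ bb G U x, (q y).choose s ≤ k.choose s * (t * D.choose s + (bb G U x).card) := by
  classical
  obtain ⟨Z, hZ, hZc⟩ := exists_subset_card_eq (hU x hx)
  set B := bb G U x with hB
  refine ⟨fun y => (Z.filter (fun z => G.Adj z y)).card, ?_, ?_⟩
  · have h3 := sum_card_bipartiteAbove_eq_sum_card_bipartiteBelow (s := Z) (t := B)
      (fun z y => G.Adj z y)
    calc D * (D - 1) = ∑ _z ∈ Z, (D - 1) := by rw [sum_const, smul_eq_mul, hZc]
      _ ≤ ∑ z ∈ Z, (B.bipartiteAbove (fun z y => G.Adj z y) z).card := by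
          apply sum_le_sum
          intro z hz
          have hzx := mem_nb.1 (hZ hz)
          have h4 : (nb G U z).erase x ⊆ B.bipartiteAbove (fun z y => G.Adj z y) z := by
            intro y hy
            rw [mem_erase, mem_nb] at hy
            rw [mem_bipartiteAbove, hB, mem_bb]
            exact ⟨⟨hy.2.1, hy.1, z, hzx.1, hzx.2, hy.2.2⟩, hy.2.2⟩
          refine le_trans ?_ (card_le_card h4)
          have h5 := pred_card_le_card_erase (s := nb G U z) (a := x)
          have h6 := hU z hzx.1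
          omega
      _ = ∑ y ∈ B, (Z.bipartiteBelow (fun z y => G.Adj z y) y).card := h3
      _ = ∑ y ∈ B, (Z.filter (fun z => G.Adj z y)).card := rfl
  · set L : Finset (Finset V) := (powersetCard s Z).filter
      (fun R => (B.filter (fun y => ∀ z ∈ R, G.Adj z y)).card ≤ t) with hL
    have key : ∀ y ∈ B, ((Z.filter (fun z => G.Adj z y)).card).choose s ≤
        k.choose s * ((L.filter (fun R => R ∈ powersetCard s (Z.filter (fun z => G.Adj z y)))).card + 1) := by
      intro y hy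
      apply supersat _ s k hsk
      intro T hT
      rw [mem_powersetCard] at hT
      obtain ⟨R, hR, hRt⟩ := hc T hT.2
      refine ⟨R, ?_, hR⟩
      rw [hL, mem_filter, mem_powersetCard]
      rw [mem_powersetCard] at hR
      refine ⟨⟨hR.1.trans (hT.1.trans (filter_subset _ _)), hR.2⟩, ?_⟩
      apply hRt
      intro y hy z hz
      exact (mem_filter.1 hy).2 z hz
    have hsum : ∑ y ∈ B, (L.filter (fun R => R ∈ powersetCard s (Z.filter (fun z => G.Adj z y)))).card
        ≤ t * D.choose s := by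
      have h3 := sum_card_bipartiteAbove_eq_sum_card_bipartiteBelow (s := B) (t := L)
        (fun y R => R ∈ powersetCard s (Z.filter (fun z => G.Adj z y)))
      have h4 : ∑ y ∈ B, (L.filter (fun R => R ∈ powersetCard s (Z.filter (fun z => G.Adj z y)))).card
          = ∑ R ∈ L, (B.filter (fun y => R ∈ powersetCard s (Z.filter (fun z => G.Adj z y)))).card := h3
      rw [h4]
      calc ∑ R ∈ L, (B.filter (fun y => R ∈ powersetCard s (Z.filter (fun z => G.Adj z y)))).card
          ≤ ∑ _R ∈ L, t := by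
            apply sum_le_sum
            intro R hR
            rw [hL, mem_filter] at hR
            refine le_trans (card_le_card ?_) hR.2
            intro y hy
            rw [mem_filter, mem_powersetCard] at hy
            rw [mem_filter]
            exact ⟨hy.1, fun z hz => (mem_filter.1 (hy.2.1 hz)).2⟩
        _ = L.card * t := by rw [sum_const, smul_eq_mul]
        _ ≤ (powersetCard s Z).card * t := Nat.mul_le_mul_right _ (card_filter_le _ _)
        _ = t * D.choose s := by rw [card_powersetCard, hZc, mul_comm]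
    calc ∑ y ∈ B, ((Z.filter (fun z => G.Adj z y)).card).choose s
        ≤ ∑ y ∈ B, k.choose s *
          ((L.filter (fun R => R ∈ powersetCard s (Z.filter (fun z => G.Adj z y)))).card + 1) :=
          sum_le_sum key
      _ = k.choose s * (∑ y ∈ B,
          (L.filter (fun R => R ∈ powersetCard s (Z.filter (fun z => G.Adj z y)))).card + B.card) := by
          rw [← mul_sum, sum_add_distrib, sum_const, smul_eq_mul, mul_one]
      _ ≤ k.choose s * (t * D.choose s + B.card) := by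
          apply Nat.mul_le_mul_left
          omega

/-- the constant of the general two-ball estimate -/
def cst2 (s κ : ℕ) : ℕ := (4 * (s - 1)) ^ (s - 1) + 4 ^ s * κ * (1 + s.factorial)

lemma growth_gen {V : Type u} (s t κ D : ℕ) (hs : 2 ≤ s) (ht : 1 ≤ t) (hD : 2 ≤ D) (B : Finset V)
    (q : V → ℕ) (h1 : D * (D - 1) ≤ ∑ y ∈ B, q y)
    (h2 : ∑ y ∈ B, (q y).choose s ≤ κ * (t * D.choose s + B.card)) :
    D ^ s ≤ cst2 s κ * t * B.card ^ (s - 1) := by
  obtain ⟨r, rfl⟩ : ∃ r, s = r + 2 := ⟨s - 2, by omega⟩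
  set b := B.card with hb
  have e1 : r + 2 - 1 = r + 1 := rfl
  have hDD : D * D ≤ 2 * (D * (D - 1)) := by
    obtain ⟨d, rfl⟩ : ∃ d, D = d + 2 := ⟨D - 2, by omega⟩
    have : d + 2 - 1 = d + 1 := rfl
    rw [this]; nlinarith
  by_cases hcase : D * (D - 1) ≤ 2 * (r + 1) * b
  · have h3 : D * D ≤ 4 * (r + 1) * b := by nlinarith
    have h4 : D ^ (r + 2) ≤ (D * D) ^ (r + 1) := by
      rw [← pow_two, ← pow_mul]
      exact Nat.pow_le_pow_right (by omega) (by omega)
    calc D ^ (r + 2) ≤ (D * D) ^ (r + 1) := h4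
      _ ≤ (4 * (r + 1) * b) ^ (r + 1) := Nat.pow_le_pow_left h3 _
      _ = (4 * (r + 1)) ^ (r + 1) * b ^ (r + 1) := by rw [mul_pow]
      _ ≤ cst2 (r + 2) κ * t * b ^ (r + 2 - 1) := by
          rw [e1]
          apply Nat.mul_le_mul_right
          unfold cst2
          rw [e1]
          calc (4 * (r + 1)) ^ (r + 1) ≤
              ((4 * (r + 1)) ^ (r + 1) + 4 ^ (r + 2) * κ * (1 + (r + 2).factorial)) * 1 := by
                rw [mul_one]; exact Nat.le_add_right _ _
            _ ≤ _ := Nat.mul_le_mul_left _ ht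
  · push Not at hcase
    have hb2 : b ≤ D * D := by
      have : D * (D - 1) ≤ D * D := Nat.mul_le_mul_left _ (by omega)
      nlinarith
    have hsumge : D * D ≤ 4 * ∑ y ∈ B, (q y + 1 - (r + 2)) := by
      have h5 : ∑ y ∈ B, q y ≤ ∑ y ∈ B, (q y + 1 - (r + 2)) + (r + 1) * b := by
        rw [hb, mul_comm (r + 1), ← smul_eq_mul, ← sum_const, ← sum_add_distrib]
        apply sum_le_sum
        intro y _
        omega
      nlinarith
    have hjensen : (∑ y ∈ B, (q y + 1 - (r + 2))) ^ (r + 1 + 1) ≤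
        b ^ (r + 1) * ∑ y ∈ B, (q y + 1 - (r + 2)) ^ (r + 1 + 1) := by
      have := pow_sum_le_card_mul_sum_pow (s := B) (f := fun y => (q y + 1 - (r + 2)))
        (fun i _ => Nat.zero_le _) (r + 1)
      simpa using this
    have hchoose : ∑ y ∈ B, (q y + 1 - (r + 2)) ^ (r + 1 + 1) ≤
        (r + 2).factorial * ∑ y ∈ B, (q y).choose (r + 2) := by
      rw [mul_sum]
      apply sum_le_sum
      intro y _
      rw [← Nat.descFactorial_eq_factorial_mul_choose]
      exact Nat.pow_sub_le_descFactorial (q y) (r + 2)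
    have hDc : (r + 2).factorial * D.choose (r + 2) ≤ D ^ (r + 2) := by
      rw [← Nat.descFactorial_eq_factorial_mul_choose]
      exact Nat.descFactorial_le_pow D (r + 2)
    have hbD : (r + 2).factorial * b ≤ (r + 2).factorial * (t * D ^ (r + 2)) := by
      apply Nat.mul_le_mul_left
      refine hb2.trans ?_
      calc D * D = D ^ 2 := (pow_two D).symm
        _ ≤ D ^ (r + 2) := Nat.pow_le_pow_right (by omega) (by omega)
        _ = 1 * D ^ (r + 2) := (one_mul _).symm
        _ ≤ _ := Nat.mul_le_mul_right _ ht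
    have hfin : (r + 2).factorial * (κ * (t * D.choose (r + 2) + b)) ≤
        κ * (1 + (r + 2).factorial) * t * D ^ (r + 2) := by
      calc (r + 2).factorial * (κ * (t * D.choose (r + 2) + b))
          = κ * (t * ((r + 2).factorial * D.choose (r + 2)) +
            (r + 2).factorial * b) := by ring
        _ ≤ κ * (t * D ^ (r + 2) + (r + 2).factorial * (t * D ^ (r + 2))) := by
            apply Nat.mul_le_mul_left
            exact add_le_add (Nat.mul_le_mul_left _ hDc) hbD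
        _ = _ := by ring
    have hchain : (D * D) ^ (r + 2) ≤ 4 ^ (r + 2) * (b ^ (r + 1) *
        (κ * (1 + (r + 2).factorial) * t * D ^ (r + 2))) := by
      calc (D * D) ^ (r + 2) ≤ (4 * ∑ y ∈ B, (q y + 1 - (r + 2))) ^ (r + 2) :=
            Nat.pow_le_pow_left hsumge _
        _ = 4 ^ (r + 2) * (∑ y ∈ B, (q y + 1 - (r + 2))) ^ (r + 1 + 1) := by rw [mul_pow]
        _ ≤ 4 ^ (r + 2) * (b ^ (r + 1) * ∑ y ∈ B, (q y + 1 - (r + 2)) ^ (r + 1 + 1)) :=
            Nat.mul_le_mul_left _ hjensen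
        _ ≤ 4 ^ (r + 2) * (b ^ (r + 1) * ((r + 2).factorial *
            (κ * (t * D.choose (r + 2) + b)))) := by
            apply Nat.mul_le_mul_left
            apply Nat.mul_le_mul_left
            exact hchoose.trans (Nat.mul_le_mul_left _ h2)
        _ ≤ _ := by
            apply Nat.mul_le_mul_left
            exact Nat.mul_le_mul_left _ hfin
    have hchain2 : D ^ (r + 2) * D ^ (r + 2) ≤ (4 ^ (r + 2) * κ *
        (1 + (r + 2).factorial) * t * b ^ (r + 1)) * D ^ (r + 2) := by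
      calc D ^ (r + 2) * D ^ (r + 2) = (D * D) ^ (r + 2) := by rw [mul_pow]
        _ ≤ _ := hchain
        _ = _ := by ring
    have hpos : 0 < D ^ (r + 2) := Nat.pow_pos (by omega)
    have h7 := Nat.le_of_mul_le_mul_right hchain2 hpos
    refine h7.trans ?_
    rw [e1]
    apply Nat.mul_le_mul_right
    apply Nat.mul_le_mul_right
    unfold cst2
    exact Nat.le_add_left _ _

set_option maxHeartbeats 2000000 in
/-- The parameters. -/
lemma spanner_of_growth {V : Type u} [Fintype V] (G : SimpleGraph V) (s : ℕ) (hs : 2 ≤ s)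
    (c : ℝ) (hc1 : 1 ≤ c) (hn : 0 < Fintype.card V)
    (hM : ∀ (D : ℕ), 2 ≤ D → ∀ (U : Finset V) (x : V), x ∈ U → (∀ y ∈ U, D ≤ (nb G U y).card) →
      (D : ℝ) ^ s ≤ c * ((bb G U x).card : ℝ) ^ (s - 1)) :
    ∃ H : SimpleGraph V, H ≤ G ∧
      (Nat.card H.edgeSet : ℝ) ≤ 64 * (Fintype.card V : ℝ) *
        (((Fintype.card V : ℝ) ^ 2 * Real.log (Fintype.card V + 2)) ^
          (((s : ℝ) - 1) / (5 * s - 4)) * c ^ ((1 : ℝ) / (5 * s - 4))) ∧
      ∀ u v, H.edist u v ≤ G.edist u v + 4 := by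
  set n : ℝ := (Fintype.card V : ℝ) with hndef
  have hn1 : (1 : ℝ) ≤ n := by rw [hndef]; exact_mod_cast hn
  have hs2 : (2 : ℝ) ≤ s := by exact_mod_cast hs
  set L : ℝ := Real.log (n + 2) with hL
  have hL1 : 1 ≤ L := by
    have h1 : Real.exp 1 ≤ n + 2 := by
      have := Real.exp_one_lt_d9
      linarith
    have := Real.log_le_log (Real.exp_pos 1) h1
    rwa [Real.log_exp] at this
  have hlogn : Real.log n ≤ L := Real.log_le_log (by linarith) (by linarith)
  have hlogn0 : 0 ≤ Real.log n := Real.log_nonneg hn1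
  set θ : ℝ := ((s : ℝ) - 1) / (5 * s - 4) with hθ
  have h5s : (0 : ℝ) < 5 * s - 4 := by linarith
  have hs1 : (0 : ℝ) < s - 1 := by linarith
  have hθ0 : 0 < θ := by positivity
  set X : ℝ := (n ^ 2 * L) ^ θ * c ^ ((1 : ℝ) / (5 * s - 4)) with hX
  have hn2L : 1 ≤ n ^ 2 * L := one_le_mul_of_one_le_of_one_le (one_le_pow₀ hn1) hL1
  have hX1 : 1 ≤ X :=
    one_le_mul_of_one_le_of_one_le (Real.one_le_rpow hn2L hθ0.le)
      (Real.one_le_rpow hc1 (by positivity))
  -- X to the power 1/θ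
  have hXθ : X ^ (1 / θ) = n ^ 2 * L * c ^ ((1 : ℝ) / (s - 1)) := by
    rw [hX, Real.mul_rpow (by positivity) (by positivity), ← Real.rpow_mul (by positivity),
      ← Real.rpow_mul (by positivity)]
    congr 1
    · rw [mul_one_div_cancel hθ0.ne', Real.rpow_one]
    · congr 1
      rw [hθ]
      field_simp
  have hX3 : n ≤ X ^ (3 : ℝ) := by
    have h6 : (1 : ℝ) / 6 ≤ θ := by
      rw [hθ, div_le_div_iff₀ (by norm_num) h5s]
      linarith
    have h7 : n ^ ((1 : ℝ) / 3) ≤ X := by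
      calc n ^ ((1 : ℝ) / 3) = (n ^ 2) ^ ((1 : ℝ) / 6) := by
            rw [← Real.rpow_natCast, ← Real.rpow_mul (by linarith)]
            norm_num
        _ ≤ (n ^ 2 * L) ^ ((1 : ℝ) / 6) := by
            apply Real.rpow_le_rpow (by positivity) _ (by norm_num)
            nlinarith [sq_nonneg n]
        _ ≤ (n ^ 2 * L) ^ θ := Real.rpow_le_rpow_of_exponent_le hn2L h6
        _ ≤ (n ^ 2 * L) ^ θ * c ^ ((1 : ℝ) / (5 * s - 4)) :=
            le_mul_of_one_le_right (by positivity) (Real.one_le_rpow hc1 (by positivity))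
    calc n = (n ^ ((1 : ℝ) / 3)) ^ (3 : ℝ) := by
          rw [← Real.rpow_mul (by linarith)]; norm_num
      _ ≤ X ^ (3 : ℝ) := Real.rpow_le_rpow (by positivity) h7 (by norm_num)
  set D : ℕ := ⌈X⌉₊ + 1 with hD
  have hD1 : X ≤ (D : ℝ) := by
    have := Nat.le_ceil X
    rw [hD]; push_cast; linarith
  have hD2 : (D : ℝ) ≤ 3 * X := by
    have := Nat.ceil_lt_add_one (show (0 : ℝ) ≤ X by linarith)
    rw [hD]; push_cast; linarith
  have hD3 : 2 ≤ D := by
    have : 1 ≤ ⌈X⌉₊ := Nat.one_le_ceil_iff.2 (by linarith)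
    omega
  have hD0 : (0 : ℝ) < D := by linarith
  have hDcube : n ≤ (D : ℝ) ^ 3 := by
    refine hX3.trans ?_
    rw [show (3 : ℝ) = ((3 : ℕ) : ℝ) by norm_num, Real.rpow_natCast]
    exact pow_le_pow_left₀ (by linarith) hD1 3
  set K : ℕ := ⌈(D : ℝ) ^ 3 / n⌉₊ with hK
  have hK1 : (D : ℝ) ^ 3 / n ≤ K := Nat.le_ceil _
  have hKpos : 1 ≤ K := Nat.one_le_ceil_iff.2 (by positivity)
  have hK2 : (K : ℝ) ≤ 2 * ((D : ℝ) ^ 3 / n) := by
    have h1 := Nat.ceil_lt_add_one (show (0 : ℝ) ≤ (D : ℝ) ^ 3 / n by positivity)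
    have h2 : 1 ≤ (D : ℝ) ^ 3 / n := by rw [le_div_iff₀ (by linarith)]; linarith
    rw [← hK] at h1
    linarith
  set m : ℝ := ((D : ℝ) ^ s / c) ^ ((1 : ℝ) / (s - 1)) with hm
  have hm0 : 0 < m := by positivity
  obtain ⟨H, hHG, hcard, hd⟩ := cluster_spanner G D K (by omega) hKpos m hm0 hn (by
    intro U x hx hU
    have h1 := hM D hD3 U x hx hU
    have h2 : (D : ℝ) ^ s / c ≤ ((bb G U x).card : ℝ) ^ (s - 1) := by
      rw [div_le_iff₀ (by linarith)]; linarith
    have h3 : (((bb G U x).card : ℝ) ^ (s - 1)) ^ ((1 : ℝ) / (s - 1)) = ((bb G U x).card : ℝ) := by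
      rw [← Real.rpow_natCast, ← Real.rpow_mul (by positivity), Nat.cast_sub (by omega)]
      push_cast
      rw [mul_one_div_cancel hs1.ne', Real.rpow_one]
    rw [hm, ← h3]
    exact Real.rpow_le_rpow (by positivity) h2 (by positivity))
  refine ⟨H, hHG, hcard.trans ?_, hd⟩
  rw [← hndef]
  -- the three terms
  have t1 : (2 * (D : ℝ) + 2) * n ≤ 3 * (D * n) := by
    have : (2 : ℝ) ≤ D := by exact_mod_cast hD3
    nlinarith
  have t2 : (n / D) ^ 2 * K ≤ 2 * (D * n) := by
    calc (n / D) ^ 2 * K ≤ (n / D) ^ 2 * (2 * ((D : ℝ) ^ 3 / n)) :=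
          mul_le_mul_of_nonneg_left hK2 (by positivity)
      _ = 2 * (D * n) := by field_simp
  have t3 : 10 * n ^ 2 * Real.log n / (K * m) ≤ 10 * (D * n) := by
    have hDm : n ^ 2 * L ≤ (D : ℝ) ^ 4 * m := by
      have h1 : (D : ℝ) ^ (1 / θ) = (D : ℝ) ^ 4 * (D : ℝ) ^ ((s : ℝ) / (s - 1)) := by
        rw [show (4 : ℕ) = 4 from rfl, ← Real.rpow_natCast, ← Real.rpow_add hD0]
        congr 1
        rw [hθ]
        field_simp
        push_cast
        ring
      have h2 : m = (D : ℝ) ^ ((s : ℝ) / (s - 1)) / c ^ ((1 : ℝ) / (s - 1)) := by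
        rw [hm, Real.div_rpow (by positivity) (by linarith), ← Real.rpow_natCast,
          ← Real.rpow_mul (by positivity)]
        congr 2
        ring
      have h3 : X ^ (1 / θ) ≤ (D : ℝ) ^ (1 / θ) :=
        Real.rpow_le_rpow (by linarith) hD1 (by positivity)
      rw [hXθ, h1] at h3
      rw [h2, ← mul_div_assoc, le_div_iff₀ (by positivity)]
      exact h3
    have hKm : (D : ℝ) ^ 3 / n * m ≤ K * m := mul_le_mul_of_nonneg_right hK1 hm0.le
    have hKm0 : 0 < (D : ℝ) ^ 3 / n * m := by positivity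
    calc 10 * n ^ 2 * Real.log n / (K * m) ≤ 10 * n ^ 2 * Real.log n / ((D : ℝ) ^ 3 / n * m) :=
          div_le_div_of_nonneg_left (by positivity) hKm0 hKm
      _ ≤ 10 * n ^ 2 * L / ((D : ℝ) ^ 3 / n * m) := by
          apply div_le_div_of_nonneg_right _ hKm0.le
          exact mul_le_mul_of_nonneg_left hlogn (by positivity)
      _ ≤ 10 * (D * n) := by
          rw [div_le_iff₀ hKm0]
          have : 10 * (D * n) * ((D : ℝ) ^ 3 / n * m) = 10 * ((D : ℝ) ^ 4 * m) := by
            field_simp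
          rw [this]
          nlinarith
  have hDn : (D : ℝ) * n ≤ 3 * X * n := mul_le_mul_of_nonneg_right hD2 (by linarith)
  calc (2 * (D : ℝ) + 2) * n + (n / D) ^ 2 * K + 10 * n ^ 2 * Real.log n / (K * m)
      ≤ 15 * (D * n) := by linarith
    _ ≤ 15 * (3 * X * n) := by linarith
    _ ≤ 64 * n * X := by nlinarith

theorem gen_spanner (s k : ℕ) (hs : 2 ≤ s) (hsk : s ≤ k) :
    ∃ C : ℝ, ∀ (n t : ℕ) (G : SimpleGraph (Fin n)), 1 ≤ t →
      (∀ T : Finset (Fin n), T.card = k → ∃ R : Finset (Fin n), R ⊆ T ∧ R.card = s ∧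
        Nat.card {y : Fin n // ∀ z ∈ R, G.Adj z y} ≤ t) →
      ∃ H : SimpleGraph (Fin n), H ≤ G ∧
        (Nat.card H.edgeSet : ℝ) ≤ C * (t : ℝ) ^ ((1 : ℝ) / (5 * s - 4)) * n *
          ((n : ℝ) ^ 2 * Real.log (n + 2)) ^ (((s : ℝ) - 1) / (5 * s - 4)) ∧
        ∀ u v : Fin n, H.edist u v ≤ G.edist u v + 4 := by
  classical
  set κ : ℕ := cst2 s (k.choose s) with hκ
  have hκ1 : 1 ≤ κ := by
    rw [hκ, cst2]
    have : 1 ≤ (4 * (s - 1)) ^ (s - 1) := Nat.one_le_pow _ _ (by omega)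
    omega
  refine ⟨64 * (κ : ℝ) ^ ((1 : ℝ) / (5 * s - 4)), ?_⟩
  intro n t G ht hcond
  rcases Nat.eq_zero_or_pos n with hn | hn
  · subst hn
    exact ⟨G, le_rfl, by simp, fun u => u.elim0⟩
  have hs2 : (2 : ℝ) ≤ s := by exact_mod_cast hs
  have hcond' : ∀ T : Finset (Fin n), T.card = k → ∃ R ∈ powersetCard s T, ∀ Y : Finset (Fin n),
      (∀ y ∈ Y, ∀ z ∈ R, G.Adj z y) → Y.card ≤ t := by
    intro T hT
    obtain ⟨R, hRT, hRs, hR⟩ := hcond T hT
    refine ⟨R, mem_powersetCard.2 ⟨hRT, hRs⟩, ?_⟩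
    intro Y hY
    refine le_trans ?_ hR
    rw [Nat.card_eq_fintype_card, Fintype.card_subtype]
    apply card_le_card
    intro y hy
    rw [mem_filter]
    exact ⟨mem_univ _, fun z hz => hY y hy z hz⟩
  have hκt : (1 : ℝ) ≤ (κ : ℝ) * t := by
    have : 1 ≤ κ * t := Nat.one_le_iff_ne_zero.2 (Nat.mul_ne_zero (by omega) (by omega))
    exact_mod_cast this
  obtain ⟨H, hHG, hcard, hd⟩ := spanner_of_growth G s hs ((κ : ℝ) * t) hκt
    (by rw [Fintype.card_fin]; exact hn) (by
    intro D hD U x hx hU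
    obtain ⟨q, h1, h2⟩ := two_ball_gen G s t k hsk hcond' D U hU x hx
    have h3 := growth_gen s t (k.choose s) D hs ht hD _ q h1 h2
    rw [← hκ] at h3
    exact_mod_cast h3)
  refine ⟨H, hHG, hcard.trans (le_of_eq ?_), hd⟩
  rw [Fintype.card_fin, Real.mul_rpow (x := (κ : ℝ)) (y := (t : ℝ)) (Nat.cast_nonneg _)
    (Nat.cast_nonneg _)]
  ring

end Pool.Agent.Lib.MP_81f3cc_co
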