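import Mathlib

set_option autoImplicit false
set_option linter.unusedSectionVars false

namespace MP81f3cc

open Finset

/-- `SpannerBound e k`: there is a constant `C` such that every graph on `n` vertices has a
subgraph with at most `C n^e` edges and additive error at most `k`. -/
def SpannerBound (e : ℝ) (k : ℕ) : Prop :=
  ∃ C : ℝ, ∀ n : ℕ, ∀ G : SimpleGraph (Fin n),
    ∃ H : SimpleGraph (Fin n), H ≤ G ∧
      (Nat.card H.edgeSet : ℝ) ≤ C * (n : ℝ) ^ e ∧
      ∀ u v : Fin n, H.edist u v ≤ G.edist u v + k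

/-- The same for bipartite graphs only. -/
def BipartiteSpannerBound (e : ℝ) (k : ℕ) : Prop :=
  ∃ C : ℝ, ∀ n : ℕ, ∀ G : SimpleGraph (Fin n), G.IsBipartite →
    ∃ H : SimpleGraph (Fin n), H ≤ G ∧
      (Nat.card H.edgeSet : ℝ) ≤ C * (n : ℝ) ^ e ∧
      ∀ u v : Fin n, H.edist u v ≤ G.edist u v + k

lemma edist_hom_le {V W : Type*} {G : SimpleGraph V} {G' : SimpleGraph W} (f : G →g G')
    (u v : V) : G'.edist (f u) (f v) ≤ G.edist u v := by
  by_cases h : G.edist u v = ⊤
  · rw [h]; exact le_top
  · obtain ⟨p, hp⟩ := SimpleGraph.exists_walk_of_edist_ne_top h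
    rw [← hp]
    have := SimpleGraph.edist_le (p.map f)
    simpa using this

/-- transfer of the bipartite bound to any finite vertex type -/
lemma bipartite_transfer {e : ℝ} {k : ℕ} {C : ℝ}
    (hC : ∀ n : ℕ, ∀ G : SimpleGraph (Fin n), G.IsBipartite →
      ∃ H : SimpleGraph (Fin n), H ≤ G ∧ (Nat.card H.edgeSet : ℝ) ≤ C * (n : ℝ) ^ e ∧
        ∀ u v : Fin n, H.edist u v ≤ G.edist u v + k)
    {W : Type} [Fintype W] (D : SimpleGraph W) (hD : D.IsBipartite) :
    ∃ H : SimpleGraph W, H ≤ D ∧
      (Nat.card H.edgeSet : ℝ) ≤ C * (Fintype.card W : ℝ) ^ e ∧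
      ∀ u v : W, H.edist u v ≤ D.edist u v + k := by
  classical
  let φ : W ≃ Fin (Fintype.card W) := Fintype.equivFin W
  let D' : SimpleGraph (Fin (Fintype.card W)) := D.comap φ.symm
  have hD' : D'.IsBipartite := by
    obtain ⟨c⟩ := hD
    exact ⟨c.comp (SimpleGraph.Hom.comap φ.symm D)⟩
  obtain ⟨H', hH', hcard, hdist⟩ := hC _ D' hD'
  let H : SimpleGraph W := H'.comap φ
  refine ⟨H, ?_, ?_, ?_⟩
  · intro a b hab
    have h1 : H'.Adj (φ a) (φ b) := hab
    have h2 : D.Adj (φ.symm (φ a)) (φ.symm (φ b)) := hH' h1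
    simpa using h2
  · have hle : Nat.card H.edgeSet ≤ Nat.card H'.edgeSet := by
      let g : H →g H' := ⟨φ, fun h => h⟩
      have hinj : Function.Injective (g.mapEdgeSet) := by
        apply SimpleGraph.Hom.mapEdgeSet.injective
        exact φ.injective
      exact Nat.card_le_card_of_injective _ hinj
    calc (Nat.card H.edgeSet : ℝ) ≤ Nat.card H'.edgeSet := by exact_mod_cast hle
      _ ≤ _ := hcard
  · intro u v
    let g : H' →g H := ⟨φ.symm, fun {a b} h => by
      change H'.Adj (φ (φ.symm a)) (φ (φ.symm b))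
      simpa using h⟩
    let g' : D →g D' := ⟨φ, fun {a b} h => by
      change D.Adj (φ.symm (φ a)) (φ.symm (φ b))
      simpa using h⟩
    have h1 := edist_hom_le g (φ u) (φ v)
    have h2 : g (φ u) = u := φ.symm_apply_apply u
    have h3 : g (φ v) = v := φ.symm_apply_apply v
    rw [h2, h3] at h1
    have h4 := edist_hom_le g' u v
    calc H.edist u v ≤ H'.edist (φ u) (φ v) := h1
      _ ≤ D'.edist (φ u) (φ v) + k := hdist _ _
      _ ≤ D.edist u v + k := by gcongr; exact h4

/-- parity: in a bipartite graph an odd additive error may be lowered by one -/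
lemma parity {V : Type*} (G H : SimpleGraph V) (hG : G.IsBipartite) (hH : H ≤ G) (k : ℕ) (u v : V)
    (h : H.edist u v ≤ G.edist u v + (2 * k + 1 : ℕ)) : H.edist u v ≤ G.edist u v + (2 * k : ℕ) := by
  by_cases htop : G.edist u v = ⊤
  · rw [htop]; simp
  obtain ⟨p, hp⟩ := SimpleGraph.exists_walk_of_edist_ne_top htop
  have hfin : H.edist u v ≠ ⊤ := by
    refine ne_top_of_le_ne_top ?_ h
    rw [← hp]
    exact ENat.natCast_ne_top _
  obtain ⟨q, hq⟩ := SimpleGraph.exists_walk_of_edist_ne_top hfin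
  obtain ⟨c⟩ := hG
  let c' : G.Coloring Bool := SimpleGraph.Coloring.mk (fun v => decide (c v = 0)) (by
    intro a b hab
    have h1 := c.valid hab
    have ha : c a = 0 ∨ c a = 1 := by omega
    have hb : c b = 0 ∨ c b = 1 := by omega
    rcases ha with ha | ha <;> rcases hb with hb | hb <;> simp [ha, hb] at h1 ⊢)
  have e1 := c'.even_length_iff_congr p
  have e2 := c'.even_length_iff_congr (q.map (SimpleGraph.Hom.ofLE hH))
  rw [SimpleGraph.Walk.length_map] at e2
  have e3 : Even p.length ↔ Even q.length := e1.trans e2.symm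
  rw [← hp, ← hq] at h ⊢
  have h1 : q.length ≤ p.length + (2 * k + 1) := by exact_mod_cast h
  have h2 : q.length ≠ p.length + (2 * k + 1) := by
    intro h3
    rw [Nat.even_iff, Nat.even_iff] at e3
    omega
  have h3 : q.length ≤ p.length + 2 * k := by omega
  exact_mod_cast h3

/-- the bipartite double cover -/
def dcover {V : Type*} (G : SimpleGraph V) : SimpleGraph (V × Bool) where
  Adj a b := G.Adj a.1 b.1 ∧ a.2 ≠ b.2
  symm := ⟨fun _ _ h => ⟨h.1.symm, h.2.symm⟩⟩
  loopless := ⟨fun _ h => h.2 rfl⟩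

lemma dcover_bip {V : Type*} (G : SimpleGraph V) : (dcover G).IsBipartite := by
  refine ⟨SimpleGraph.Coloring.mk (fun a => if a.2 then 0 else 1) ?_⟩
  intro a b hab
  have h := hab.2
  cases ha : a.2 <;> cases hb : b.2 <;> simp_all

lemma lift_walk {V : Type*} (G : SimpleGraph V) {u v : V} (p : G.Walk u v) (i : Bool) :
    ∃ j : Bool, (dcover G).edist (u, i) (v, j) ≤ p.length := by
  induction p generalizing i with
  | nil => exact ⟨i, by simp⟩
  | cons h q ih =>
    rename_i a b c
    obtain ⟨j, hj⟩ := ih (!i)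
    refine ⟨j, ?_⟩
    have h1 : (dcover G).Adj (a, i) (b, !i) := ⟨h, by simp⟩
    calc (dcover G).edist (a, i) (c, j) ≤
          (dcover G).edist (a, i) (b, !i) + (dcover G).edist (b, !i) (c, j) :=
          SimpleGraph.edist_triangle
      _ ≤ 1 + q.length := by
          gcongr
          exact le_of_eq (SimpleGraph.edist_eq_one_iff_adj.mpr h1)
      _ = _ := by
          rw [SimpleGraph.Walk.length_cons]
          push_cast
          ring

lemma double_cover {e : ℝ} {k : ℕ} (h : BipartiteSpannerBound e k) : SpannerBound e k := by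
  classical
  obtain ⟨C, hC⟩ := h
  refine ⟨C * 2 ^ e, fun n G => ?_⟩
  obtain ⟨H', hH', hcard, hdist⟩ := bipartite_transfer hC (dcover G) (dcover_bip G)
  let H : SimpleGraph (Fin n) :=
    { Adj := fun a b => H'.Adj (a, false) (b, true) ∨ H'.Adj (b, false) (a, true)
      symm := ⟨fun _ _ h => h.symm⟩
      loopless := ⟨fun a h => by
        rcases h with h | h <;> exact G.loopless.irrefl a (hH' h).1⟩ }
  have hproj : ∀ a b : Fin n × Bool, H'.Adj a b → H.Adj a.1 b.1 := by
    rintro ⟨a, i⟩ ⟨b, j⟩ hab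
    have hij := (hH' hab).2
    cases i <;> cases j
    · exact absurd rfl hij
    · exact Or.inl hab
    · exact Or.inr hab.symm
    · exact absurd rfl hij
  refine ⟨H, ?_, ?_, ?_⟩
  · intro a b hab
    rcases hab with h | h
    · exact (hH' h).1
    · exact (hH' h).1.symm
  · have hsub : H.edgeSet ⊆ (Sym2.map Prod.fst) '' H'.edgeSet := by
      intro x
      induction x using Sym2.ind with
      | _ a b =>
        intro hx
        rw [SimpleGraph.mem_edgeSet] at hx
        rcases hx with h | h
        · exact ⟨s((a, false), (b, true)), h, rfl⟩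
        · exact ⟨s((b, false), (a, true)), h, by simp [Sym2.eq_swap]⟩
    have h1 : Nat.card H.edgeSet ≤ Nat.card H'.edgeSet := by
      calc Nat.card H.edgeSet = H.edgeSet.ncard := rfl
        _ ≤ ((Sym2.map Prod.fst) '' H'.edgeSet).ncard :=
            Set.ncard_le_ncard hsub (Set.toFinite _)
        _ ≤ H'.edgeSet.ncard := Set.ncard_image_le (Set.toFinite _)
        _ = _ := rfl
    have h2 : (Fintype.card (Fin n × Bool) : ℝ) = 2 * n := by
      simp [mul_comm]
    rw [h2, Real.mul_rpow (by norm_num) (by positivity)] at hcard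
    calc (Nat.card H.edgeSet : ℝ) ≤ Nat.card H'.edgeSet := by exact_mod_cast h1
      _ ≤ C * (2 ^ e * (n : ℝ) ^ e) := hcard
      _ = _ := by ring
  · intro u v
    by_cases htop : G.edist u v = ⊤
    · rw [htop]; simp
    obtain ⟨p, hp⟩ := SimpleGraph.exists_walk_of_edist_ne_top htop
    obtain ⟨j, hj⟩ := lift_walk G p false
    let g : H' →g H := ⟨Prod.fst, fun {a b} h => hproj a b h⟩
    calc H.edist u v ≤ H'.edist (u, false) (v, j) := edist_hom_le g (u, false) (v, j)
      _ ≤ (dcover G).edist (u, false) (v, j) + k := hdist _ _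
      _ ≤ p.length + k := by gcongr
      _ = G.edist u v + k := by rw [hp]

end MP81f3cc
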